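import Pool.Agent.Helper30.DL.Const

/-!
MP_b4564f_an, all delays. Affine arithmetic over `Nat` for kernel computations, and the affine
version `mkCfA` of the constants `mkCf`.
-/

set_option autoImplicit false

namespace Pool.Agent.Helper30.DL

/-- An affine form `(c + x X + y Y + z Z ± r) / 10^10`, every signed entry stored as `p - n`. -/
structure AF where
  cp : Nat
  cn : Nat
  xp : Nat
  xn : Nat
  yp : Nat
  yn : Nat
  zp : Nat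
  zn : Nat
  r : Nat

namespace AF

/-- absolute value of `p - n` -/
def ab (p n : Nat) : Nat := Nat.add (Nat.sub p n) (Nat.sub n p)

/-- product -/
def mul (A B : AF) : AF :=
  ⟨Nat.div (Nat.add (Nat.mul A.cp B.cp) (Nat.mul A.cn B.cn)) 10000000000,
   Nat.div (Nat.add (Nat.mul A.cp B.cn) (Nat.mul A.cn B.cp)) 10000000000,
   Nat.div (Nat.add (Nat.add (Nat.mul A.cp B.xp) (Nat.mul A.cn B.xn))
     (Nat.add (Nat.mul A.xp B.cp) (Nat.mul A.xn B.cn))) 10000000000,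
   Nat.div (Nat.add (Nat.add (Nat.mul A.cp B.xn) (Nat.mul A.cn B.xp))
     (Nat.add (Nat.mul A.xp B.cn) (Nat.mul A.xn B.cp))) 10000000000,
   Nat.div (Nat.add (Nat.add (Nat.mul A.cp B.yp) (Nat.mul A.cn B.yn))
     (Nat.add (Nat.mul A.yp B.cp) (Nat.mul A.yn B.cn))) 10000000000,
   Nat.div (Nat.add (Nat.add (Nat.mul A.cp B.yn) (Nat.mul A.cn B.yp))
     (Nat.add (Nat.mul A.yp B.cn) (Nat.mul A.yn B.cp))) 10000000000,
   Nat.div (Nat.add (Nat.add (Nat.mul A.cp B.zp) (Nat.mul A.cn B.zn))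
     (Nat.add (Nat.mul A.zp B.cp) (Nat.mul A.zn B.cn))) 10000000000,
   Nat.div (Nat.add (Nat.add (Nat.mul A.cp B.zn) (Nat.mul A.cn B.zp))
     (Nat.add (Nat.mul A.zp B.cn) (Nat.mul A.zn B.cp))) 10000000000,
   Nat.add (Nat.div (Nat.add (Nat.add (Nat.mul (ab A.cp A.cn) B.r) (Nat.mul (ab B.cp B.cn) A.r))
     (Nat.mul (Nat.add (Nat.add (ab A.xp A.xn) (ab A.yp A.yn)) (Nat.add (ab A.zp A.zn) A.r))
       (Nat.add (Nat.add (ab B.xp B.xn) (ab B.yp B.yn)) (Nat.add (ab B.zp B.zn) B.r))))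
     10000000000) 5⟩

/-- sum -/
def add (A B : AF) : AF :=
  ⟨Nat.add A.cp B.cp, Nat.add A.cn B.cn, Nat.add A.xp B.xp, Nat.add A.xn B.xn,
   Nat.add A.yp B.yp, Nat.add A.yn B.yn, Nat.add A.zp B.zp, Nat.add A.zn B.zn, Nat.add A.r B.r⟩

/-- negation -/
def neg (A : AF) : AF := ⟨A.cn, A.cp, A.xn, A.xp, A.yn, A.yp, A.zn, A.zp, A.r⟩

/-- difference -/
def sub (A B : AF) : AF :=
  ⟨Nat.add A.cp B.cn, Nat.add A.cn B.cp, Nat.add A.xp B.xn, Nat.add A.xn B.xp,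
   Nat.add A.yp B.yn, Nat.add A.yn B.yp, Nat.add A.zp B.zn, Nat.add A.zn B.zp, Nat.add A.r B.r⟩

/-- multiples -/
def smul (n : Nat) (A : AF) : AF :=
  ⟨Nat.mul n A.cp, Nat.mul n A.cn, Nat.mul n A.xp, Nat.mul n A.xn,
   Nat.mul n A.yp, Nat.mul n A.yn, Nat.mul n A.zp, Nat.mul n A.zn, Nat.mul n A.r⟩

instance : Add AF := ⟨add⟩
instance : Sub AF := ⟨sub⟩
instance : Mul AF := ⟨mul⟩
instance : Neg AF := ⟨neg⟩
instance : SMul ℕ AF := ⟨smul⟩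

/-- deviation from the centre -/
def dev (A : AF) : Nat :=
  Nat.add (Nat.add (ab A.xp A.xn) (ab A.yp A.yn)) (Nat.add (ab A.zp A.zn) A.r)

/-- a constant with radius -/
def cst (p n r : Nat) : AF := ⟨p, n, 0, 0, 0, 0, 0, 0, r⟩

/-- `1` -/
def one : AF := ⟨10000000000, 0, 0, 0, 0, 0, 0, 0, 0⟩

/-- `0` -/
def zer : AF := ⟨0, 0, 0, 0, 0, 0, 0, 0, 0⟩

/-- all values enclosed by the form are positive -/
def pos (A : AF) : Bool := Nat.blt (Nat.add A.cn A.dev) A.cp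

/-- approximate inverse, without radius; `c` the centre of the inverse -/
def inv0 (A : AF) (c : Nat) : AF :=
  ⟨c, 0, Nat.div (Nat.mul A.xn (Nat.mul c c)) 100000000000000000000,
    Nat.div (Nat.mul A.xp (Nat.mul c c)) 100000000000000000000,
    Nat.div (Nat.mul A.yn (Nat.mul c c)) 100000000000000000000,
    Nat.div (Nat.mul A.yp (Nat.mul c c)) 100000000000000000000,
    Nat.div (Nat.mul A.zn (Nat.mul c c)) 100000000000000000000,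
    Nat.div (Nat.mul A.zp (Nat.mul c c)) 100000000000000000000, 0⟩

/-- adds to the radius -/
def addr (A : AF) (r : Nat) : AF :=
  ⟨A.cp, A.cn, A.xp, A.xn, A.yp, A.yn, A.zp, A.zn, Nat.add A.r r⟩

/-- bound for the absolute value -/
def mag (A : AF) : Nat := Nat.add (ab A.cp A.cn) A.dev

/-- the radius of the inverse: `v` approximate inverse of `A` -/
def invr (A v : AF) : Nat :=
  Nat.add (Nat.div (Nat.mul (mag (sub (mul v A) one)) 10000000000)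
    (Nat.sub A.cp (Nat.add A.cn A.dev))) 1

/-- inverse of a form which satisfies `pos` -/
def inv (A : AF) : AF :=
  let v := inv0 A (Nat.div 100000000000000000000 (Nat.sub A.cp A.cn))
  addr v (invr A v)

/-- The affine form encloses `v` for the values `x, y, z` of the noise symbols. -/
def Enc (A : AF) (x y z v : ℝ) : Prop :=
  |(10000000000 : ℝ) * v - (((A.cp : ℝ) - A.cn) + ((A.xp : ℝ) - A.xn) * x
    + ((A.yp : ℝ) - A.yn) * y + ((A.zp : ℝ) - A.zn) * z)| ≤ A.r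

end AF

/-- complex affine forms -/
structure CA where
  re : AF
  im : AF

namespace CA

/-- sum -/
def add (a b : CA) : CA := ⟨a.re + b.re, a.im + b.im⟩
/-- difference -/
def sub (a b : CA) : CA := ⟨a.re - b.re, a.im - b.im⟩
/-- product -/
def mul (a b : CA) : CA := ⟨a.re * b.re - a.im * b.im, a.re * b.im + a.im * b.re⟩
/-- negation -/
def neg (a : CA) : CA := ⟨-a.re, -a.im⟩
/-- conjugation -/
def cj (a : CA) : CA := ⟨a.re, -a.im⟩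
/-- scalar multiple -/
def scl (s : AF) (a : CA) : CA := ⟨s * a.re, s * a.im⟩
/-- multiplication by `i` -/
def mulI (a : CA) : CA := ⟨-a.im, a.re⟩
/-- real numbers -/
def ofR (a : AF) : CA := ⟨a, AF.zer⟩
/-- natural multiples -/
def smul (n : Nat) (a : CA) : CA := ⟨n • a.re, n • a.im⟩

instance : Add CA := ⟨add⟩
instance : Sub CA := ⟨sub⟩
instance : Mul CA := ⟨mul⟩
instance : Neg CA := ⟨neg⟩
instance : SMul ℕ CA := ⟨smul⟩

/-- enclosure -/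
def Enc (A : CA) (x y z : ℝ) (w : ℂ) : Prop := A.re.Enc x y z w.re ∧ A.im.Enc x y z w.im

end CA

/-- Parameters, as affine constants. -/
structure PmA where
  c1h : AF
  r1 : AF
  A : AF
  c40 : CA
  c31 : CA
  c22 : AF
  c50 : CA
  c41 : CA
  c32 : CA
  xi : CA
  nu0 : CA
  nu1 : CA
  nu2 : CA
  nu3 : CA

/-! ### coefficient extractors -/

/-- `Re (c X)` -/
def re1A (c : CA) : H1 AF := ⟨c.re, -c.im⟩
/-- `Re (c X²)` -/
def re2A (c : CA) : H2 AF := ⟨c.re, -(2 • c.im), -c.re⟩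
/-- `r |X|²` -/
def ab2A (r : AF) : H2 AF := ⟨r, AF.zer, r⟩
/-- `Re (c X³)` -/
def re3A (c : CA) : H3 AF := ⟨c.re, -(3 • c.im), -(3 • c.re), c.im⟩
/-- `Re (c X² X̄)` -/
def ab3A (c : CA) : H3 AF := ⟨c.re, -c.im, c.re, -c.im⟩
/-- `Re (c X⁴)` -/
def re4A (c : CA) : H4 AF := ⟨c.re, -(4 • c.im), -(6 • c.re), 4 • c.im, c.re⟩
/-- `Re (c X³ X̄)` -/
def ab4A (c : CA) : H4 AF := ⟨c.re, -(2 • c.im), AF.zer, -(2 • c.im), -c.re⟩
/-- `r |X|⁴` -/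
def aa4A (r : AF) : H4 AF := ⟨r, AF.zer, 2 • r, AF.zer, r⟩
/-- `Re (c X⁵)` -/
def re5A (c : CA) : H5 AF :=
  ⟨c.re, -(5 • c.im), -(10 • c.re), 10 • c.im, 5 • c.re, -c.im⟩
/-- `Re (c X⁴ X̄)` -/
def ab5A (c : CA) : H5 AF :=
  ⟨c.re, -(3 • c.im), -(2 • c.re), -(2 • c.im), -(3 • c.re), c.im⟩
/-- `Re (c X³ X̄²)` -/
def aa5A (c : CA) : H5 AF := ⟨c.re, -c.im, 2 • c.re, -(2 • c.im), c.re, -c.im⟩

/-- sum -/
def H1.addA (a b : H1 AF) : H1 AF := ⟨a.a + b.a, a.b + b.b⟩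
/-- sum -/
def H2.addA (a b : H2 AF) : H2 AF := ⟨a.a + b.a, a.b + b.b, a.c + b.c⟩
/-- sum -/
def H3.addA (a b : H3 AF) : H3 AF := ⟨a.a + b.a, a.b + b.b, a.c + b.c, a.d + b.d⟩
/-- sum -/
def H4.addA (a b : H4 AF) : H4 AF := ⟨a.a + b.a, a.b + b.b, a.c + b.c, a.d + b.d, a.e + b.e⟩
/-- sum -/
def H5.addA (a b : H5 AF) : H5 AF :=
  ⟨a.a + b.a, a.b + b.b, a.c + b.c, a.d + b.d, a.e + b.e, a.f + b.f⟩

/-! ### basic constants; `t` encloses `τ`, `Q` encloses `π/2`, `c` encloses `cos τ`, `f` encloses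
`sin τ / τ` -/

/-- Base data. -/
structure BsA where
  t : AF
  Q : AF
  c : AF
  f : AF

/-- `1/2` -/
def hlf : AF := AF.cst 5000000000 0 0

/-- cosine from `u = τ²`, for `u ≤ 0.06` -/
def cosA (u : AF) : AF :=
  (AF.one - u * hlf * (AF.one - u * AF.cst 833333333 0 1 * (AF.one - u * AF.cst 333333333 0 1
    * (AF.one - u * AF.cst 178571429 0 1)))).addr 1

/-- `sin τ / τ` from `u = τ²`, for `u ≤ 0.06` -/
def sincA (u : AF) : AF :=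
  (AF.one - u * AF.cst 1666666667 0 1 * (AF.one - u * AF.cst 500000000 0 0
    * (AF.one - u * AF.cst 238095238 0 1 * (AF.one - u * AF.cst 138888889 0 1)))).addr 1

/-- base data from `τ` and `π/2` -/
def mkBs (t Q : AF) : BsA :=
  let u := t * t
  ⟨t, Q, cosA u, sincA u⟩

namespace BsA

/-- `θ` -/
def th (b : BsA) : AF := 2 • b.t
/-- `p` -/
def pp (b : BsA) : AF := 2 • (b.t * b.f)
/-- `δ` -/
def del (b : BsA) : AF := b.Q * b.f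
/-- `θ k` -/
def kt (b : BsA) : AF := b.Q - b.t
/-- `κ_2(p)/(2θ)` -/
def g2h (b : BsA) : AF := b.f * (AF.one - b.pp) * hlf
/-- `e^{iτ}` -/
def e1 (b : BsA) : CA := ⟨b.c, b.t * b.f⟩
/-- `e^{2iτ}` -/
def e2 (b : BsA) : CA := b.e1 * b.e1
/-- `e^{3iτ}` -/
def e3 (b : BsA) : CA := b.e2 * b.e1
/-- `e^{4iτ}` -/
def e4 (b : BsA) : CA := b.e2 * b.e2
/-- `e^{5iτ}` -/
def e5 (b : BsA) : CA := b.e4 * b.e1
/-- `e^{8iτ}` -/
def e8 (b : BsA) : CA := b.e4 * b.e4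

/-- `e^{imτ}` for the needed `m ≥ 0` -/
def exn (b : BsA) : Nat → CA
  | 1 => b.e1
  | 2 => b.e2
  | 3 => b.e3
  | 4 => b.e4
  | 5 => b.e5
  | 8 => b.e8
  | _ => ⟨AF.one, AF.zer⟩

/-- `sin (mτ)/(mτ)`, `m ≤ 5` -/
def sc (b : BsA) : Nat → AF
  | 2 => b.f * b.c
  | 3 => b.f * ((4 • (b.c * b.c) - AF.one) * AF.cst 3333333333 0 1)
  | 4 => b.f * (b.c * (2 • (b.c * b.c) - AF.one))
  | 5 => b.f * ((16 • (b.c * b.c * (b.c * b.c)) - 12 • (b.c * b.c) + AF.one)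
      * AF.cst 2000000000 0 0)
  | _ => b.f

/-- `mτ/ sin (mτ)`, `m ≤ 4` -/
def js (b : BsA) (m : Nat) : AF := AF.inv (b.sc m)

/-- `λ` -/
def lam (b : BsA) : CA := b.e2
/-- `ω` -/
def om (b : BsA) : CA := ⟨-(b.del * hlf), b.c * hlf⟩
/-- `1/κ` -/
def ik (b : BsA) : CA := b.om * b.e2.cj
/-- `cos² τ + δ²` -/
def E2 (b : BsA) : AF := b.c * b.c + b.del * b.del
/-- its inverse -/
def iE (b : BsA) : AF := AF.inv b.E2
/-- `κ` -/
def kap (b : BsA) : CA := (⟨-(2 • (b.iE * b.del)), -(2 • (b.iE * b.c))⟩ : CA) * b.lam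
/-- `|κ|²` -/
def kn (b : BsA) : AF := 4 • b.iE
/-- `μ` -/
def mu (b : BsA) : CA := b.e4.cj
/-- `μ^k` -/
def muk (b : BsA) : CA := -b.lam
/-- `λ^k` -/
def lk (b : BsA) : CA := CA.mulI b.e1.cj

/-- `1/m` -/
def invm : Nat → AF
  | 2 => AF.cst 5000000000 0 0
  | 3 => AF.cst 3333333333 0 1
  | 4 => AF.cst 2500000000 0 0
  | _ => AF.one

/-- `θ/(1-λ^m)`, `m ≤ 4` -/
def Dm (b : BsA) (m : Nat) : CA := CA.scl (b.js m * invm m) (CA.mulI (b.exn m).cj)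
/-- `(1-λ^m)/θ`, `m ≤ 5` -/
def dl (b : BsA) (m : Nat) : CA := -CA.scl (m • b.sc m) (CA.mulI (b.exn m))

/-- `(1-p)/2` -/
def hp (b : BsA) : AF := (AF.one - b.pp) * hlf
/-- `χ/θ` -/
def chh (b : BsA) : CA := ⟨b.f, 2 • (b.f * b.c)⟩
/-- `A - i c` -/
def Aic (b : BsA) (P : PmA) : CA := ⟨P.A, -b.c⟩
/-- `κ²` -/
def kk (b : BsA) : CA := b.kap * b.kap
/-- `1 + 4 cos²` -/
def q14 (b : BsA) : AF := AF.one + 4 • (b.c * b.c)
/-- `α` -/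
def al (b : BsA) (P : PmA) : CA :=
  CA.scl (b.hp * AF.inv b.q14) (b.Aic P * b.kk * b.e4.cj * ⟨AF.one, -(2 • b.c)⟩)
/-- `β` -/
def be (b : BsA) (P : PmA) : AF := b.hp * (P.A * b.kn)
/-- coefficient of `Z³` -/
def c30 (b : BsA) (P : PmA) : CA :=
  CA.scl (-(b.g2h * hlf)) (b.Dm 3 * b.kk * (b.lam + b.Aic P * b.kap))
/-- coefficient of `Z² Z̄` -/
def c21 (b : BsA) (P : PmA) : CA :=
  CA.scl (-b.g2h) (b.Dm 1 * (CA.scl hlf (b.kk * b.e2.cj)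
    + CA.scl b.kn (b.lam + CA.scl hlf (b.kap * ⟨3 • P.A, -b.c⟩))))

/-- `i^m` times -/
def iPow (c : CA) : Nat → CA
  | 1 => CA.mulI c
  | 2 => -c
  | 3 => -CA.mulI c
  | _ => c

/-- `θ ∑ λ^{mj}`, `1 ≤ m ≤ 4` -/
def Sg (b : BsA) (m : Nat) : CA :=
  b.Dm m * ((⟨AF.one, AF.zer⟩ : CA) - iPow ((b.exn m).cj) m)
/-- `θ² ∑ (k-1-j) λ^{mj}` -/
def Lg (b : BsA) (m : Nat) : CA := (CA.ofR b.kt - b.Sg m) * b.Dm m
/-- `θ³ ∑ (k-1-j)² λ^{mj}` -/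
def Mg (b : BsA) (m : Nat) : CA :=
  (CA.ofR (b.kt * b.kt) - 2 • b.Lg m - CA.scl b.th (b.Sg m)) * b.Dm m
/-- `θ² ∑ (k-1-j)` -/
def L0 (b : BsA) : AF := b.kt * (b.kt - b.th) * hlf
/-- `θ³ ∑ (k-1-j)²` -/
def M0 (b : BsA) : AF :=
  (b.kt - b.th) * b.kt * (2 • b.kt - b.th) * AF.cst 1666666667 0 1

/-- all the sums -/
def Gg (b : BsA) : Nat → Int → CA
  | 0, Int.ofNat 0 => CA.ofR b.kt
  | 0, Int.ofNat n => b.Sg n
  | 0, Int.negSucc n => (b.Sg (n + 1)).cj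
  | 1, Int.ofNat 0 => CA.ofR b.L0
  | 1, Int.ofNat n => b.Lg n
  | 1, Int.negSucc n => (b.Lg (n + 1)).cj
  | _, Int.ofNat 0 => CA.ofR b.M0
  | _, Int.ofNat n => b.Mg n
  | _, Int.negSucc n => (b.Mg (n + 1)).cj

end BsA

/-- A term of a basis function. -/
structure TmA where
  c : CA
  m : Int
  f : Nat

/-- real part of a product -/
def CA.remul (a b : CA) : AF := a.re * b.re - a.im * b.im

/-- two terms -/
def tipA (b : BsA) (x y : TmA) : AF :=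
  ((x.c * y.c).remul (b.Gg (Nat.add x.f y.f) (x.m + y.m))
    + (x.c * y.c.cj).remul (b.Gg (Nat.add x.f y.f) (x.m - y.m))) * hlf

/-- inner sum -/
def ip1A (b : BsA) (x : TmA) : List TmA → AF
  | [] => AF.zer
  | y :: l => tipA b x y + ip1A b x l

/-- scaled sum of products of basis functions -/
def ipA (b : BsA) : List TmA → List TmA → AF
  | [], _ => AF.zer
  | x :: l, B => ip1A b x B + ipA b l B

namespace BsA

/-- `κ λ̄` -/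
def kl (b : BsA) : CA := b.kap * b.e2.cj
/-- `1 + p Re (κ λ̄)` -/
def k0 (b : BsA) : AF := AF.one + b.pp * b.kl.re
/-- `α μ` -/
def am (b : BsA) (P : PmA) : CA := b.al P * b.mu
/-- basis functions -/
def B0 (_ : BsA) (P : PmA) : List TmA := [⟨P.nu0, 1, 0⟩]
/-- basis functions -/
def B1 (b : BsA) (P : PmA) : List TmA :=
  [⟨CA.ofR (-(2 • (P.c1h * (b.js 1 * b.kl.re)))), 0, 0⟩,
   ⟨CA.scl (2 • (P.c1h * b.js 1)) (b.kap * b.mu), -1, 0⟩,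
   ⟨CA.scl (2 • (P.r1 * b.f)) (b.kap * b.mu), -1, 1⟩, ⟨P.nu1, 1, 0⟩]
/-- basis functions -/
def B2 (b : BsA) (P : PmA) : List TmA :=
  [⟨CA.ofR (b.be P), 0, 0⟩, ⟨b.am P, -2, 0⟩, ⟨P.nu2, 1, 0⟩]
/-- basis functions -/
def B3 (b : BsA) (P : PmA) : List TmA := [⟨CA.mulI (b.am P), -2, 0⟩, ⟨P.nu3, 1, 0⟩]
/-- basis functions -/
def B4 (_ : BsA) (P : PmA) : List TmA := [⟨⟨AF.one, AF.zer⟩, 0, 0⟩, ⟨-P.xi, 1, 0⟩]

/-- `⟨B4, B4⟩` -/
def gg (b : BsA) (P : PmA) : AF := ipA b (b.B4 P) (b.B4 P)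
/-- `1/(2 r1)` -/
def i2r (P : PmA) : AF := AF.inv (2 • P.r1)
/-- `1 - (c1h / r1) gg` -/
def qd (b : BsA) (P : PmA) : AF := AF.one - P.c1h * (2 • i2r P) * b.gg P
/-- `c1 / (1 - c1 gg / r1)` -/
def c1p (b : BsA) (P : PmA) : AF := P.c1h * AF.inv (b.qd P)
/-- see `tv0` -/
def tv0 (b : BsA) (P : PmA) : AF :=
  AF.one - P.xi.remul b.lk - i2r P * ipA b (b.B0 P) (b.B4 P)
/-- see `tv1` -/
def tv1 (b : BsA) (P : PmA) : AF := -(i2r P * ipA b (b.B1 P) (b.B4 P))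
/-- see `tv2` -/
def tv2 (b : BsA) (P : PmA) : AF := -(i2r P * ipA b (b.B2 P) (b.B4 P))
/-- see `tv3` -/
def tv3 (b : BsA) (P : PmA) : AF := -(i2r P * ipA b (b.B3 P) (b.B4 P))
/-- Gram matrix entry -/
def Gm (b : BsA) (P : PmA) (B B' : List TmA) (u v : AF) : AF :=
  -(i2r P * hlf * ipA b B B') - b.c1p P * (u * v)
/-- The Gram matrix. -/
def mkG (b : BsA) (P : PmA) : G10 AF where
  g00 := b.Gm P (b.B0 P) (b.B0 P) (b.tv0 P) (b.tv0 P)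
  g01 := b.Gm P (b.B0 P) (b.B1 P) (b.tv0 P) (b.tv1 P)
  g02 := b.Gm P (b.B0 P) (b.B2 P) (b.tv0 P) (b.tv2 P)
  g03 := b.Gm P (b.B0 P) (b.B3 P) (b.tv0 P) (b.tv3 P)
  g11 := b.Gm P (b.B1 P) (b.B1 P) (b.tv1 P) (b.tv1 P)
  g12 := b.Gm P (b.B1 P) (b.B2 P) (b.tv1 P) (b.tv2 P)
  g13 := b.Gm P (b.B1 P) (b.B3 P) (b.tv1 P) (b.tv3 P)
  g22 := b.Gm P (b.B2 P) (b.B2 P) (b.tv2 P) (b.tv2 P)
  g23 := b.Gm P (b.B2 P) (b.B3 P) (b.tv2 P) (b.tv3 P)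
  g33 := b.Gm P (b.B3 P) (b.B3 P) (b.tv3 P) (b.tv3 P)
/-- `2 Re ω` -/
def t11 (b : BsA) : AF := 2 • b.om.re
/-- `-2 Im ω` -/
def t12 (b : BsA) : AF := -(2 • b.om.im)
/-- see `w1` -/
def w1 (b : BsA) : CA := CA.scl hlf (b.chh * b.e4 * b.Dm 3)
/-- see `w2` -/
def w2 (b : BsA) : CA := CA.scl hlf (b.chh * b.e4 * b.Dm 1)
/-- `|ω|²` -/
def on (b : BsA) : AF := b.E2 * AF.cst 2500000000 0 0
/-- `ω²` -/
def o2 (b : BsA) : CA := b.om * b.om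
/-- `ω³` -/
def o3 (b : BsA) : CA := b.o2 * b.om
/-- `κ^{-2}` -/
def k2 (b : BsA) : CA := b.ik * b.ik
/-- `κ^{-3}` -/
def k3 (b : BsA) : CA := b.k2 * b.ik
/-- `κ^{-4}` -/
def k4 (b : BsA) : CA := b.k2 * b.k2
/-- `θ²` -/
def th2 (b : BsA) : AF := b.th * b.th
/-- `θ³` -/
def th3 (b : BsA) : AF := b.th2 * b.th

end BsA

/-- The coefficients, affine version of `mkCf`. -/
def mkCfA (P : PmA) (b : BsA) : Cf AF :=
  let G := b.mkG P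
  let o := b.om
  let a1 := b.t11
  let a2 := b.t12
  let z1 := 2 • G.g01 + P.nu1.remul b.lk
  let z2 := 2 • G.g02 + P.nu2.remul b.lk
  let z3 := 2 • G.g03 + P.nu3.remul b.lk
  let x2 := re1A (2 • ((CA.ofR (b.be P) + b.am P * b.muk) * o))
  let q22 := -(b.th * ((3 • P.c31.re + 4 • P.c22) * b.on))
  let G22 := G.g22
  let G23 := G.g23
  let G33 := G.g33
  { del := b.del
    cc := b.c
    g2h := b.g2h
    A := P.A
    H := P.c1h - P.r1 * (b.kt * (b.f * b.f)) + G.g00 + P.nu0.remul b.lk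
    h0 := -(2 • (P.c1h * b.kap.remul (b.Sg 1))) - 2 • (P.r1 * (b.kt * b.f * b.k0)) + z1
    hx := ⟨x2.a + (z2 * a1 - z3 * a2), x2.b + (z2 * a2 + z3 * a1)⟩
    h3 := -(b.th * (b.be P + (b.am P).remul b.muk)) - b.th * z2
    la := re1A (-(2 • CA.scl b.th ((b.al P * b.chh + CA.ofR (b.be P * b.f)) * o)))
    ca := b.th2 * ((b.al P).remul b.chh + b.be P * b.f)
    R4 := (re4A (P.c40 * b.dl 4 * b.k4)).addA (ab4A (P.c31 * b.dl 2 * (b.k3 * b.ik.cj)))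
    R5 := ((re5A (P.c50 * b.dl 5 * (b.k4 * b.ik))).addA
      (ab5A (P.c41 * b.dl 3 * (b.k4 * b.ik.cj)))).addA
      (aa5A (P.c32 * b.dl 1 * (b.k3 * b.k2.cj)))
    g1 := (re2A ((3 • b.c30 P + b.c21 P + b.al P) * b.o2 + 2 • (b.am P * (o * b.w1))
        + CA.scl (b.be P) (o * b.lk))).addA
      (ab2A (2 • ((b.c21 P).re * b.on) + b.be P * b.on + (2 • (b.am P * (o * b.w2))).re
        + b.be P * o.remul b.lk.cj))
    g1c := (re3A ((4 • P.c40 + P.c31) * b.o3)).addA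
      (ab3A ((3 • P.c31 + CA.ofR (4 • P.c22)) * (b.o2 * o.cj)))
    g1f := ((re4A ((5 • P.c50 + P.c41) * (b.o2 * b.o2))).addA
      (ab4A ((4 • P.c41 + 2 • P.c32) * (b.o3 * o.cj)))).addA
      (aa4A (3 • (P.c32.re * (b.on * b.on))))
    g2k := -b.th - (P.c1h * (b.th * ((b.kt * b.kn + b.kk.remul (b.Sg 2)) * hlf))
        + P.r1 * (b.kt * (b.k0 * b.k0))
        + P.r1 * (b.f * b.f * (b.th * ((b.kn * b.L0
          + (b.kk * b.e8.cj).remul (b.Lg 2).cj) * hlf)))) + G.g11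
    g2l := (re1A (-CA.scl b.th ((3 • b.c30 P + 2 • b.c21 P + (b.c21 P).cj
          + 2 • (b.al P + CA.ofR (b.be P))) * o
        + b.am P * b.w1 + (b.am P * b.w2).cj + CA.scl (b.be P) b.lk))).addA
      ⟨2 • (G.g12 * a1 - G.g13 * a2), 2 • (G.g12 * a2 + G.g13 * a1)⟩
    g2q := (re2A (-CA.scl b.th ((6 • P.c40 + 3 • P.c31 + CA.ofR (2 • P.c22)) * b.o2))).addA
      ⟨q22 + (G22 * (a1 * a1) - 2 • (G23 * (a1 * a2)) + G33 * (a2 * a2)),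
        2 • (G22 * (a1 * a2) + G23 * (a1 * a1 - a2 * a2) - G33 * (a1 * a2)),
        q22 + (G22 * (a2 * a2) + 2 • (G23 * (a1 * a2)) + G33 * (a1 * a1))⟩
    g2c := (re3A (-CA.scl b.th ((10 • P.c50 + 4 • P.c41 + P.c32) * b.o3))).addA
      (ab3A (-CA.scl b.th ((6 • P.c41 + 6 • P.c32 + 3 • P.c32.cj) * (b.o2 * o.cj))))
    g3k := b.th2 * ((b.c30 P + b.c21 P + b.al P).re + b.be P) - 2 • (b.th * G.g12)
    g3l := (re1A (CA.scl b.th2 ((4 • P.c40 + 3 • P.c31 + P.c31.cj + CA.ofR (4 • P.c22)) * o))).addA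
      ⟨-(2 • (b.th * (G22 * a1 - G23 * a2))), -(2 • (b.th * (G22 * a2 + G23 * a1)))⟩
    g3q := (re2A (CA.scl b.th2 ((10 • P.c50 + 6 • P.c41 + 3 • P.c32 + P.c32.cj) * b.o2))).addA
      (ab2A (b.th2 * ((4 • P.c41.re + 6 • P.c32.re) * b.on)))
    g4k := -(b.th3 * ((P.c40 + P.c31).re + P.c22)) + b.th2 * G22
    g4l := re1A (-CA.scl b.th3 ((5 • P.c50 + 4 • P.c41 + P.c41.cj + 3 • P.c32
        + 2 • P.c32.cj) * o))
    g5k := b.th3 * b.th * (P.c50 + P.c41 + P.c32).re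
    eq := re2A (CA.scl b.f (b.kl * b.o2))
    el := re1A (2 • CA.scl b.f (b.kap * b.lam * b.Dm 2 * o))
    ek := -(b.th * (b.f * (b.kap * b.lam * b.Dm 2).re)) }

/-- all the inverses are inverses of positive forms -/
def okA (P : PmA) (b : BsA) : Bool :=
  AF.pos b.f && AF.pos (b.sc 2) && AF.pos (b.sc 3) && AF.pos (b.sc 4) && AF.pos b.E2
    && AF.pos b.q14 && AF.pos P.r1 && AF.pos (b.qd P)

/-- enclosure of the parameters -/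
structure EncP (Q : PmA) (P : Pm) : Prop where
  c1h : ∀ x y z, Q.c1h.Enc x y z P.c1h
  r1 : ∀ x y z, Q.r1.Enc x y z P.r1
  aa : ∀ x y z, Q.A.Enc x y z P.A
  c40 : ∀ x y z, Q.c40.Enc x y z P.c40
  c31 : ∀ x y z, Q.c31.Enc x y z P.c31
  c22 : ∀ x y z, Q.c22.Enc x y z P.c22
  c50 : ∀ x y z, Q.c50.Enc x y z P.c50
  c41 : ∀ x y z, Q.c41.Enc x y z P.c41
  c32 : ∀ x y z, Q.c32.Enc x y z P.c32
  xi : ∀ x y z, Q.xi.Enc x y z P.xi
  nu0 : ∀ x y z, Q.nu0.Enc x y z P.nu0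
  nu1 : ∀ x y z, Q.nu1.Enc x y z P.nu1
  nu2 : ∀ x y z, Q.nu2.Enc x y z P.nu2
  nu3 : ∀ x y z, Q.nu3.Enc x y z P.nu3

/-- enclosure of the coefficients -/
structure EncCf (C : Cf AF) (x y z : ℝ) (R : Cf ℝ) : Prop where
  del : C.del.Enc x y z R.del
  cc : C.cc.Enc x y z R.cc
  g2h : C.g2h.Enc x y z R.g2h
  aa : C.A.Enc x y z R.A
  H : C.H.Enc x y z R.H
  h0 : C.h0.Enc x y z R.h0
  hxa : C.hx.a.Enc x y z R.hx.a
  hxb : C.hx.b.Enc x y z R.hx.b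
  h3 : C.h3.Enc x y z R.h3
  laa : C.la.a.Enc x y z R.la.a
  lab : C.la.b.Enc x y z R.la.b
  ca : C.ca.Enc x y z R.ca
  R4a : C.R4.a.Enc x y z R.R4.a
  R4b : C.R4.b.Enc x y z R.R4.b
  R4c : C.R4.c.Enc x y z R.R4.c
  R4d : C.R4.d.Enc x y z R.R4.d
  R4e : C.R4.e.Enc x y z R.R4.e
  R5a : C.R5.a.Enc x y z R.R5.a
  R5b : C.R5.b.Enc x y z R.R5.b
  R5c : C.R5.c.Enc x y z R.R5.c
  R5d : C.R5.d.Enc x y z R.R5.d
  R5e : C.R5.e.Enc x y z R.R5.e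
  R5f : C.R5.f.Enc x y z R.R5.f
  g1a : C.g1.a.Enc x y z R.g1.a
  g1b : C.g1.b.Enc x y z R.g1.b
  g1c' : C.g1.c.Enc x y z R.g1.c
  g1ca : C.g1c.a.Enc x y z R.g1c.a
  g1cb : C.g1c.b.Enc x y z R.g1c.b
  g1cc : C.g1c.c.Enc x y z R.g1c.c
  g1cd : C.g1c.d.Enc x y z R.g1c.d
  g1fa : C.g1f.a.Enc x y z R.g1f.a
  g1fb : C.g1f.b.Enc x y z R.g1f.b
  g1fc : C.g1f.c.Enc x y z R.g1f.c
  g1fd : C.g1f.d.Enc x y z R.g1f.d
  g1fe : C.g1f.e.Enc x y z R.g1f.e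
  g2k : C.g2k.Enc x y z R.g2k
  g2la : C.g2l.a.Enc x y z R.g2l.a
  g2lb : C.g2l.b.Enc x y z R.g2l.b
  g2qa : C.g2q.a.Enc x y z R.g2q.a
  g2qb : C.g2q.b.Enc x y z R.g2q.b
  g2qc : C.g2q.c.Enc x y z R.g2q.c
  g2ca : C.g2c.a.Enc x y z R.g2c.a
  g2cb : C.g2c.b.Enc x y z R.g2c.b
  g2cc : C.g2c.c.Enc x y z R.g2c.c
  g2cd : C.g2c.d.Enc x y z R.g2c.d
  g3k : C.g3k.Enc x y z R.g3k
  g3la : C.g3l.a.Enc x y z R.g3l.a
  g3lb : C.g3l.b.Enc x y z R.g3l.b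
  g3qa : C.g3q.a.Enc x y z R.g3q.a
  g3qb : C.g3q.b.Enc x y z R.g3q.b
  g3qc : C.g3q.c.Enc x y z R.g3q.c
  g4k : C.g4k.Enc x y z R.g4k
  g4la : C.g4l.a.Enc x y z R.g4l.a
  g4lb : C.g4l.b.Enc x y z R.g4l.b
  g5k : C.g5k.Enc x y z R.g5k
  eqa : C.eq.a.Enc x y z R.eq.a
  eqb : C.eq.b.Enc x y z R.eq.b
  eqc : C.eq.c.Enc x y z R.eq.c
  ela : C.el.a.Enc x y z R.el.a
  elb : C.el.b.Enc x y z R.el.b
  ek : C.ek.Enc x y z R.ek

end Pool.Agent.Helper30.DL
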