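import Pool.Agent.Helper30.DL.GoalsD
import Pool.Agent.Helper59.DL.CST
import Pool.Agent.Helper31.DL.IPL
import Pool.Agent.Helper49.DL.WND
import Pool.Agent.Helper58.DL.QTOT
import Pool.Agent.Helper54.DL.ABTOT
import Pool.Agent.Helper69.DL.ZGTOT
import Pool.Agent.Helper42.DL.PTOT
import Pool.Agent.Helper73.DL.CUB
import Pool.Agent.Helper27.DL.MINQ
import Pool.Agent.Helper85.DL.GRM
import Pool.Agent.Helper40.DL.EVL
import Pool.Agent.Helper65.DL.NLB
import Pool.Agent.Helper40.DL.AFS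
import Pool.Agent.Helper31.DL.TRIG
import Pool.Agent.Helper16.DL.MKA
import Pool.Agent.Helper54.DL.MKB
import Pool.Agent.Helper8.DL.MKC
import Pool.Agent.Helper56.DL.TBL
import Pool.Agent.Helper93.DL.LEAF
import Pool.Agent.Helper49.DL.TREE
import Pool.Agent.Helper61.DL.GSER
import Pool.Agent.Helper31.DL.EINT
import Pool.Agent.Helper5.DL.BEB
import Pool.Agent.Helper65.DL.EKN
import Pool.Agent.Helper55.DL.RGN
import Pool.Agent.Helper93.DL.RGS
import Pool.Agent.Helper79.DL.S3S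
import Pool.Agent.Helper40.DL.BRS
import Pool.Agent.Helper91.DL.SIX
import Pool.Agent.Helper67.DL.CELL
import Pool.Agent.Helper46.DL.CONV
import Pool.Agent.Helper32.DL.MISC
import Pool.Agent.Helper55.DL.EXTU
import Pool.Agent.Helper19.DL.EXTD
import Pool.Agent.Helper56.DL.SUMC
import Pool.Agent.Helper97.DL.GAS
import Pool.Agent.Helper38.DL.KONE
import Pool.Agent.Helper61.DL.BOXFIN
import Pool.Agent.Helper90.DL.UINF
import Pool.Agent.Helper93.DL.DINF
import Pool.Agent.Helper31.DL.BOXINF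

/-!
MP_b4564f_an, all delays. All packets put together: `CellStmt`, `ConvStmt`, the boxes, smaller `p`.
-/

set_option autoImplicit false

namespace Pool.Agent.Helper30.DL

theorem hCst : CstStmt := Pool.Agent.Helper59.DL.cst
theorem hIpl : IplStmt := Pool.Agent.Helper31.DL.ipl hCst
theorem hWnd : WndStmt := Pool.Agent.Helper49.DL.wnd hCst
theorem hQtot : QtotStmt := Pool.Agent.Helper58.DL.qtot hCst hWnd
theorem hAbtot : AbtotStmt := Pool.Agent.Helper54.DL.abtot hCst hWnd
theorem hZgtot : ZgtotStmt := Pool.Agent.Helper69.DL.zgtot hCst hWnd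
theorem hPtot : PtotStmt := Pool.Agent.Helper42.DL.ptot hCst
theorem hCub : CubStmt := Pool.Agent.Helper73.DL.cub hCst
theorem hMinq : MinqStmt := Pool.Agent.Helper27.DL.minq
theorem hGrm : GrmStmt := Pool.Agent.Helper85.DL.grm hCst hIpl hMinq
theorem hEvl : EvlStmt := Pool.Agent.Helper40.DL.evl
theorem hNlb : NlbStmt :=
  Pool.Agent.Helper65.DL.nlb hCst hWnd hQtot hAbtot hZgtot hPtot hCub hGrm hEvl
theorem hAfs : AfsStmt := Pool.Agent.Helper40.DL.afs
theorem hTrig : TrigStmt := Pool.Agent.Helper31.DL.trig hAfs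
theorem hMka : MkaStmt := Pool.Agent.Helper16.DL.mka hAfs
theorem hMkb : MkbStmt := Pool.Agent.Helper54.DL.mkb hAfs hMka
theorem hMkc : MkcStmt := Pool.Agent.Helper8.DL.mkc hAfs hMka hMkb
theorem hTbl : TblStmt := Pool.Agent.Helper56.DL.TBL.tbl hAfs hTrig hMkb hMkc
theorem hLeaf : LeafStmt := Pool.Agent.Helper93.DL.Leaf.leaf hAfs
theorem hTree : TreeStmt := Pool.Agent.Helper49.DL.tree hLeaf
theorem hGser : GserStmt := Pool.Agent.Helper61.DL.gser
theorem hEint : EintStmt := Pool.Agent.Helper31.DL.eint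
theorem hBeb : BebStmt := Pool.Agent.Helper5.DL.beb
theorem hEkn : EknStmt := Pool.Agent.Helper65.DL.ekn
theorem hRgn : RgnStmt := Pool.Agent.Helper55.DL.rgn hCst hWnd
theorem hRgs : RgsStmt := Pool.Agent.Helper93.DL.rgs hAfs hGser hRgn hCst
theorem hS3s : S3sStmt := Pool.Agent.Helper79.DL.s3s hAfs hGser hBeb hEkn
theorem hBrs : BrsStmt := Pool.Agent.Helper40.DL.brs hGser
theorem hSix : SixStmt := Pool.Agent.Helper91.DL.six hTree
theorem hCell : CellStmt :=
  Pool.Agent.Helper67.DL.cell hAfs hTbl hCst hWnd hGser hEint hBeb hRgs hS3s hBrs hSix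
theorem hConv : ConvStmt := Pool.Agent.Helper46.DL.conv hCst hNlb
theorem hMisc : MiscStmt := Pool.Agent.Helper32.DL.misc
theorem hExtU : ExtUStmt := Pool.Agent.Helper55.DL.extU
theorem hExtD : ExtDStmt := Pool.Agent.Helper19.DL.extD
theorem hGas : GasStmt := Pool.Agent.Helper97.DL.gas hExtU hExtD Pool.Agent.Helper56.DL.sumC
theorem hKone : KoneStmt := Pool.Agent.Helper38.DL.kone hExtU hExtD
theorem hBoxFin : BoxFinStmt := Pool.Agent.Helper61.DL.boxFin hExtU hExtD
theorem hBoxInf : BoxInfStmt :=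
  Pool.Agent.Helper31.DL.boxInf (Pool.Agent.Helper90.DL.uInf hExtU)
    (Pool.Agent.Helper90.DL.uStart hExtU) (Pool.Agent.Helper93.DL.dInf hExtD)

end Pool.Agent.Helper30.DL
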