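import Pool.Agent.Helper30.DL.AF

/-!
MP_b4564f_an, all delays. Checkers (kernel computations): tables of coefficients over a cell of
`τ`, and trees of boxes for the positivity of `Phi`.
-/

set_option autoImplicit false

namespace Pool.Agent.Helper30.DL

/-! ### series of the nonlinearity -/

/-- Taylor coefficients of `g = (FF ((1-e)p) a - p a)/θ`; `c8` is the remainder. -/
noncomputable def mkGs (t e c8 : ℝ) : Gs ℝ :=
  let q := (1 - e) * pp t
  let f := (1 - e) * ph t * (1 - q)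
  { c1 := -(e * ph t)
    c2 := f / 2
    c3 := f * (1 - 2 * q) / 6
    c4 := f * (1 - q * (6 - 6 * q)) / 24
    c5 := f * (1 - q * (14 - q * (36 - 24 * q))) / 120
    c6 := f * (1 - q * (30 - q * (150 - q * (240 - 120 * q)))) / 720
    c7 := f * (1 - q * (62 - q * (540 - q * (1560 - q * (1800 - 720 * q))))) / 5040
    c8 := c8 }

/-- affine version of `mkGs`; `e` a constant, `e1 = 1 - e`; `c8` with radius `14500000 / 10^11` -/
def mkGsA (b : BsA) (e e1 : AF) : Gs AF :=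
  let q := e1 * b.pp
  let f := e1 * b.f * (AF.one - q)
  { c1 := -(e * b.f)
    c2 := f * hlf
    c3 := f * (AF.one - 2 • q) * AF.cst 1666666667 0 1
    c4 := f * (AF.one - q * (6 • AF.one - 6 • q)) * AF.cst 416666667 0 1
    c5 := f * (AF.one - q * (14 • AF.one - q * (36 • AF.one - 24 • q))) * AF.cst 83333333 0 1
    c6 := f * (AF.one - q * (30 • AF.one - q * (150 • AF.one - q * (240 • AF.one - 120 • q))))
      * AF.cst 13888889 0 1
    c7 := f * (AF.one - q * (62 • AF.one - q * (540 • AF.one - q * (1560 • AF.one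
      - q * (1800 • AF.one - 720 • q))))) * AF.cst 1984127 0 1
    c8 := AF.cst 0 0 1450000 }

/-! ### tables -/

/-- A table: the coefficients, the two series, and the constants of the region. -/
structure Tb (α : Type) where
  C : Cf α
  K0 : Gs α
  K1 : Gs α
  rk : α
  s1 : α
  q1 : α
  im : α
  il : α
  q2 : α

/-- real table -/
noncomputable def mkTb (P : Pm) (em t : ℝ) : Tb ℝ where
  C := mkCf P t
  K0 := mkGs t 0 0
  K1 := mkGs t em 0
  rk := (kap t * lk t).re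
  s1 := (kap t * Sg t 1).re
  q1 := kt t * ((kt t * kn t + (kap t ^ 2 * Sg t 2).re) / 2)
  im := (kap t).im
  il := (kap t * (lk t - 1)).im
  q2 := kt t * ((kt t * kn t * ph t ^ 2 - (kap t ^ 2 * dl t 1 ^ 2 * Sg t 2).re) / 2)

/-- affine table -/
def mkTbA (P : PmA) (e e1 : AF) (b : BsA) : Tb AF where
  C := mkCfA P b
  K0 := mkGsA b AF.zer AF.one
  K1 := mkGsA b e e1
  rk := b.kap.remul b.lk
  s1 := b.kap.remul (b.Sg 1)
  q1 := b.kt * ((b.kt * b.kn + b.kk.remul (b.Sg 2)) * hlf)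
  im := b.kap.im
  il := (b.kap * (b.lk - (⟨AF.one, AF.zer⟩ : CA))).im
  q2 := b.kt * ((b.kt * b.kn * (b.f * b.f) - (b.kk * (b.dl 1 * b.dl 1)).remul (b.Sg 2)) * hlf)

/-- the entries of the coefficients -/
def Cf.toL {α : Type} (C : Cf α) : List α :=
  [C.del, C.cc, C.g2h, C.A, C.H, C.h0, C.hx.a, C.hx.b, C.h3, C.la.a, C.la.b, C.ca,
   C.R4.a, C.R4.b, C.R4.c, C.R4.d, C.R4.e, C.R5.a, C.R5.b, C.R5.c, C.R5.d, C.R5.e, C.R5.f,
   C.g1.a, C.g1.b, C.g1.c, C.g1c.a, C.g1c.b, C.g1c.c, C.g1c.d,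
   C.g1f.a, C.g1f.b, C.g1f.c, C.g1f.d, C.g1f.e, C.g2k, C.g2l.a, C.g2l.b,
   C.g2q.a, C.g2q.b, C.g2q.c, C.g2c.a, C.g2c.b, C.g2c.c, C.g2c.d,
   C.g3k, C.g3l.a, C.g3l.b, C.g3q.a, C.g3q.b, C.g3q.c, C.g4k, C.g4l.a, C.g4l.b, C.g5k,
   C.eq.a, C.eq.b, C.eq.c, C.el.a, C.el.b, C.ek]

/-- the first seven coefficients -/
def Gs.toL {α : Type} (K : Gs α) : List α := [K.c1, K.c2, K.c3, K.c4, K.c5, K.c6, K.c7]

/-- all the entries of a table, except the `c8` -/
def Tb.toL {α : Type} (T : Tb α) : List α :=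
  T.C.toL ++ (T.K0.toL ++ (T.K1.toL ++ [T.rk, T.s1, T.q1, T.im, T.il, T.q2]))

/-- `v` (on the `j`-th of `ns` subcells) is covered by `w` -/
def chk1 (ns j : Nat) (v w : AF) : Bool :=
  Nat.ble
    (Nat.add (Nat.add
      (AF.ab (Nat.add (Nat.add (Nat.mul ns v.cp) (Nat.mul ns w.cn))
          (Nat.add (Nat.mul w.zn (Nat.add (Nat.mul 2 j) 1)) (Nat.mul w.zp ns)))
        (Nat.add (Nat.add (Nat.mul ns v.cn) (Nat.mul ns w.cp))
          (Nat.add (Nat.mul w.zp (Nat.add (Nat.mul 2 j) 1)) (Nat.mul w.zn ns))))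
      (AF.ab (Nat.add (Nat.mul ns v.zp) w.zn) (Nat.add (Nat.mul ns v.zn) w.zp)))
      (Nat.mul ns (Nat.add v.r (Nat.add (AF.ab v.xp v.xn) (AF.ab v.yp v.yn)))))
    (Nat.mul ns w.r)

/-- the entry of a table has no `x`, `y` parts -/
def AF.cz (w : AF) : Bool :=
  Nat.beq w.xp 0 && Nat.beq w.xn 0 && Nat.beq w.yp 0 && Nat.beq w.yn 0

/-- lists -/
def chkL (ns j : Nat) : List AF → List AF → Bool
  | [], [] => true
  | v :: l, w :: m => chk1 ns j v w && (w.cz && chkL ns j l m)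
  | _, _ => false

/-- `τ` on the `j`-th of `ns` subcells of `[t0, t1]` -/
def tsub (t0 t1 ns j : Nat) : AF :=
  ⟨Nat.div (Nat.add (Nat.mul t0 (Nat.sub (Nat.mul 2 ns) (Nat.add (Nat.mul 2 j) 1)))
      (Nat.mul t1 (Nat.add (Nat.mul 2 j) 1))) (Nat.mul 2 ns), 0, 0, 0, 0, 0,
    Nat.div (Nat.sub t1 t0) (Nat.mul 2 ns), 0, 2⟩

/-- `π/2` -/
def QA : AF := AF.cst 15707963268 0 1

/-- check of one subcell -/
def tbl1 (P : PmA) (e e1 : AF) (t0 t1 ns j : Nat) (T : Tb AF) : Bool :=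
  let b := mkBs (tsub t0 t1 ns j) QA
  okA P b && chkL ns j (mkTbA P e e1 b).toL T.toL

/-- check of all subcells `j < n` -/
def tblOK (P : PmA) (e e1 : AF) (t0 t1 ns : Nat) (T : Tb AF) : Nat → Bool
  | 0 => true
  | n + 1 => tbl1 P e e1 t0 t1 ns n T && tblOK P e e1 t0 t1 ns T n

/-! ### positivity of `Phi` -/

/-- integers as affine constants -/
def AF.ofI (v : Int) : AF := AF.cst v.toNat (-v).toNat 0

/-- the interval `[lo, hi]` in the noise symbol `x` -/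
def AF.ofX (lo hi : Int) : AF :=
  ⟨((lo + hi) / 2).toNat, (-((lo + hi) / 2)).toNat, ((hi - lo + 1) / 2).toNat, 0, 0, 0, 0, 0, 0⟩

/-- the interval `[lo, hi]` in the noise symbol `y` -/
def AF.ofY (lo hi : Int) : AF :=
  ⟨((lo + hi) / 2).toNat, (-((lo + hi) / 2)).toNat, 0, 0, ((hi - lo + 1) / 2).toNat, 0, 0, 0, 0⟩

/-- the interval `[lo, hi]` as a radius -/
def AF.ofR (lo hi : Int) : AF :=
  ⟨((lo + hi) / 2).toNat, (-((lo + hi) / 2)).toNat, 0, 0, 0, 0, 0, 0, ((hi - lo + 1) / 2).toNat⟩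

/-- lower bound -/
def AF.lo (A : AF) : Int := (A.cp : Int) - ((A.cn + A.dev : Nat) : Int)

/-- upper bound -/
def AF.hi (A : AF) : Int := ((A.cp + A.dev : Nat) : Int) - (A.cn : Int)

/-- Literal region data: `om a - bl ≤ ζ ≤ om a + bh`. -/
structure Rg where
  om : Int
  bl : Int
  bh : Int

/-- lower bound of the curvature on `[d0, d1]` -/
def qlo (Q : Qc AF) (d0 d1 : Int) : Int :=
  let D := AF.ofR d0 d1
  (Q.q0 + D * (Q.q1 + D * (Q.q2 + D * Q.q3))).lo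

/-- lower bound of the curvature, interval `[d0, d1]` cut in one or four pieces -/
def qlon (Q : Qc AF) (n : Nat) (d0 d1 : Int) : Int :=
  match n with
  | 0 => qlo Q d0 d1
  | _ =>
    let h := (d1 - d0) / 4 + 1
    min (min (qlo Q d0 (d0 + h)) (qlo Q (d0 + h) (d0 + 2 * h)))
      (min (qlo Q (d0 + 2 * h) (d0 + 3 * h)) (qlo Q (d0 + 3 * h) (d0 + 4 * h)))

/-- `t0 + t1 d + B d² ≥ 0` for all `d ∈ [0, D]` -/
def half (t0 t1 B D : Int) : Bool :=
  decide (D ≤ 0) ||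
    (if B < 0 then decide (0 ≤ t0 * 100000000000000000000 + t1 * D * 10000000000 + B * D * D)
     else decide (0 ≤ t1) || decide (t1 * t1 ≤ 4 * B * t0)
      || decide (0 ≤ t0 * 10000000000 + t1 * D))

/-- the data of a leaf: the values `T0`, `T1`, `Q` and the form for `ρ² s` and `a` -/
structure Lf where
  T0 : AF
  T1 : AF
  Q : Qc AF
  a : AF
  zs : AF

/-- leaf data for `e = 0` (scaling with `g = ρ² γ`) -/
def lf4 (C : Cf AF) (K : Gs AF) (rho al y s : AF) : Lf :=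
  let a := rho * al
  let u := al - rho * s
  let k := k3 K a
  let al2 := al * al
  let gam := al2 * (K.c2 + a * k)
  let G := rho * (rho * gam)
  let G3 := al2 * (al * k) + C.g2h * (s * (2 • u + rho * s))
  let D := dco C AF.one gam (gam * gam) G rho al y AF.zer ⟨AF.zer, AF.zer⟩
    ⟨AF.zer, AF.zer, AF.zer⟩
  let zs := rho * (rho * s)
  ⟨T0f C D AF.one gam G rho u y s G3, T1f C D rho AF.one gam G rho u y s G3,
    qco C G (rho * y) (rho * u) zs AF.zer, a, zs⟩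

/-- leaf data for `e = 1` (scaling with `g = ρ γ`) -/
def lf2 (C : Cf AF) (K : Gs AF) (rho al y s : AF) : Lf :=
  let a := rho * al
  let u := al - rho * s
  let k := k3 K a
  let gam := al * (K.c1 + a * (K.c2 + a * k))
  let G := rho * gam
  let G3 := gam - rho * (C.g2h * (u * u))
  let D := dco C (rho * rho) (rho * gam) (gam * gam) G rho al y (C.ek * (gam * gam))
    ⟨gam * C.el.a, gam * C.el.b⟩ C.eq
  let zs := rho * (rho * s)
  ⟨T0f C D (rho * rho) (rho * gam) G rho u y s G3, T1f C D AF.one rho gam G rho u y s G3,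
    qco C G (rho * y) (rho * u) zs C.eq.a, a, zs⟩

/-- final test of a leaf. `ch = 2`: absolute chart, otherwise scaled chart. -/
def lfT (ch : Nat) (R : Rg) (n : Nat) (z0 z1 : Int) (L : Lf) : Bool :=
  let d0 := max z0 (R.om * L.a.lo / 10000000000 - R.bl) - L.zs.hi
  let d1 := min z1 (R.om * L.a.hi / 10000000000 + 1 + R.bh) - L.zs.lo
  let B := qlon L.Q n d0 d1
  let t0 := L.T0.lo - 1
  decide (0 ≤ t0) &&
    (match ch with
     | 2 => half t0 L.T1.lo B d1 && half t0 (-L.T1.hi) B (-d0)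
     | _ => decide (0 < B) && decide ((L.T1.mag : Int) * L.T1.mag ≤ 4 * B * t0))

/-- chart arguments `ρ, α, y` from the box -/
def rhoA (ch : Nat) (X0 X1 : Int) : AF :=
  match ch with
  | 2 => AF.one
  | _ => AF.ofX X0 X1
/-- chart arguments -/
def alA (ch : Nat) (X0 X1 Y0 Y1 : Int) : AF :=
  match ch with
  | 0 => AF.one
  | 1 => AF.ofY Y0 Y1
  | _ => AF.ofX X0 X1
/-- chart arguments -/
def yA (ch : Nat) (Y0 Y1 : Int) : AF :=
  match ch with
  | 1 => AF.one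
  | _ => AF.ofY Y0 Y1

/-- check of a leaf; `md = 0` for `e = 0`, otherwise `e = 1`; `s` the slice -/
def lfC (md ch : Nat) (C : Cf AF) (K : Gs AF) (R : Rg) (s : Int) (n : Nat)
    (X0 X1 Y0 Y1 z0 z1 : Int) : Bool :=
  match md with
  | 0 => lfT ch R n z0 z1 (lf4 C K (rhoA ch X0 X1) (alA ch X0 X1 Y0 Y1) (yA ch Y0 Y1)
      (AF.ofI s))
  | _ => lfT ch R n z0 z1 (lf2 C K (rhoA ch X0 X1) (alA ch X0 X1 Y0 Y1) (yA ch Y0 Y1)
      (AF.ofI s))

/-- nothing to check: chart `1`: `|w ρ| > x0`; chart `2`: no admissible `ζ` -/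
def ouC (ch : Nat) (R : Rg) (x0 : Int) (X0 X1 Y0 Y1 z0 z1 : Int) : Bool :=
  match ch with
  | 1 => decide (0 < max Y0 (-Y1)) && decide (0 < max X0 (-X1))
      && decide (x0 * 10000000000 < max Y0 (-Y1) * max X0 (-X1))
  | 2 => decide (min z1 (R.om * X1 / 10000000000 + 1 + R.bh)
      < max z0 (R.om * X0 / 10000000000 - R.bl))
  | _ => false

/-- Trees of boxes. -/
inductive Tr where
  | lf (s : Int) (n : Nat) : Tr
  | ou : Tr
  | sx (p : Int) (l r : Tr) : Tr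
  | sy (p : Int) (l r : Tr) : Tr
  | sz (p : Int) (l r : Tr) : Tr

/-- check of a tree -/
def Tr.run (md ch : Nat) (C : Cf AF) (K : Gs AF) (R : Rg) (x0 : Int) :
    Tr → Int → Int → Int → Int → Int → Int → Bool
  | .lf s n, X0, X1, Y0, Y1, z0, z1 => lfC md ch C K R s n X0 X1 Y0 Y1 z0 z1
  | .ou, X0, X1, Y0, Y1, z0, z1 => ouC ch R x0 X0 X1 Y0 Y1 z0 z1
  | .sx p l r, X0, X1, Y0, Y1, z0, z1 =>
      Tr.run md ch C K R x0 l X0 p Y0 Y1 z0 z1 && Tr.run md ch C K R x0 r p X1 Y0 Y1 z0 z1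
  | .sy p l r, X0, X1, Y0, Y1, z0, z1 =>
      Tr.run md ch C K R x0 l X0 X1 Y0 p z0 z1 && Tr.run md ch C K R x0 r X0 X1 p Y1 z0 z1
  | .sz p l r, X0, X1, Y0, Y1, z0, z1 =>
      Tr.run md ch C K R x0 l X0 X1 Y0 Y1 z0 p && Tr.run md ch C K R x0 r X0 X1 Y0 Y1 p z1

end Pool.Agent.Helper30.DL
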