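import Pool.Agent.Helper30.DL.Chk
import Pool.Agent.Helper30.PL.Taylor

/-!
MP_b4564f_an, all delays. Checkers, second part: modified coefficients at `e = e_m`, the sign of the
second divided difference in `g`, the region.
-/

set_option autoImplicit false

namespace Pool.Agent.Helper30.DL

/-- `g = G/θ` at relative distance `e` from the critical parameter -/
noncomputable def gf (t e a : ℝ) : ℝ := (PL.FF ((1 - e) * pp t) a - pp t * a) / th t

/-- coefficients with `e = em` absorbed, and the correction `em² (2 ζ² + (11/10) |X|²)` subtracted -/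
noncomputable def Cf.md (C : Cf ℝ) (em : ℝ) : Cf ℝ :=
  { C with
    H := C.H - 2 * em ^ 2
    eq := ⟨em * C.eq.a - 11 / 10 * em ^ 2, em * C.eq.b, em * C.eq.c - 11 / 10 * em ^ 2⟩
    el := ⟨em * C.el.a, em * C.el.b⟩
    ek := em * C.ek }

/-- affine version; `E` is `em` in units `10^(-4)` -/
def Cf.mdA (C : Cf AF) (E : Nat) : Cf AF :=
  let em := AF.cst (E * 1000000) 0 0
  { C with
    H := C.H - AF.cst (2 * E * E * 100) 0 0
    eq := ⟨em * C.eq.a - AF.cst (11 * E * E * 10) 0 0, em * C.eq.b,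
      em * C.eq.c - AF.cst (11 * E * E * 10) 0 0⟩
    el := ⟨em * C.el.a, em * C.el.b⟩
    ek := em * C.ek }

/-- bound of `g* - g_{em}` in units `a² 10^(-10)`; `cq` in units `10^(-4)` -/
def w2n (E t1 cq : Nat) : Nat := E * E * t1 * cq / 1000000000000 + 1

/-- the series for `g*` -/
def Gs.shA (K : Gs AF) (w : Nat) : Gs AF :=
  { K with c2 := K.c2 + AF.cst (w / 2 + 1) 0 (w / 2 + 1) }

/-! ### the bracket -/

/-- `A_2 + A_3 h_1 + A_4 h_2 + A_5 h_3`, the second divided difference of `g ↦ Phi` -/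
noncomputable def Br (C : Cf ℝ) (a x y z g0 g1 g2 : ℝ) : ℝ :=
  (C.g2k + C.g2l.ev x y + C.g2q.ev x y + C.g2c.ev x y + z * C.h3 + C.ca * a)
  + (C.g3k + C.g3l.ev x y + C.g3q.ev x y) * (g0 + g1 + g2)
  + (C.g4k + C.g4l.ev x y) * (g0 ^ 2 + g1 ^ 2 + g2 ^ 2 + g0 * g1 + g0 * g2 + g1 * g2)
  + C.g5k * (g0 ^ 3 + g1 ^ 3 + g2 ^ 3 + g0 ^ 2 * g1 + g0 ^ 2 * g2 + g1 ^ 2 * g0 + g1 ^ 2 * g2
    + g2 ^ 2 * g0 + g2 ^ 2 * g1 + g0 * g1 * g2)

/-- affine version of the bracket; `z = om a + δ`, `δ ∈ [d0, d1]`, all `g`s are `g0 - a β'`,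
`0 ≤ β' ≤ eh` -/
def brA (C : Cf AF) (K : Gs AF) (eh om : Int) (X0 X1 Y0 Y1 d0 d1 : Int) : AF :=
  let a := AF.ofX X0 X1
  let y := AF.ofY Y0 Y1
  let z := AF.ofI om * a + AF.ofR d0 d1
  let x := a - z
  let G := a * (a * (K.c2 + a * k3 K a)) - a * AF.ofR 0 eh
  let A2 := C.g2k + x * (C.g2l.a + x * (C.g2q.a + x * C.g2c.a)
      + y * (C.g2q.b + y * C.g2c.c + x * C.g2c.b))
    + y * (C.g2l.b + y * (C.g2q.c + y * C.g2c.d)) + z * C.h3 + C.ca * a
  let A3 := C.g3k + x * (C.g3l.a + x * C.g3q.a + y * C.g3q.b) + y * (C.g3l.b + y * C.g3q.c)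
  let A4 := C.g4k + x * C.g4l.a + y * C.g4l.b
  A2 + G * (3 • A3 + G * (6 • A4 + 10 • (C.g5k * G)))

/-- check of a tree for the bracket -/
def Tr.runB (C : Cf AF) (K : Gs AF) (eh om : Int) : Tr → Int → Int → Int → Int → Int → Int → Bool
  | .lf _ _, X0, X1, Y0, Y1, z0, z1 => decide ((brA C K eh om X0 X1 Y0 Y1 z0 z1).hi ≤ 0)
  | .ou, _, _, _, _, _, _ => false
  | .sx p l r, X0, X1, Y0, Y1, z0, z1 =>
      Tr.runB C K eh om l X0 p Y0 Y1 z0 z1 && Tr.runB C K eh om r p X1 Y0 Y1 z0 z1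
  | .sy p l r, X0, X1, Y0, Y1, z0, z1 =>
      Tr.runB C K eh om l X0 X1 Y0 p z0 z1 && Tr.runB C K eh om r X0 X1 p Y1 z0 z1
  | .sz p l r, X0, X1, Y0, Y1, z0, z1 =>
      Tr.runB C K eh om l X0 X1 Y0 Y1 z0 p && Tr.runB C K eh om r X0 X1 Y0 Y1 p z1

/-! ### scalar checks -/

/-- Literal data of a cell. `m, M`: box (`-m ≤ a ≤ M`), `ylo, yhi`: bounds of `Im X`; `bt`: bound of
`b/a`; `k2`: bound of `g_0/a²` for `a > 0`; `W1, W2`: widths. -/
structure Cd where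
  m : Int
  M : Int
  ylo : Int
  yhi : Int
  bt : Int
  k2 : Int
  W1 : Int
  W2 : Int

/-- series bounds on `[lo, lo + n h]`: `(g_0 - g_em)/a ≤ em bt`, `g_0/a² ≤ k2` -/
def serC (K0 K1 : Gs AF) (ebt k2 : Int) (h : Int) : Nat → Int → Bool
  | 0, _ => true
  | n + 1, lo =>
    let a := AF.ofX lo (lo + h)
    decide ((K0.c1 - K1.c1 + a * (K0.c2 - K1.c2 + a * (k3 K0 a - k3 K1 a))).hi ≤ ebt)
      && (decide ((K0.c2 + a * k3 K0 a).hi ≤ k2) && serC K0 K1 ebt k2 h n (lo + h))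

/-- condition on the terms which are linear in `b`:
`136.4 (2 - c3) ≥ 11 (4 + bt p)² + 31 bt² q²`, `c3 = 2 bt k2 M |ek|` -/
def s3C (C : Cf AF) (D : Cd) : Bool :=
  decide (10000000000 ≤ D.bt) && decide (0 ≤ D.k2) && decide (0 ≤ D.M) &&
  decide (110 * (40000000000 * 10000000000 + D.bt * C.el.a.mag) ^ 2
      + 310 * (D.bt * C.el.b.mag) ^ 2
      + 1364 * (2 * D.bt * D.k2 * D.M * C.ek.mag)
    ≤ 2728 * (10000000000 ^ 4 : Int))

/-- region: `FM/θ = ph M + g_0 (M)`, `Fm/θ = ph m - g_0 (-m)`; the checks -/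
def rgC (T : Tb AF) (ph : AF) (R : Rg) (D : Cd) : Bool :=
  let gs := fun (a : AF) => a * (a * (T.K0.c2 + a * k3 T.K0 a))
  let aM := AF.ofI D.M
  let am := AF.ofI D.m
  let F1 := ph * aM + gs aM
  let F2 := ph * am - gs (-am)
  let cd := (F2 - F1) * hlf
  let wd := (F2 + F1) * hlf
  let mm := max D.m D.M
  let dv := (((AF.one - T.rk - AF.ofI R.om).mag : Int) * mm) / 10000000000 + 1
  let cs := cd * T.s1
  let cy := AF.ofI (D.M - D.m) * hlf
  let wy := AF.ofI (D.M + D.m) * hlf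
  let ci := cy * T.il
  decide (0 ≤ D.m) && decide (0 ≤ D.M) && decide (0 ≤ R.om) && decide (0 ≤ D.W1)
    && decide (0 ≤ D.W2)
    && decide ((wd * wd * T.q1).hi * 10000000000 ≤ D.W1 * D.W1)
    && decide (dv + cs.hi + D.W1 ≤ R.bl) && decide (dv - cs.lo + D.W1 ≤ R.bh)
    && decide ((wy * wy * T.q2).hi * 10000000000 ≤ D.W2 * D.W2)
    && decide ((T.im * aM).hi + ci.hi + D.W2 ≤ D.yhi)
    && decide ((-(T.im * am)).hi + ci.hi + D.W2 ≤ D.yhi)
    && decide (D.ylo ≤ (T.im * aM).lo + ci.lo - D.W2)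
    && decide (D.ylo ≤ (-(T.im * am)).lo + ci.lo - D.W2)

/-- all scalar checks of a cell. `E`: `em` in units `10^(-4)`. The form `-K1.c1 / em` encloses `ph`;
it is supplied as `ph` through `C.del`: `ph = del * (2/π)`. -/
def scC (T : Tb AF) (E : Nat) (R : Rg) (D : Cd) : Bool :=
  let ph := T.C.del * AF.cst 6366197724 0 1
  s3C T.C D && serC T.K0 T.K1 (D.bt * E / 10000) D.k2 (D.M / 8 + 1) 8 0 && rgC T ph R D

end Pool.Agent.Helper30.DL
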