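import Pool.Agent.Helper30.DL.Poly

/-!
MP_b4564f_an, all delays. The constants: `mkCf P t`, `t = τ = π/(2(2k+1))`, `θ = 2τ`, `p = 2 sin τ`,
`λ = e^{iθ}`, as functions of the real number `t`.
-/

set_option autoImplicit false

open Complex (I)

namespace Pool.Agent.Helper30.DL

/-- Parameters of the functional and of the multipliers. -/
structure Pm where
  c1h : ℝ
  r1 : ℝ
  A : ℝ
  c40 : ℂ
  c31 : ℂ
  c22 : ℝ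
  c50 : ℂ
  c41 : ℂ
  c32 : ℂ
  xi : ℂ
  nu0 : ℂ
  nu1 : ℂ
  nu2 : ℂ
  nu3 : ℂ

/-! ### coefficient extractors: `X = x + i y` -/

/-- `Re (c X)` -/
def re1 (c : ℂ) : H1 ℝ := ⟨c.re, -c.im⟩

/-- `Re (c X²)` -/
def re2 (c : ℂ) : H2 ℝ := ⟨c.re, -(2 * c.im), -c.re⟩

/-- `r |X|²` -/
def ab2 (r : ℝ) : H2 ℝ := ⟨r, 0, r⟩

/-- `Re (c X³)` -/
def re3 (c : ℂ) : H3 ℝ := ⟨c.re, -(3 * c.im), -(3 * c.re), c.im⟩

/-- `Re (c X² X̄)` -/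
def ab3 (c : ℂ) : H3 ℝ := ⟨c.re, -c.im, c.re, -c.im⟩

/-- `Re (c X⁴)` -/
def re4 (c : ℂ) : H4 ℝ := ⟨c.re, -(4 * c.im), -(6 * c.re), 4 * c.im, c.re⟩

/-- `Re (c X³ X̄)` -/
def ab4 (c : ℂ) : H4 ℝ := ⟨c.re, -(2 * c.im), 0, -(2 * c.im), -c.re⟩

/-- `r |X|⁴` -/
def aa4 (r : ℝ) : H4 ℝ := ⟨r, 0, 2 * r, 0, r⟩

/-- `Re (c X⁵)` -/
def re5 (c : ℂ) : H5 ℝ :=
  ⟨c.re, -(5 * c.im), -(10 * c.re), 10 * c.im, 5 * c.re, -c.im⟩

/-- `Re (c X⁴ X̄)` -/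
def ab5 (c : ℂ) : H5 ℝ :=
  ⟨c.re, -(3 * c.im), -(2 * c.re), -(2 * c.im), -(3 * c.re), c.im⟩

/-- `Re (c X³ X̄²)` -/
def aa5 (c : ℂ) : H5 ℝ := ⟨c.re, -c.im, 2 * c.re, -(2 * c.im), c.re, -c.im⟩

/-- sum -/
def H1.add (a b : H1 ℝ) : H1 ℝ := ⟨a.a + b.a, a.b + b.b⟩

/-- sum -/
def H2.add (a b : H2 ℝ) : H2 ℝ := ⟨a.a + b.a, a.b + b.b, a.c + b.c⟩

/-- sum -/
def H3.add (a b : H3 ℝ) : H3 ℝ := ⟨a.a + b.a, a.b + b.b, a.c + b.c, a.d + b.d⟩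

/-- sum -/
def H4.add (a b : H4 ℝ) : H4 ℝ := ⟨a.a + b.a, a.b + b.b, a.c + b.c, a.d + b.d, a.e + b.e⟩

/-- sum -/
def H5.add (a b : H5 ℝ) : H5 ℝ :=
  ⟨a.a + b.a, a.b + b.b, a.c + b.c, a.d + b.d, a.e + b.e, a.f + b.f⟩

/-! ### basic constants -/

/-- `θ = 2 τ` -/
noncomputable def th (t : ℝ) : ℝ := 2 * t
/-- `cos τ` -/
noncomputable def cs (t : ℝ) : ℝ := Real.cos t
/-- `p / θ = sin τ / τ` -/
noncomputable def ph (t : ℝ) : ℝ := Real.sin t / t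
/-- critical parameter `p = 2 sin τ` -/
noncomputable def pp (t : ℝ) : ℝ := 2 * Real.sin t
/-- `δ = (π/2) sin τ / τ` -/
noncomputable def del (t : ℝ) : ℝ := Real.pi / 2 * ph t
/-- `θ k = π/2 - τ` -/
noncomputable def kt (t : ℝ) : ℝ := Real.pi / 2 - t
/-- `κ_2(p) / (2 θ)` -/
noncomputable def g2h (t : ℝ) : ℝ := ph t * (1 - pp t) / 2

/-- `e^{i m τ}` -/
noncomputable def ex (t : ℝ) (m : ℤ) : ℂ := Complex.exp (I * ((m : ℝ) * t : ℝ))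

/-- `sin (m τ) / (m τ)` -/
noncomputable def sc (t : ℝ) (m : ℕ) : ℝ := Real.sin (m * t) / (m * t)
/-- `m τ / sin (m τ)` -/
noncomputable def js (t : ℝ) (m : ℕ) : ℝ := m * t / Real.sin (m * t)

/-- `λ` -/
noncomputable def lam (t : ℝ) : ℂ := ex t 2
/-- `ω = λ / κ = (i/2) (cos τ + i δ)` -/
noncomputable def om (t : ℝ) : ℂ := ⟨-(del t) / 2, cs t / 2⟩
/-- `1 / κ` -/
noncomputable def ik (t : ℝ) : ℂ := om t * ex t (-2)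
/-- `1 / (cos² τ + δ²)` -/
noncomputable def iE (t : ℝ) : ℝ := (cs t ^ 2 + del t ^ 2)⁻¹
/-- `κ = -2 i λ / (cos τ + i δ)` -/
noncomputable def kap (t : ℝ) : ℂ :=
  (⟨-(2 * (iE t * del t)), -(2 * (iE t * cs t))⟩ : ℂ) * lam t
/-- `|κ|²` -/
noncomputable def kn (t : ℝ) : ℝ := 4 * iE t
/-- `μ = λ^{-2}` -/
noncomputable def mu (t : ℝ) : ℂ := ex t (-4)
/-- `μ^k = -λ` -/
noncomputable def muk (t : ℝ) : ℂ := -lam t
/-- `λ^k = i e^{-iτ}` -/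
noncomputable def lk (t : ℝ) : ℂ := I * ex t (-1)

/-- `θ / (1 - λ^m)`, `m ≥ 1` -/
noncomputable def Dm (t : ℝ) (m : ℕ) : ℂ := (⟨0, js t m / m⟩ : ℂ) * ex t (-m)
/-- `(1 - λ^m) / θ`, `m ≥ 1` -/
noncomputable def dl (t : ℝ) (m : ℕ) : ℂ := (⟨0, -(m * sc t m)⟩ : ℂ) * ex t m

/-- `(1-p)/2` -/
noncomputable def hp (t : ℝ) : ℝ := (1 - pp t) / 2
/-- `χ / θ = (p/θ) (1 + 2 i cos τ)` -/
noncomputable def chh (t : ℝ) : ℂ := ⟨ph t, 2 * (ph t * cs t)⟩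
/-- `A - i cos τ` -/
noncomputable def Aic (P : Pm) (t : ℝ) : ℂ := ⟨P.A, -cs t⟩
/-- `α` -/
noncomputable def al (P : Pm) (t : ℝ) : ℂ :=
  ((hp t * (1 + 4 * cs t ^ 2)⁻¹ : ℝ) : ℂ) * (Aic P t * (kap t * kap t) * ex t (-4)
    * ⟨1, -(2 * cs t)⟩)
/-- `β` -/
noncomputable def be (P : Pm) (t : ℝ) : ℝ := hp t * (P.A * kn t)

/-- coefficient of `Z³` -/
noncomputable def c30 (P : Pm) (t : ℝ) : ℂ :=
  ((-(g2h t / 2) : ℝ) : ℂ) * (Dm t 3 * (kap t * kap t) * (lam t + Aic P t * kap t))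
/-- coefficient of `Z² Z̄` -/
noncomputable def c21 (P : Pm) (t : ℝ) : ℂ :=
  ((-(g2h t) : ℝ) : ℂ) * (Dm t 1 * ((1 / 2 : ℝ) * (kap t * kap t * ex t (-2))
    + (kn t : ℂ) * (lam t + (1 / 2 : ℝ) * (kap t * ⟨3 * P.A, -cs t⟩))))

/-! ### geometric sums, `θ`-scaled. -/

/-- `θ ∑_{j<k} λ^{mj}`, `m ≥ 1` -/
noncomputable def Sg (t : ℝ) (m : ℕ) : ℂ := Dm t m * (1 - I ^ m * ex t (-m))
/-- `θ² ∑_{j<k} (k-1-j) λ^{mj}`, `m ≥ 1` -/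
noncomputable def Lg (t : ℝ) (m : ℕ) : ℂ := ((kt t : ℂ) - Sg t m) * Dm t m
/-- `θ³ ∑_{j<k} (k-1-j)² λ^{mj}`, `m ≥ 1` -/
noncomputable def Mg (t : ℝ) (m : ℕ) : ℂ :=
  ((kt t ^ 2 : ℝ) - (2 : ℝ) * Lg t m - (th t : ℂ) * Sg t m) * Dm t m
/-- `θ² ∑_{j<k} (k-1-j)` -/
noncomputable def L0 (t : ℝ) : ℝ := kt t * (kt t - th t) / 2
/-- `θ³ ∑_{j<k} (k-1-j)²` -/
noncomputable def M0 (t : ℝ) : ℝ := (kt t - th t) * kt t * (2 * kt t - th t) / 6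

/-- `θ^{f+1} ∑_{j<k} (k-1-j)^f λ^{mj}`, all integers `m`, `f ≤ 2`. -/
noncomputable def Gg (t : ℝ) (f : ℕ) (m : ℤ) : ℂ :=
  match f, m with
  | 0, 0 => (kt t : ℂ)
  | 0, Int.ofNat n => Sg t n
  | 0, Int.negSucc n => (starRingEnd ℂ) (Sg t (n + 1))
  | 1, 0 => (L0 t : ℂ)
  | 1, Int.ofNat n => Lg t n
  | 1, Int.negSucc n => (starRingEnd ℂ) (Lg t (n + 1))
  | _, 0 => (M0 t : ℂ)
  | _, Int.ofNat n => Mg t n
  | _, Int.negSucc n => (starRingEnd ℂ) (Mg t (n + 1))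

/-- A term `(θ (k-1-j))^f Re (c λ^{mj})` of a basis function. -/
structure Tm where
  c : ℂ
  m : ℤ
  f : ℕ

/-- `θ ∑_{j<k} x(j) y(j)` for two terms -/
noncomputable def tip (t : ℝ) (x y : Tm) : ℝ :=
  ((x.c * y.c * Gg t (x.f + y.f) (x.m + y.m)).re
    + (x.c * (starRingEnd ℂ) y.c * Gg t (x.f + y.f) (x.m - y.m)).re) / 2

/-- `θ ∑_{j<k} B(j) B'(j)` -/
noncomputable def ip (t : ℝ) (B B' : List Tm) : ℝ :=
  (B.map fun x => (B'.map fun y => tip t x y).sum).sum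

/-- `κ λ̄` -/
noncomputable def kl (t : ℝ) : ℂ := kap t * ex t (-2)
/-- `1 + p Re (κ λ̄)` -/
noncomputable def k0 (t : ℝ) : ℝ := 1 + pp t * (kl t).re
/-- `α μ` -/
noncomputable def am (P : Pm) (t : ℝ) : ℂ := al P t * mu t

/-- basis functions -/
noncomputable def B0 (P : Pm) : List Tm := [⟨P.nu0, 1, 0⟩]
/-- basis functions -/
noncomputable def B1 (P : Pm) (t : ℝ) : List Tm :=
  [⟨((-(2 * (P.c1h * (js t 1 * (kl t).re))) : ℝ) : ℂ), 0, 0⟩,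
   ⟨((2 * (P.c1h * js t 1) : ℝ) : ℂ) * (kap t * mu t), -1, 0⟩,
   ⟨((2 * (P.r1 * ph t) : ℝ) : ℂ) * (kap t * mu t), -1, 1⟩, ⟨P.nu1, 1, 0⟩]
/-- basis functions -/
noncomputable def B2 (P : Pm) (t : ℝ) : List Tm :=
  [⟨(be P t : ℂ), 0, 0⟩, ⟨am P t, -2, 0⟩, ⟨P.nu2, 1, 0⟩]
/-- basis functions -/
noncomputable def B3 (P : Pm) (t : ℝ) : List Tm := [⟨I * am P t, -2, 0⟩, ⟨P.nu3, 1, 0⟩]
/-- basis functions -/
noncomputable def B4 (P : Pm) : List Tm := [⟨1, 0, 0⟩, ⟨-P.xi, 1, 0⟩]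

/-- `⟨B4, B4⟩` -/
noncomputable def gg (P : Pm) (t : ℝ) : ℝ := ip t (B4 P) (B4 P)
/-- `c1 / (1 - c1 gg / r1)` -/
noncomputable def c1p (P : Pm) (t : ℝ) : ℝ := P.c1h * (1 - P.c1h / P.r1 * gg P t)⁻¹

/-- `T` vector: coefficients of `ζ, g, g T1, g T2` in the argument of the last square -/
noncomputable def tv0 (P : Pm) (t : ℝ) : ℝ :=
  1 - (P.xi * lk t).re - 1 / (2 * P.r1) * ip t (B0 P) (B4 P)
/-- as `tv0` -/
noncomputable def tv1 (P : Pm) (t : ℝ) : ℝ := -(1 / (2 * P.r1) * ip t (B1 P t) (B4 P))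
/-- as `tv0` -/
noncomputable def tv2 (P : Pm) (t : ℝ) : ℝ := -(1 / (2 * P.r1) * ip t (B2 P t) (B4 P))
/-- as `tv0` -/
noncomputable def tv3 (P : Pm) (t : ℝ) : ℝ := -(1 / (2 * P.r1) * ip t (B3 P t) (B4 P))

/-- Gram matrix entry -/
noncomputable def Gm (P : Pm) (t : ℝ) (B B' : List Tm) (u v : ℝ) : ℝ :=
  -(1 / (4 * P.r1) * ip t B B') - c1p P t * (u * v)

/-- The Gram matrix. -/
structure G10 (α : Type) where
  g00 : α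
  g01 : α
  g02 : α
  g03 : α
  g11 : α
  g12 : α
  g13 : α
  g22 : α
  g23 : α
  g33 : α

/-- The Gram matrix. -/
noncomputable def mkG (P : Pm) (t : ℝ) : G10 ℝ where
  g00 := Gm P t (B0 P) (B0 P) (tv0 P t) (tv0 P t)
  g01 := Gm P t (B0 P) (B1 P t) (tv0 P t) (tv1 P t)
  g02 := Gm P t (B0 P) (B2 P t) (tv0 P t) (tv2 P t)
  g03 := Gm P t (B0 P) (B3 P t) (tv0 P t) (tv3 P t)
  g11 := Gm P t (B1 P t) (B1 P t) (tv1 P t) (tv1 P t)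
  g12 := Gm P t (B1 P t) (B2 P t) (tv1 P t) (tv2 P t)
  g13 := Gm P t (B1 P t) (B3 P t) (tv1 P t) (tv3 P t)
  g22 := Gm P t (B2 P t) (B2 P t) (tv2 P t) (tv2 P t)
  g23 := Gm P t (B2 P t) (B3 P t) (tv2 P t) (tv3 P t)
  g33 := Gm P t (B3 P t) (B3 P t) (tv3 P t) (tv3 P t)

/-- `T1 = 2 (ω X)_1 - θ g = t11 x + t12 y - θ g`, `T2 = 2 (ω X)_2 = -t12 x + t11 y` -/
noncomputable def t11 (t : ℝ) : ℝ := 2 * (om t).re
/-- see `t11` -/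
noncomputable def t12 (t : ℝ) : ℝ := -(2 * (om t).im)

/-- `w1 = (χ/2) λ² / (1 - λ³)` -/
noncomputable def w1 (t : ℝ) : ℂ := (1 / 2 : ℝ) * (chh t * ex t 4 * Dm t 3)
/-- `w2 = (χ/2) λ² / (1 - λ)` -/
noncomputable def w2 (t : ℝ) : ℂ := (1 / 2 : ℝ) * (chh t * ex t 4 * Dm t 1)

/-- conjugation -/
noncomputable def cj (c : ℂ) : ℂ := (starRingEnd ℂ) c

/-- `|ω|²` -/
noncomputable def on (t : ℝ) : ℝ := (cs t ^ 2 + del t ^ 2) / 4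

/-- The coefficients. -/
noncomputable def mkCf (P : Pm) (t : ℝ) : Cf ℝ :=
  let G := mkG P t
  let o := om t
  let a1 := t11 t
  let a2 := t12 t
  let z1 := 2 * G.g01 + (P.nu1 * lk t).re
  let z2 := 2 * G.g02 + (P.nu2 * lk t).re
  let z3 := 2 * G.g03 + (P.nu3 * lk t).re
  let x2 := re1 ((2 : ℝ) * ((be P t + am P t * muk t) * o))
  { del := del t
    cc := cs t
    g2h := g2h t
    A := P.A
    H := P.c1h - P.r1 * (kt t * ph t ^ 2) + G.g00 + (P.nu0 * lk t).re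
    h0 := -(2 * (P.c1h * (kap t * Sg t 1).re)) - 2 * (P.r1 * (kt t * ph t * k0 t)) + z1
    hx := ⟨x2.a + (z2 * a1 - z3 * a2), x2.b + (z2 * a2 + z3 * a1)⟩
    h3 := -(th t * (be P t + (am P t * muk t).re)) - th t * z2
    la := re1 ((-(2 * th t) : ℝ) * ((al P t * chh t + (be P t * ph t : ℝ)) * o))
    ca := th t ^ 2 * ((al P t * chh t).re + be P t * ph t)
    R4 := (re4 (P.c40 * dl t 4 * ik t ^ 4)).add (ab4 (P.c31 * dl t 2 * (ik t ^ 3 * cj (ik t))))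
    R5 := ((re5 (P.c50 * dl t 5 * ik t ^ 5)).add
      (ab5 (P.c41 * dl t 3 * (ik t ^ 4 * cj (ik t))))).add
      (aa5 (P.c32 * dl t 1 * (ik t ^ 3 * cj (ik t) ^ 2)))
    g1 := (re2 ((3 * c30 P t + c21 P t + al P t) * o ^ 2 + 2 * (am P t * (o * w1 t))
        + (be P t : ℂ) * (o * lk t))).add
      (ab2 (2 * ((c21 P t).re * on t) + be P t * on t + (2 * (am P t * (o * w2 t))).re
        + be P t * (o * cj (lk t)).re))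
    g1c := (re3 ((4 * P.c40 + P.c31) * o ^ 3)).add
      (ab3 ((3 * P.c31 + (4 * P.c22 : ℝ)) * (o ^ 2 * cj o)))
    g1f := ((re4 ((5 * P.c50 + P.c41) * o ^ 4)).add
      (ab4 ((4 * P.c41 + 2 * P.c32) * (o ^ 3 * cj o)))).add (aa4 (3 * (P.c32.re * on t ^ 2)))
    g2k := -th t - (P.c1h * (th t * ((kt t * kn t + (kap t ^ 2 * Sg t 2).re) / 2))
        + P.r1 * (kt t * k0 t ^ 2)
        + P.r1 * (ph t ^ 2 * (th t * ((kn t * L0 t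
          + (kap t ^ 2 * ex t (-8) * cj (Lg t 2)).re) / 2)))) + G.g11
    g2l := (re1 (-((th t : ℂ) * ((3 * c30 P t + 2 * c21 P t + cj (c21 P t)
          + 2 * (al P t + be P t)) * o
        + am P t * w1 t + cj (am P t * w2 t) + (be P t : ℂ) * lk t)))).add
      ⟨2 * (G.g12 * a1 - G.g13 * a2), 2 * (G.g12 * a2 + G.g13 * a1)⟩
    g2q := (re2 ((-th t : ℝ) * ((6 * P.c40 + 3 * P.c31 + (2 * P.c22 : ℝ)) * o ^ 2))).add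
      ⟨-(th t * ((3 * P.c31.re + 4 * P.c22) * on t))
          + (G.g22 * a1 ^ 2 - 2 * (G.g23 * (a1 * a2)) + G.g33 * a2 ^ 2),
        2 * (G.g22 * (a1 * a2) + G.g23 * (a1 ^ 2 - a2 ^ 2) - G.g33 * (a1 * a2)),
        -(th t * ((3 * P.c31.re + 4 * P.c22) * on t))
          + (G.g22 * a2 ^ 2 + 2 * (G.g23 * (a1 * a2)) + G.g33 * a1 ^ 2)⟩
    g2c := (re3 ((-th t : ℝ) * ((10 * P.c50 + 4 * P.c41 + P.c32) * o ^ 3))).add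
      (ab3 ((-th t : ℝ) * ((6 * P.c41 + 6 * P.c32 + 3 * cj P.c32) * (o ^ 2 * cj o))))
    g3k := th t ^ 2 * ((c30 P t + c21 P t + al P t).re + be P t) - 2 * (th t * G.g12)
    g3l := (re1 ((th t ^ 2 : ℝ) * ((4 * P.c40 + 3 * P.c31 + cj P.c31 + (4 * P.c22 : ℝ)) * o))).add
      ⟨-(2 * (th t * (G.g22 * a1 - G.g23 * a2))), -(2 * (th t * (G.g22 * a2 + G.g23 * a1)))⟩
    g3q := (re2 ((th t ^ 2 : ℝ) * ((10 * P.c50 + 6 * P.c41 + 3 * P.c32 + cj P.c32) * o ^ 2))).add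
      (ab2 (th t ^ 2 * ((4 * P.c41.re + 6 * P.c32.re) * on t)))
    g4k := -(th t ^ 3 * ((P.c40 + P.c31).re + P.c22)) + th t ^ 2 * G.g22
    g4l := re1 ((-(th t ^ 3) : ℝ) * ((5 * P.c50 + 4 * P.c41 + cj P.c41 + 3 * P.c32
        + 2 * cj P.c32) * o))
    g5k := th t ^ 4 * (P.c50 + P.c41 + P.c32).re
    eq := re2 ((ph t : ℂ) * (kl t * o ^ 2))
    el := re1 ((2 * ph t : ℝ) * (kap t * lam t * Dm t 2 * o))
    ek := -(th t * (ph t * (kap t * lam t * Dm t 2).re)) }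

end Pool.Agent.Helper30.DL
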