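import Pool.Agent.Helper30.DL.GoalsD

/-!
MP_b4564f_an, all delays. From the packets to the theorem, part A (no computation).
-/

set_option autoImplicit false

open Filter Topology Finset

namespace Pool.Agent.Helper30.DL

/-- positivity in the box of the delay `k` -/
def CellsStmt : Prop :=
  ∀ k : ℕ, 3 ≤ k → ∃ P : Pm, CellPos k P (if k ≤ 18 then 1 / 5 else 3 / 20) (bm k) (bM k)

theorem cellPos_of (hCell : CellStmt) (hMisc : MiscStmt) {Q : PmA} {E t0 t1 ns cq : ℕ} {T : Tb AF}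
    {R : Rg} {D : Cd} {x0 x1 : ℤ} (h : CellRun Q E t0 t1 ns cq T R D x0 x1) (hQ : Q.isC = true)
    {m M em : ℝ} (hm : m = (D.m : ℝ) / 10000000000) (hM : M = (D.M : ℝ) / 10000000000)
    (hE : em = (E : ℝ) / 10000) {c : ℝ} (hc : c = (cq : ℝ))
    (hexp : (Real.exp M - 1) ^ 2 ≤ c / 10000 * M ^ 2)
    {k : ℕ} (hk : 3 ≤ k) {u0 u1 : ℝ} (hu0 : (t0 : ℝ) = u0) (hu1 : (t1 : ℝ) = u1)
    (ht : u0 ≤ 10000000000 * tau k ∧ 10000000000 * tau k ≤ u1) :
    CellPos k Q.toPm em m M := by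
  subst hm hE hc hu0 hu1
  exact hCell Q Q.toPm E t0 t1 ns cq T R D x0 x1 M h (hMisc.1 Q hQ).1 (hMisc.1 Q hQ).2 hM hexp k hk
    ht.1 ht.2

lemma bm_pos (k : ℕ) : 0 < bm k := by
  unfold bm; split_ifs <;> norm_num

lemma bM_pos (k : ℕ) : 0 < bM k := by
  unfold bM; split_ifs <;> norm_num

lemma tau_mem {k : ℕ} : 0 < Real.pi / (2 * (2 * (k : ℝ) + 1)) ∧
    Real.pi / (2 * (2 * (k : ℝ) + 1)) ≤ Real.pi / 2 := by
  have hpi := Real.pi_pos
  refine ⟨by positivity, ?_⟩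
  apply div_le_div_of_nonneg_left hpi.le (by norm_num)
  have : (0 : ℝ) ≤ k := Nat.cast_nonneg k
  linarith

lemma pc_pos (k : ℕ) : 0 < pc k := by
  unfold pc
  have h := tau_mem (k := k)
  have := Real.sin_pos_of_pos_of_lt_pi h.1 (by have := Real.pi_pos; linarith [h.2])
  linarith

lemma pc_cos (k : ℕ) : 2 * Real.cos (k * Real.pi / (2 * k + 1)) = pc k := by
  unfold pc
  rw [← Real.cos_pi_div_two_sub]
  congr 2
  have : (2 * (k : ℝ) + 1) ≠ 0 := by positivity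
  field_simp
  ring

theorem conv_ge3 (hCells : CellsStmt) (hConv : ConvStmt) (hGas : GasStmt) (hBoxFin : BoxFinStmt)
    (hBoxInf : BoxInfStmt) {k : ℕ} (hk : 3 ≤ k) {p : ℝ} {X : ℕ → ℝ} (hp0 : 0 < p) (hp : p ≤ pc k)
    (hX : SolX k p X) : Tendsto X atTop (𝓝 1) := by
  obtain ⟨P, hP⟩ := hCells k hk
  have key : ∀ em : ℝ, em < 1 → CellPos k P em (bm k) (bM k) → (1 - em) * pc k ≤ p →
      (∀ᶠ n in atTop, Real.log (X n) ≤ bM k) → (∀ᶠ n in atTop, -(bm k) ≤ Real.log (X n)) →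
      Tendsto X atTop (𝓝 1) := fun em hem hc hl h1 h2 =>
    hConv k P em (bm k) (bM k) p X hk (bm_pos k).le (bM_pos k).le hem hc hl hp hX (h2.and h1)
  by_cases hk18 : k ≤ 18
  · rw [if_pos hk18] at hP
    by_cases hpl : p ≤ 4 / 5 * pc k
    · exact hGas k p X hp0 hX (Or.inl ⟨hk, hk18, hpl⟩)
    · push Not at hpl
      rcases hBoxFin k p X hk (by omega) hp0 hp hX with h | ⟨h1, h2⟩
      · exact h
      · exact key _ (by norm_num) hP (by norm_num; linarith) h1 h2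
  · rw [if_neg hk18] at hP
    push Not at hk18
    by_cases hpl : p ≤ 17 / 20 * pc k
    · exact hGas k p X hp0 hX (Or.inr ⟨by omega, hpl⟩)
    · push Not at hpl
      by_cases hk120 : k ≤ 120
      · rcases hBoxFin k p X hk hk120 hp0 hp hX with h | ⟨h1, h2⟩
        · exact h
        · exact key _ (by norm_num) hP (by norm_num; linarith) h1 h2
      · push Not at hk120
        have := pc_pos k
        rcases hBoxInf k p X (by omega) (by linarith) hp hX with h | ⟨h1, h2⟩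
        · exact h
        · exact key _ (by norm_num) hP (by norm_num; linarith) h1 h2

lemma pc_two : pc 2 = (Real.sqrt 5 - 1) / 2 := by
  have h5 : Real.sqrt 5 ^ 2 = 5 := Real.sq_sqrt (by norm_num)
  rw [← pc_cos]
  have e : ((2 : ℕ) : ℝ) * Real.pi / (2 * ((2 : ℕ) : ℝ) + 1) = 2 * (Real.pi / 5) := by
    push_cast; ring
  rw [e, Real.cos_two_mul, Real.cos_pi_div_five]
  nlinarith

/-- The statement for normalised solutions, all delays. -/
def AllStmt : Prop :=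
  ∀ (k : ℕ) (p : ℝ) (X : ℕ → ℝ), 0 < p → p < 1 → p ≤ pc k → SolX k p X → Tendsto X atTop (𝓝 1)

end Pool.Agent.Helper30.DL
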