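import Pool.Agent.Helper30.PL.Taylor

/-!
MP_b4564f_an (Pielou's delay logistic equation), all delays. Part A: amplitude bounds.
`X` is the normalised positive solution, `X (n+k+1) * (1 - p + p * X n) = X (n+k)`, `p = (α-1)/α`;
`y = log X` solves `y (n+k+1) = y (n+k) - FF p (y n)`, `FF p t = log (1 - p + p e^t)`.
The critical value is `pc k = 2 sin (π/(2(2k+1)))`.
-/

set_option autoImplicit false

open Filter Topology Finset

namespace Pool.Agent.Helper30.DL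

/-- the critical value of `p` -/
noncomputable def pc (k : ℕ) : ℝ := 2 * Real.sin (Real.pi / (2 * (2 * k + 1)))

/-- positive solutions in multiplicative form -/
def SolX (k : ℕ) (p : ℝ) (X : ℕ → ℝ) : Prop :=
  (∀ n, 0 < X n) ∧ ∀ n, X (n + k + 1) * (1 - p + p * X n) = X (n + k)

/-- PACKET EXTU. One step upwards: a lower bound `m0` gives the upper bound `B`.

Proof. `g := 1 - p + p m0 ∈ (0,1]`. Let `X n ≥ m0` for `n ≥ N0`. CLAIM: for `n ≥ N0 + 3 k + 3`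
with `X n ≥ X (n-1)` we have `X n ≤ B`. From `X n (1 - p + p X (n-k-1)) = X (n-1)` we get
`A := X (n-k-1) ≤ 1`. Iterating the recurrence `k+1` times,
`X n * ∏_{i ≤ k} (1 - p + p X (n-k-1-i)) = A`. Since `X l = X (l+1) (1 - p + p X (l-k)) ≥ g X (l+1)`,
`X (n-k-1-i) ≥ A g^i`, also `≥ m0`. So `X n ≤ A / P A`,
`P A := ∏_{i ≤ k} (1 - p + p max m0 (A g^i)) > 0`. It remains: `A ≤ B * P A` for all
`A ∈ [m0, 1]`, `A > 0`; given for `A ∈ [g, 1]`. If `A ≤ g`: `A/g ≤ 1` and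
`P (A/g) / P A = (1 - p + p max m0 (A/g)) / (1 - p + p max m0 (A g^k)) ≤ 1/g` (numerator `≤ 1`,
denominator `≥ g`; the other factors coincide), so `A/g ≤ B P (A/g)` implies
`A ≤ B g P (A/g) ≤ B P A`. Iterate until `A/g^j ∈ [g, 1]` (if `g = 1`, i.e. `m0 = 1`, nothing to do:
`A ≥ m0 = 1`).
CONCLUSION. Either eventually `X (n+1) < X n`: then `X → L ≥ 0`, and `L (1 - p + p L) = L`, so
`L = 0` or `L = 1`; `L = 0` is impossible because `X n < 1` gives `X (n+k+1) > X (n+k)`. Or there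
is a large `n` with `X n ≥ X (n-1)`, so `X n ≤ B`, and by induction it stays so (`X (n+1) < X n ≤ B`
or `X (n+1) ≥ X n` and the claim). -/
def ExtUStmt : Prop :=
  ∀ (k : ℕ) (p : ℝ) (X : ℕ → ℝ), 0 < p → p < 1 → SolX k p X →
    ∀ m0 B : ℝ, 0 ≤ m0 → m0 ≤ 1 → 1 ≤ B →
      (∀ A, 1 - p + p * m0 ≤ A → A ≤ 1 → m0 ≤ A →
        A ≤ B * ∏ i ∈ range (k + 1), (1 - p + p * max m0 (A * (1 - p + p * m0) ^ i))) →
      (∀ᶠ n in atTop, m0 ≤ X n) → Tendsto X atTop (𝓝 1) ∨ ∀ᶠ n in atTop, X n ≤ B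

/-- PACKET EXTD. One step downwards: an upper bound `B0` gives the lower bound `m`.

Proof. As `ExtUStmt`: `G := 1 - p + p B0 ≥ 1`. If `n` is large and `X n ≤ X (n-1)` then
`A := X (n-k-1) ≥ 1`, `A ≤ B0`, `X (n-k-1-i) ≤ min B0 (A G^i)`, so `X n ≥ A / Q A`,
`Q A := ∏_{i ≤ k} (1 - p + p min B0 (A G^i))`. `m * Q A ≤ A` is given for `A ∈ [1, G]`, `A ≤ B0`;
for `A ∈ [G, B0]`: `Q A / Q (A/G) = (1 - p + p min B0 (A G^k)) / (1 - p + p min B0 (A/G)) ≤ G`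
(numerator `≤ G`, denominator `≥ 1`), so `m Q A ≤ G m Q (A/G) ≤ A`. Conclusion: either eventually
`X (n+1) > X n`, bounded by `B0`, so `X → L > 0`, `L (1 - p + p L) = L`, `L = 1`; or eventually
`X ≥ m` (once `X n ≥ m`: either `X (n+1) > X n ≥ m` or the claim applies; recall `m ≤ 1`). -/
def ExtDStmt : Prop :=
  ∀ (k : ℕ) (p : ℝ) (X : ℕ → ℝ), 0 < p → p < 1 → SolX k p X →
    ∀ B0 m : ℝ, 1 ≤ B0 → 0 < m → m ≤ 1 →
      (∀ A, 1 ≤ A → A ≤ 1 - p + p * B0 → A ≤ B0 →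
        m * ∏ i ∈ range (k + 1), (1 - p + p * min B0 (A * (1 - p + p * B0) ^ i)) ≤ A) →
      (∀ᶠ n in atTop, X n ≤ B0) → Tendsto X atTop (𝓝 1) ∨ ∀ᶠ n in atTop, m ≤ X n

/-- PACKET SUMC. The elementary sum.

Proof. `w_i = r (σ + i)`, `h_i = max (1 - w_i) 0`, `min w_i 1 = 1 - h_i`; with
`H w = (max (1-w) 0)²/2` one has `r (h_i + h_(i+1))/2 ≥ H w_i - H w_(i+1)` (three cases: both
`w ≤ 1`: equality; `w_i ≤ 1 ≤ w_(i+1)`: `r h_i / 2 ≥ h_i²/2` since `h_i ≤ r`; both `≥ 1`: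
`0 ≥ 0`). Summing, `r ∑_{i ≤ k} h_i ≥ H w_0 - H w_k + r (h_0 + h_k)/2`. Let `a := r (k+1/2)`.
Case `w_k ≥ 1` (`h_k = 0 = H w_k`): if `w_0 ≤ 1` then
`r ∑ min - r σ ≤ r (k+1) - (1 - rσ)²/2 - r (1 - rσ)/2 - rσ = a - 1/2 + r² σ (1-σ)/2
≤ a - 1/2 + r²/8`; if `w_0 = r σ > 1`: `∑ min = k + 1`, and `r (k+1) - rσ ≤ a - 1/2 + r²/8` since
`r/2 - r σ + 1/2 - r²/8 ≤ r/2 - 1 + 1/2 - r²/8 = -(r-2)²/8 ≤ 0`. Case `w_k < 1` (so `r k < 1`,
`a < 1 + r/2`), `x := 1 - w_k`: the extra term is `x²/2 - r x/2` with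
`0 ≤ x ≤ 1 - r k = 1 - a + r/2`. If `x ≤ r` it is `≤ 0` (first entry). If `x > r` then
`x (x - r) ≤ (1 - a + r/2) (1 - a - r/2) = (1-a)² - r²/4`, so the total is
`≤ a - 1/2 + r²/8 + (1-a)²/2 - r²/8 = a²/2` (second entry). -/
def SumCStmt : Prop :=
  ∀ (k : ℕ) (r σ : ℝ), 0 < r → 0 ≤ σ → σ ≤ 1 →
    r * ∑ i ∈ range (k + 1), min (r * (σ + i)) 1 - r * σ
      ≤ max (r * (k + 1 / 2) - 1 / 2 + r ^ 2 / 8) (min (r * (k + 1 / 2)) (1 + r / 2) ^ 2 / 2)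

/-- PACKET GAS (given EXTU, EXTD, SUMC). Global convergence for smaller `p`, in two families.

Proof. Write `y = log X`, `ψ v = -FF p (-v) = -log (1 - p + p e^{-v})` (nondecreasing, `ψ v ≤ p v`),
`f v = FF p v` (convex, `f v ≤ p (e^v - 1)`), and
`C r = max (r (k+1/2) - 1/2 + r²/8) (min (r (k+1/2)) (1 + r/2)²/2)`, nondecreasing in `r > 0`.
(1) If eventually `y ≥ -m`, `m > 0`, put `F = ψ m` (so `g = e^{-F}` in EXTU); for `A = e^{-s}`,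
`s ∈ [0, F]`, `-s + ∑_{i ≤ k} ψ (min m (s + i F)) ≤ F (∑ min (p (σ + i)) 1 - σ) ≤ F C(p)/p` with
`s = F σ` (as `ψ ≤ F` on `[0,m]` and `ψ v ≤ p v`). So EXTU gives: `y → 0` or eventually
`y ≤ C(p) F/p`, `F/p = -log (1 - p u)/p`, `u = 1 - e^{-m}`; also `F/p ≤ m`. The same without a lower
bound (`m0 = 0`, `u = 1`, `F = -log (1-p)`).
(2) If eventually `y ≤ M`, `M > 0`, `F = f M`, `ρ = F/M`: by convexity `f v ≤ ρ v` on `[0, M]`, so
`-s + ∑ f (min M (s + i F)) ≤ F (∑ min (ρ (σ + i)) 1 - σ) ≤ M C(ρ)`, and EXTD gives: `y → 0` or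
eventually `y ≥ -M C(ρ)`, where `ρ ≤ p (e^M - 1)/M`.
(3) Family 1: `3 ≤ k ≤ 18`, `p ≤ (4/5) pc k`. `pc k (k+1/2) ≤ π/2` (`sin x ≤ x`), so
`p (k+1/2) ≤ 1.2567`; `p ≤ 0.3562` (`pc 3 = 2 sin (π/14) < 0.44505`); `C(p) ≤ 0.7726`. Chain:
`M ≤ 0.9552`; `m ≤ M C(ρ) ≤ 1.5746` (`(e^M-1)/M ≤ 1.6742`); `F/p ≤ 0.9319`, `M ≤ 0.7200`;
`m ≤ 0.9895` (`1.4645`); `F/p ≤ 0.7113`, `M ≤ 0.5496`; and for all `M ≤ 0.5496`
(`(e^M-1)/M ≤ 1.3329`): `C(ρ) ≤ 1.2031`, so `m ≤ 1.2031 M` and then `M' ≤ C(p) m ≤ 0.93 M`.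
Iterating, `limsup y ≤ 0`, hence also `liminf y ≥ 0`.
(4) Family 2: `k ≥ 19`, `p ≤ (17/20) pc k`: `p (k+1/2) ≤ 1.3352`, `p ≤ 0.0686`, `C(p) ≤ 0.8358`;
`M ≤ 0.8660`, `m ≤ 1.4075` (`(e^M-1)/M ≤ 1.5906`), `F/p ≤ 0.7757`, `M ≤ 0.6484`, `m ≤ 0.8950`
(`1.4073`), `F/p ≤ 0.6038`, `M ≤ 0.5047`, `m ≤ 0.6248` (`1.3008`), `F/p ≤ 0.4722`, `M ≤ 0.3947`, and
for all `M ≤ 0.3947` (`(e^M-1)/M ≤ 1.2261`): `C(ρ) ≤ 1.1380`, `m ≤ 1.1380 M`,
`M' ≤ 0.8358 * 1.1380 M ≤ 0.952 M`. (`pc 19 = 2 sin (π/78)`.) -/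
def GasStmt : Prop :=
  ∀ (k : ℕ) (p : ℝ) (X : ℕ → ℝ), 0 < p → SolX k p X →
    (3 ≤ k ∧ k ≤ 18 ∧ p ≤ 4 / 5 * pc k ∨ 19 ≤ k ∧ p ≤ 17 / 20 * pc k) → Tendsto X atTop (𝓝 1)

/-- PACKET KONE (given EXTU, EXTD). `k ≤ 1`, all `p < 1`.

Proof. `k = 0` or `k = 1`. With `m0` a lower bound (`0 ≤ m0 ≤ 1`), `g = 1 - p + p m0`: for
`A ∈ [g,1]`, `A ≤ (1 - p + p A)` and the second factor (if `k = 1`) is `≥ g`, so
`A ≤ g⁻¹ ∏`; thus EXTU holds with `B = 1/g`. With an upper bound `B0`, `G = 1 - p + p B0`: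
for `A ∈ [1, min G B0]`, `∏ ≤ (1 - p + p A) G ≤ A G`, so EXTD holds with `m = 1/G`.
Start with `m0 = 0`: `B = 1/(1-p)`, then `m = 1/G > 0`. If `X` does not converge to `1`, let
`I = liminf X`, `M = limsup X` (`0 < I ≤ 1 ≤ M`; if e.g. `I > 1` use `m0 = 1` to get eventually
`X ≤ 1`). By continuity `M ≤ 1/(1 - p + p I)` and `I ≥ 1/(1 - p + p M)`, so
`M (1 - p + p I) ≤ 1 ≤ I (1 - p + p M)`, `(1 - p)(M - I) ≤ 0`, so `M = I`, and the limit is `1`. -/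
def KoneStmt : Prop :=
  ∀ (k : ℕ) (p : ℝ) (X : ℕ → ℝ), k ≤ 1 → 0 < p → p < 1 → SolX k p X → Tendsto X atTop (𝓝 1)

/-- the boxes: eventually `-(bm k) ≤ log X ≤ bM k` -/
noncomputable def bm (k : ℕ) : ℝ :=
  if k ≤ 3 then 1 else if k = 4 then 97 / 100 else if k = 5 then 93 / 100
  else if k = 6 then 92 / 100 else if k = 7 then 90 / 100 else if k = 8 then 89 / 100
  else if k ≤ 10 then 87 / 100 else if k ≤ 13 then 85 / 100 else if k ≤ 18 then 83 / 100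
  else if k ≤ 30 then 81 / 100 else 785 / 1000

/-- upper ends of the boxes -/
noncomputable def bM (k : ℕ) : ℝ :=
  if k ≤ 3 then 75 / 100 else if k = 4 then 70 / 100 else if k = 5 then 66 / 100
  else if k = 6 then 65 / 100 else if k = 7 then 63 / 100 else if k = 8 then 62 / 100
  else if k ≤ 10 then 60 / 100 else if k ≤ 13 then 58 / 100 else if k ≤ 18 then 565 / 1000
  else if k ≤ 30 then 55 / 100 else 530 / 1000

/-- PACKET BOXFIN (given EXTU, EXTD). The box for `3 ≤ k ≤ 120`, by a kernel computation.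

Proof. All quantities in EXTU/EXTD are monotone in `p` (the factors `1 - p (1 - x)`, `x ≤ 1`,
and `g` decrease, the bound `B` increases; same for EXTD), so one rational upper bound
`P ≥ pc k` (with error `≤ 1e-6`) serves all `p ≤ pc k`. Cell trick: split `[g, 1]` into `N = 20..40`
equal cells `[A1, A2]`; `A2 ≤ B ∏ (1 - P + P max m0 (A1 g^i))` implies the hypothesis of EXTU on
the cell (the product is nondecreasing in `A`). Similarly for EXTD. Write two functions over `Nat`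
(fixed point, scale `10^9` say, rounding in the safe direction; use `Nat.mul`, `Nat.div`, and
straight-line or fold code) `upB k P m0 N`, `dnB k P B0 N`, iterate from `m0 = 0` at most 15
times, and compare with rational bounds `≤ exp (bM k)`, `≥ exp (-(bm k))`. Numerical experiment
(C++, N = 40): steps needed 11, 8, 7, 7, 7, 7, 7, 7, 8, 7, 8, 7, 9, 8 for
k = 3, 4, 5, 6, 7, 8, 9, 10, 11, 13, 14, 18, 19, 30 and 11 (k=31), 9 (k = 60), 9 (k=61), 8 (k=120);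
with N = 20: 10 steps suffice for k ≥ 6 except 14 for k = 31. The kernel evaluates about 10^5
`Nat` operations per second; split into a few modules of at most 3 minutes
(`decide +kernel`). `P`: `sin x ≤ x - x^3/6 + x^5/120`, `π < 3.1415927`. -/
def BoxFinStmt : Prop :=
  ∀ (k : ℕ) (p : ℝ) (X : ℕ → ℝ), 3 ≤ k → k ≤ 120 → 0 < p → p ≤ pc k → SolX k p X →
    Tendsto X atTop (𝓝 1) ∨
      ((∀ᶠ n in atTop, Real.log (X n) ≤ bM k) ∧ ∀ᶠ n in atTop, -(bm k) ≤ Real.log (X n))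

/-- PACKET UINF (given EXTU). Upper bound for large delays from a lower bound.

Proof. `m > 0`, `u = 1 - e^{-m}`, `F = -log (1 - p u)`, `q = F/u`; as `x ↦ -log (1 - p x)` is
convex and vanishes at `0`, `-log (1 - p + p e^{-v}) = -log (1 - p (1 - e^{-v})) ≤ q (1 - e^{-v})`
for `0 ≤ v ≤ m`. In EXTU put `m0 = e^{-m}`, `A = e^{-s}`, `0 ≤ s ≤ F`, `g = e^{-F}`; the condition
is `-s + ∑_{i ≤ k} ψ (min m (s + i F)) ≤ log B`, `ψ v = -log (1 - p + p e^{-v})`.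
CASE `k F ≥ m`. `h v = q (e^{-min m v} - e^{-m})` is convex, nonincreasing, `ψ (min m v) ≤ F - h v`.
Trapezoid rule for a convex function: `∑_{i ≤ k} h (s + i F) ≥ (1/F) ∫_s^m h + h s/2` (the
intervals `[s + iF, s + (i+1)F]`, `i < k`, cover `[s, m]`; each trapezoid is `≥` the integral; a
direct proof without integrals: with `Hh v = q (e^{-min m v} - e^{-m} (1 + m - min m v))`
(antiderivative, `Hh v = ∫_v^m h`), show `F (h v + h (v+F))/2 ≥ Hh v - Hh (v+F)`). So the left side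
is `≤ G s := -s + (k+1) F - Hh s / F - h s / 2`, and `G' s = -1 + h s/F + q e^{-s}/2 ≤ q/2`
(`h s ≤ h 0 = F`), so `G s ≤ G 0 + q F/2`, `G 0 = (k + 1/2) F - 1 - m + m/u`.
CASE `k F < m`. `∑_{i ≤ k} q (1 - e^{-(s+iF)})`, concave: trapezoid `≤` integral, so it is
`≤ (1/u) (k F - e^{-s} (1 - e^{-kF})) + (q/2) (2 - e^{-s} - e^{-s-kF})`, and, using
`1 - e^{-s} ≤ s`, `1 - e^{-kF} ≤ u`, the left side is
`≤ (1/u)(k F - 1 + e^{-kF}) + q/2 + q F ≤ (1/u)(k F - 1 + e^{-kF}) + q` (as `F ≤ 1/2`).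
Moreover `x ↦ x - 1 + e^{-x}` is nondecreasing on `x ≥ 0`. -/
def UInfStmt : Prop :=
  ∀ (k : ℕ) (p : ℝ) (X : ℕ → ℝ), 0 < p → p < 1 / 10 → SolX k p X →
    ∀ m U : ℝ, 0 < m →
      (k * (-Real.log (1 - p * (1 - Real.exp (-m)))) ≥ m →
        (k + 1 / 2) * (-Real.log (1 - p * (1 - Real.exp (-m)))) - 1 - m
          + m / (1 - Real.exp (-m)) + p ^ 2 ≤ U) →
      (k * (-Real.log (1 - p * (1 - Real.exp (-m)))) < m →
        (k * (-Real.log (1 - p * (1 - Real.exp (-m)))) - 1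
          + Real.exp (-(k * (-Real.log (1 - p * (1 - Real.exp (-m))))))) / (1 - Real.exp (-m))
          + 11 / 10 * p ≤ U) →
      (∀ᶠ n in atTop, -m ≤ Real.log (X n)) → 0 ≤ U →
      Tendsto X atTop (𝓝 1) ∨ ∀ᶠ n in atTop, Real.log (X n) ≤ U

/-- PACKET UINF, second statement: start without a lower bound (`m0 = 0`, `F = -log (1-p)`, `q = F`).
The same computation as in the case `k F < m` with `u = 1`: for `0 ≤ s ≤ F`,
`-s + ∑_{i ≤ k} F (1 - e^{-(s+iF)}) ≤ k F - 1 + e^{-kF} + F/2 + F²`, `F ≤ 1.06 p`. -/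
def UStartStmt : Prop :=
  ∀ (k : ℕ) (p : ℝ) (X : ℕ → ℝ), 0 < p → p < 1 / 10 → SolX k p X →
    ∀ U : ℝ, 0 ≤ U → k * (-Real.log (1 - p)) - 1 + Real.exp (-(k * (-Real.log (1 - p))))
      + 11 / 10 * p ≤ U →
      Tendsto X atTop (𝓝 1) ∨ ∀ᶠ n in atTop, Real.log (X n) ≤ U

/-- PACKET DINF (given EXTD). Lower bound for large delays from an upper bound.

Proof. `E = e^M - 1`, `F := p E ≥ f M`, `f v = log (1 + p (e^v - 1)) ≤ p (e^v - 1)`. In EXTD put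
`B0 = e^M`, `A = e^s`, `0 ≤ s ≤ f M ≤ F`, `s ≤ M`, `G = e^{f M} ≤ e^F`; need
`-s + ∑_{i ≤ k} f (min M (s + i f M)) ≤ -log m`; the left side is
`≤ -s + ∑_{i ≤ k} p (e^{min M (s + iF)} - 1)`. `h v = p (e^M - e^{min M v}) ≥ 0`, nonincreasing.
On each interval `[v, v+F]` inside `[0, M]`: `F (h v + h (v+F))/2 ≥ ∫_v^{v+F} h - F³ p e^M/12`
(trapezoid error, `|h''| ≤ p e^M`; a cruder constant such as `F³ p e^M/2` is also fine). Let `n`
be maximal with `v_n = s + n F ≤ M` (`n ≤ k` because `s + k F ≥ k p E ≥ M`, from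
`k p ≥ 1`); `∑_{i ≤ k} h (v_i) = ∑_{i ≤ n} h (v_i) ≥ (1/F) ∫_s^{v_n} h - n F² p e^M/12
+ (h s + h (v_n))/2`, `(1/F)∫_{v_n}^M h ≤ h (v_n) ≤ p e^M F`, `n F ≤ M`. So the left side is
`≤ -s + (k+1) F - (1/F) ∫_s^M h - h s/2 + p e^M F (1/2 + M/12)`; its derivative in `s` is
`≤ -1 + h s/F + p e^s/2 ≤ p e^s/2`, and at `s = 0` it is
`(k + 1/2) F + 1 - M - M/E + p e^M F (1/2 + M/12)` (`∫_0^M (e^M - e^v) = M e^M - E`). Total extra
`≤ p e^M F (1/2 + M/12 + 1/2) ≤ 2 p² E e^M` (`M ≤ 2`). -/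
def DInfStmt : Prop :=
  ∀ (k : ℕ) (p : ℝ) (X : ℕ → ℝ), 0 < p → p < 1 / 10 → 1 ≤ k * p → SolX k p X →
    ∀ M D : ℝ, 0 < M → M ≤ 2 →
      (k + 1 / 2) * (p * (Real.exp M - 1)) + 1 - M - M / (Real.exp M - 1)
        + 2 * p ^ 2 * (Real.exp M - 1) * Real.exp M ≤ D → 0 ≤ D →
      (∀ᶠ n in atTop, Real.log (X n) ≤ M) →
      Tendsto X atTop (𝓝 1) ∨ ∀ᶠ n in atTop, -D ≤ Real.log (X n)

/-- PACKET BOXINF (given UINF, USTART, DINF). The box for `k ≥ 121`.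

Proof. `pc k ≤ π/(2k+1) ≤ 0.01293`, `p (k + 1/2) ≤ π/2 ≤ 1.5708`, `k p ≥ 1`. For `u ∈ (0,1]`:
`(k+1/2) (-log (1 - p u)) ≤ 1.5708 L(u)`, `L u = -log (1 - P u)/P`, `P = 0.01293` (`-log(1-x)/x`
is increasing), `L u ≤ u (1 + 0.0065 u + 0.0001)`. The chain of bounds, `m` (lower bound `-m`)
to `U` (upper bound) to the next `m`; `u = 1 - e^{-m}`, `E = e^U - 1`:
`up m = max c1 c2` where `c1 = 1.5708 L(u) - 1 - m + m/u + P²` (only relevant if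
`1.5708 L(u) ≥ m`), `c2 = (x - 1 + e^{-x})/u + 1.1 P`, `x = min m (1.5708 L(u))`
(`x - 1 + e^{-x}` is increasing); `dn U = 1.5708 E + 1 - U - U/E + 2 P² E (E+1)`.
Start (USTART) `U = 0.8015`. Then (m, U):
m = 1.4780, U = 0.6810; m = 1.1550, U = 0.6280; m = 1.0270, U = 0.6000; m = 0.9625, U = 0.5720;
m = 0.9000, U = 0.5530; m = 0.8590, U = 0.5405; m = 0.8325, U = 0.5325; m = 0.8155, U = 0.5265;
m = 0.8030, U = 0.5225; m = 0.7950, U = 0.5200; m = 0.7895, U = 0.5180; m = 0.7855, U = 0.5165;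
m = 0.7825. (Each number is rounded up by at least 2e-4, so crude enclosures of the exponentials
with error 1e-5 suffice.) Each step is a numerical inequality between exponentials of rational
numbers (`Real.exp_bound'`, `Real.sum_le_exp_of_nonneg`, ...). -/
def BoxInfStmt : Prop :=
  ∀ (k : ℕ) (p : ℝ) (X : ℕ → ℝ), 121 ≤ k → 4 / 5 * pc k ≤ p → p ≤ pc k → SolX k p X →
    Tendsto X atTop (𝓝 1) ∨
      ((∀ᶠ n in atTop, Real.log (X n) ≤ bM k) ∧ ∀ᶠ n in atTop, -(bm k) ≤ Real.log (X n))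

end Pool.Agent.Helper30.DL
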