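import Pool.Agent.Helper30.DL.Const

/-!
MP_b4564f_an, all delays. Part B, algebra: the decrement of the functional `Vf` is at least
`θ * Phi (mkCf P τ)`.

Window: `w : ℕ → ℝ`, only `w 0, ..., w k` matter, `w 0` the newest value, `w k` the oldest.
The next window is `nx k p G w`, `w' 0 = w 0 - p w k - G`, `w' (j+1) = w j`.
-/

set_option autoImplicit false

open Complex (I)
open Finset

namespace Pool.Agent.Helper30.DL

/-- `τ_k = π/(2(2k+1))` -/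
noncomputable def tau (k : ℕ) : ℝ := Real.pi / (2 * (2 * k + 1))

/-- next window -/
def nx (k : ℕ) (p G : ℝ) (w : ℕ → ℝ) : ℕ → ℝ
  | 0 => w 0 - p * w k - G
  | j + 1 => w j

/-- the resonant coordinate -/
noncomputable def Zf (k : ℕ) (t : ℝ) (w : ℕ → ℝ) : ℂ :=
  lam t ^ k * (w k : ℂ) + ∑ j ∈ range k, lam t ^ j * ((w j - w (j + 1) : ℝ) : ℂ)

/-- as `Zf`, with `μ = λ^{-2}` -/
noncomputable def Wf (k : ℕ) (t : ℝ) (w : ℕ → ℝ) : ℂ :=
  mu t ^ k * (w k : ℂ) + ∑ j ∈ range k, mu t ^ j * ((w j - w (j + 1) : ℝ) : ℂ)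

/-- `X = κ Z` -/
noncomputable def Xf (k : ℕ) (t : ℝ) (w : ℕ → ℝ) : ℂ := kap t * Zf k t w

/-- `ζ_j = w_j - Re (X λ^{k-j})`, `j ≤ k` -/
noncomputable def zt (k : ℕ) (t : ℝ) (w : ℕ → ℝ) (j : ℕ) : ℝ :=
  w j - (Xf k t w * lam t ^ (k - j)).re

/-- `d_j = ζ_j - ζ_{j+1}`, `j < k` -/
noncomputable def dt (k : ℕ) (t : ℝ) (w : ℕ → ℝ) (j : ℕ) : ℝ := zt k t w j - zt k t w (j + 1)

/-- `θ ∑_{j<k} u_j v_j` -/
noncomputable def SS (k : ℕ) (t : ℝ) (u v : ℕ → ℝ) : ℝ := th t * ∑ j ∈ range k, u j * v j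

/-- value at `j` of a term of a basis function -/
noncomputable def Bf (k : ℕ) (t : ℝ) (x : Tm) (j : ℕ) : ℝ :=
  (th t * ((k : ℝ) - 1 - j)) ^ x.f * (x.c * ex t (2 * (x.m * (j : ℤ)))).re

/-- value at `j` of a basis function -/
noncomputable def Bl (k : ℕ) (t : ℝ) (B : List Tm) (j : ℕ) : ℝ := (B.map fun x => Bf k t x j).sum

/-- the polynomial part of the functional -/
noncomputable def Pf (P : Pm) (t : ℝ) (Z : ℂ) : ℝ :=
  (c30 P t * Z ^ 3 + c21 P t * Z ^ 2 * cj Z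
    + P.c40 * Z ^ 4 + P.c31 * Z ^ 3 * cj Z + (P.c22 : ℂ) * Z ^ 2 * cj Z ^ 2
    + P.c50 * Z ^ 5 + P.c41 * Z ^ 4 * cj Z + P.c32 * Z ^ 3 * cj Z ^ 2).re

/-- the quadratic form of the functional -/
noncomputable def Qf (P : Pm) (k : ℕ) (t : ℝ) (w : ℕ → ℝ) : ℝ :=
  th t * P.c1h * ∑ i ∈ range k, zt k t w (i + 1) ^ 2
    + P.r1 * ∑ i ∈ range k, ((k : ℝ) - i) * dt k t w i ^ 2

/-- `Γ = e p κ λ / (1 - λ²) = e (p/θ) κ λ D_2` -/
noncomputable def Gam (t e : ℝ) : ℂ := ((e * ph t : ℝ) : ℂ) * (kap t * lam t * Dm t 2)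

/-- the functional -/
noncomputable def Vf (P : Pm) (k : ℕ) (t e : ℝ) (w : ℕ → ℝ) : ℝ :=
  Complex.normSq (Zf k t w) + Pf P t (Zf k t w)
    + (al P t * Zf k t w ^ 2 * Wf k t w).re + be P t * (Complex.normSq (Zf k t w) * w 0)
    + (Gam t e * Zf k t w ^ 2).re + Qf P k t w

/-! ### Constants -/

/-- PACKET CST. The constants at `t = tau k`, `k ≥ 3`. `λ = lam t = e^{2it}`, `(2k+1) t = π/2`.

Proof. `ex t m = e^{imt}`; `λ^k = e^{i(π/2 - t)} = i e^{-it}`; `λ^{k+1} - λ^k = i (e^{it} - e^{-it}) =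
-2 sin t = -p`. `del t = (2k+1) sin t` because `π/2 = (2k+1) t`. `κ (λ^k - p k λ̄) = 2`:
`λ (λ^k - p k λ̄) = i e^{it} - 2 k sin t = i cos t - (2k+1) sin t = i (cos t + i δ)` and
`κ = -2 i λ/(cos t + i δ)`; note `ik = λ̄ (i/2)(cos t + i δ)`. `p ∑_{j<k} λ^{2j+1} = λ^k`: geometric
sum `∑_{j<k} λ^{2j+1} = λ (1 - λ^{2k})/(1 - λ²)`, `λ^{2k} = -λ̄`, `1 - λ² = -2 i λ sin (2t)`...,
`(λ + 1)/(1 - λ²) = 1/(1 - λ)`, `1 - λ = -2 i sin t e^{it}`. `1 - λ^m = -2 i sin (m t) e^{imt}`, nonzero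
since `0 < m t < π` for `1 ≤ m ≤ 5`. `χ = θ chh = p (1 + 2 i cos t) = p + μ^{k+1} - μ^k`,
`μ^k = λ^{-2k} = -λ`, `μ^{k+1} = -λ̄`, `λ - λ̄ = 4 i sin t cos t`.
The sums: with `z = λ^m ≠ 1`, `∑_{j<k} z^j (1 - z) = 1 - z^k`,
`∑_{j<k} (k-1-j) z^j (1 - z) = k - ∑_{j<k} z^j`,
`∑_{j<k} (k-1-j)² z^j (1 - z) = k² - 2 ∑ (k-1-j) z^j - ∑ z^j` (induction on `k`, or telescoping),
multiplied by powers of `θ`, `θ k = kt`; `λ^{mk} = (i e^{-it})^m`; for negative `m` take conjugates;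
for `m = 0` Gauss sums. -/
def CstStmt : Prop :=
  ∀ k : ℕ, 3 ≤ k → ∀ t : ℝ, t = tau k →
    0 < t ∧ t ≤ Real.pi / 14 ∧ th t * k = kt t ∧ del t = (2 * k + 1) * Real.sin t
    ∧ pp t = th t * ph t ∧ js t 1 * ph t = 1
    ∧ lam t ^ k = lk t ∧ lam t ^ (k + 1) = lk t - pp t ∧ lam t - 1 = -(pp t * cj (lk t))
    ∧ lam t * cj (lam t) = 1 ∧ ex t (-2) = cj (lam t) ∧ mu t = cj (lam t) ^ 2
    ∧ ex t (-8) = cj (lam t) ^ 4 ∧ lk t * cj (lk t) = 1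
    ∧ kap t * ik t = 1 ∧ om t = lam t * ik t ∧ om t * kap t = lam t
    ∧ kap t * (lk t - (pp t * k : ℝ) * cj (lam t)) = 2
    ∧ (pp t : ℂ) * ∑ j ∈ range k, lam t ^ (2 * j + 1) = lk t
    ∧ mu t ^ k = muk t ∧ (th t : ℂ) * chh t = pp t + mu t ^ (k + 1) - mu t ^ k
    ∧ Complex.normSq (kap t) = kn t ∧ Complex.normSq (om t) = on t
    ∧ (∀ m : ℕ, 1 ≤ m → m ≤ 5 → Dm t m * (1 - lam t ^ m) = th t
        ∧ (th t : ℂ) * dl t m = 1 - lam t ^ m ∧ 1 - lam t ^ m ≠ 0)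
    ∧ (∀ n : ℤ, ex t (2 * n) = lam t ^ n)
    ∧ (∀ f : ℕ, f ≤ 2 → ∀ m : ℤ, -4 ≤ m → m ≤ 4 →
        Gg t f m = (th t : ℂ) * ∑ j ∈ range k, ((th t * ((k : ℝ) - 1 - j) : ℝ) : ℂ) ^ f
          * ex t (2 * (m * (j : ℤ))))

/-- PACKET IPL (given CST). `ip` is the scaled sum over `j`.

Proof. Bilinear; for two terms: `Re (a) Re (b) = (Re (a b) + Re (a b̄))/2`, `ex` is multiplicative,
`conj (ex t n) = ex t (-n)`, exponents add, last clause of `CstStmt` with `f = x.f + y.f ≤ 2`,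
`m = x.m ± y.m`. -/
def IplStmt : Prop :=
  ∀ k : ℕ, 3 ≤ k → ∀ t : ℝ, t = tau k → ∀ B B' : List Tm,
    (∀ x ∈ B, x.f ≤ 1 ∧ -2 ≤ x.m ∧ x.m ≤ 2) → (∀ x ∈ B', x.f ≤ 1 ∧ -2 ≤ x.m ∧ x.m ≤ 2) →
    ip t B B' = SS k t (Bl k t B) (Bl k t B')

/-- PACKET WND (given CST). The window.

Proof. (1) `Z' = λ Z - G`: shift the sum, use `λ^{k+1} = λ^k - p`. (2) `W' = μ W - χ w_k - G` the
same with `μ^{k+1} = μ^k + χ - p`, `χ = θ chh`. (3) `ζ'_{i+1} = ζ_i + G Re (κ λ^{k-1-i})`, `i < k`,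
because `X' = λ X - G κ`. (4) `d'_0 = -p ζ_k - G k0`, using `λ - 1 = -p conj (λ^k)`,
`conj (λ^k) λ^{k-1} = λ̄`. (5) `d'_{i+1} = d_i - p G Re (κ λ̄^{i+2})`, `i + 1 < k`.
(6) constraint `λ^k ζ_k + ∑ λ^j d_j = 0`: the map `w ↦ Z` is linear, and for the window
`Re (X λ^{k-j})` it gives `λ^k Re X + ∑_j λ^j (-p Re (X λ̄^{j+1})) = X/2 (λ^k - p k λ̄)
+ X̄/2 (λ^k - p ∑ λ^{2j+1}) = X/κ = Z`. (7) `W = w1 X + w2 X̄ + μ^k ζ_k + ∑ μ^j d_j`: again by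
linearity it suffices that for the window `Re (X λ^{k-j})`, `W = w1 X + w2 X̄`, i.e.
`μ^k/2 - (p/2) ∑_j μ^j λ̄^{j+1} = w1`, `μ^k/2 - (p/2) ∑_j μ^j λ^{j+1} = w2`; geometric sums with
ratios `λ̄³`, `λ̄`, `p = λ^k - λ^{k+1}`, `μ^k = -λ`, `λ^{2k+1} = -1`. (8) and (9) telescoping. -/
def WndStmt : Prop :=
  ∀ k : ℕ, 3 ≤ k → ∀ t : ℝ, t = tau k → ∀ (G : ℝ) (w : ℕ → ℝ),
    Zf k t (nx k (pp t) G w) = lam t * Zf k t w - G
    ∧ Wf k t (nx k (pp t) G w) = mu t * Wf k t w - (th t : ℂ) * chh t * (w k : ℂ) - G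
    ∧ (∀ i < k, zt k t (nx k (pp t) G w) (i + 1)
        = zt k t w i + G * (kap t * lam t ^ (k - 1 - i)).re)
    ∧ dt k t (nx k (pp t) G w) 0 = -(pp t * zt k t w k) - G * k0 t
    ∧ (∀ i, i + 1 < k → dt k t (nx k (pp t) G w) (i + 1)
        = dt k t w i - pp t * G * (kap t * cj (lam t) ^ (i + 2)).re)
    ∧ lam t ^ k * (zt k t w k : ℂ) + ∑ j ∈ range k, lam t ^ j * (dt k t w j : ℂ) = 0
    ∧ Wf k t w = w1 t * Xf k t w + w2 t * cj (Xf k t w) + muk t * (zt k t w k : ℂ)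
        + ∑ j ∈ range k, mu t ^ j * (dt k t w j : ℂ)
    ∧ w 0 = (lk t * Xf k t w).re + zt k t w 0
    ∧ zt k t w 0 = zt k t w k + ∑ j ∈ range k, dt k t w j
    ∧ w k = (Xf k t w).re + zt k t w k
    ∧ Zf k t w = ik t * Xf k t w

/-- the raw basis function of `g` (without multiplier) -/
noncomputable def B1r (P : Pm) (t : ℝ) : List Tm :=
  [⟨((-(2 * (P.c1h * (js t 1 * (kl t).re))) : ℝ) : ℂ), 0, 0⟩,
   ⟨((2 * (P.c1h * js t 1) : ℝ) : ℂ) * (kap t * mu t), -1, 0⟩,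
   ⟨((2 * (P.r1 * ph t) : ℝ) : ℂ) * (kap t * mu t), -1, 1⟩]
/-- raw -/
noncomputable def B2r (P : Pm) (t : ℝ) : List Tm := [⟨(be P t : ℂ), 0, 0⟩, ⟨am P t, -2, 0⟩]
/-- raw -/
noncomputable def B3r (P : Pm) (t : ℝ) : List Tm := [⟨I * am P t, -2, 0⟩]

/-- `d_j / θ` -/
noncomputable def Dh (k : ℕ) (t : ℝ) (w : ℕ → ℝ) (j : ℕ) : ℝ := dt k t w j / th t

/-- PACKET QTOT (given CST, WND). Decrement of the quadratic form; `G = θ g`.

Proof. With `e_i = Re (κ λ^{k-1-i})`, `r_j = Re (κ λ̄^{j+2})`,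
`Qf w - Qf w' = θ c1h (ζ_k² - ζ_0² - 2 G ∑_{i<k} ζ_i e_i - G² ∑ e_i²) + r1 (∑_{i<k} d_i²
+ 2 p G ∑_{j<k} (k-1-j) d_j r_j - p² G² ∑ (k-1-j) r_j² - k (p ζ_k + G k0)²)`
(shift of the sums, WND (3)-(5); the term `j = k-1` has coefficient `0`). Next
`ζ_i = ζ_k + ∑_{i ≤ j < k} d_j`, `∑_{i ≤ j} e_i = Re (κ λ̄ - κ μ λ^{-j})/p` (geometric sum:
`λ^{k-1} (1 - λ^{-(j+1)})/(1 - λ^{-1})` with `1 - λ^{-1} = -p λ^{-k-1}`, `λ^{2k} = -λ̄`), so
`∑ ζ_i e_i = ζ_k Re (κ ∑_{i<k} λ^i) + ∑_j d_j Re (κ λ̄ - κ μ λ^{-j})/p`; `θ ∑ λ^i = Sg t 1`,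
`θ/p = js t 1`; `θ ∑ e_i² = (kt kn + Re (κ² Sg 2))/2`;
`θ² ∑ (k-1-j) r_j² = (kn L0 + Re (κ² λ^{-4} conj (Lg 2)))/2` (`Re (a)² = (|a|² + Re (a²))/2`, last
clause of CST). Collect, divide by `θ`. -/
def QtotStmt : Prop :=
  ∀ k : ℕ, 3 ≤ k → ∀ t : ℝ, t = tau k → ∀ (P : Pm) (g : ℝ) (w : ℕ → ℝ),
    Qf P k t w - Qf P k t (nx k (pp t) (th t * g) w)
      = th t * (P.c1h * zt k t w k ^ 2 - P.c1h * zt k t w 0 ^ 2
        - 2 * P.c1h * g * zt k t w k * (kap t * Sg t 1).re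
        - P.c1h * g ^ 2 * (th t * ((kt t * kn t + (kap t ^ 2 * Sg t 2).re) / 2))
        + P.r1 * SS k t (Dh k t w) (Dh k t w) + g * SS k t (Bl k t (B1r P t)) (Dh k t w)
        - P.r1 * g ^ 2 * (ph t ^ 2 * (th t * ((kn t * L0 t
            + (kap t ^ 2 * ex t (-8) * cj (Lg t 2)).re) / 2)))
        - P.r1 * kt t * (ph t * zt k t w k + g * k0 t) ^ 2)

/-- PACKET ABTOT (given CST, WND). Decrement of `Re (α Z² W) + β |Z|² w_0`; `U = ω X = λ Z`,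
`T = 2 U - θ g`, `G = θ g`.

Proof. `Z' = U - G`, `Z² = μ U²`, `|Z|² = |U|²`. `α (Z² W - Z'² W') = α (μ W G T + U² χ a - G T χ a +
G (U - G)²)`, `χ = θ chh`, using `(U-G)² = U² - G T`, `W' = μ W - χ a - G`.
`|Z|² w_0 - |Z'|² w'_0 = w_0 G T_1 + (|U|² - G T_1) p a + G |U - G|²`, `p = θ ph`. Insert WND (7)
(8) (9) for `W` and `w_0`; `Re (α μ T ∑ μ^j d_j) = ∑ (T_1 Re (α μ μ^j) + T_2 Re (i α μ μ^j)) d_j`
and `μ^j = ex t (2 * (-2 * j))`. Divide by `θ`. -/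
def AbtotStmt : Prop :=
  ∀ k : ℕ, 3 ≤ k → ∀ t : ℝ, t = tau k → ∀ (P : Pm) (g : ℝ) (w : ℕ → ℝ) (X U T : ℂ) (a z : ℝ),
    X = Xf k t w → U = om t * X → T = 2 * U - ((th t * g : ℝ) : ℂ) → a = w k → z = zt k t w k →
    ((al P t * Zf k t w ^ 2 * Wf k t w).re + be P t * (Complex.normSq (Zf k t w) * w 0))
      - ((al P t * Zf k t (nx k (pp t) (th t * g) w) ^ 2 * Wf k t (nx k (pp t) (th t * g) w)).re
        + be P t * (Complex.normSq (Zf k t (nx k (pp t) (th t * g) w))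
          * nx k (pp t) (th t * g) w 0))
      = th t * (a * ((al P t * chh t * U ^ 2).re + be P t * ph t * Complex.normSq U)
        - th t * a * g * ((al P t * chh t * T).re + be P t * ph t * T.re)
        + g * ((al P t * (U - ((th t * g : ℝ) : ℂ)) ^ 2).re
          + be P t * Complex.normSq (U - ((th t * g : ℝ) : ℂ)))
        + g * ((am P t * T * (w1 t * X + w2 t * cj X)).re + be P t * T.re * (lk t * X).re)
        + g * z * ((am P t * muk t * T).re + be P t * T.re)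
        + g * T.re * SS k t (Bl k t (B2r P t)) (Dh k t w)
        + g * T.im * SS k t (Bl k t (B3r P t)) (Dh k t w))

/-- PACKET ZGTOT (given CST, WND). Decrement of `|Z|²` and of `Re (Γ Z²)`.

Proof. `|Z|² - |U - G|² = 2 G Re U - G²`, `2 Re (ω X) = -(δ x + c y)`. `Γ (Z² - Z'²) =
Γ ((λ^{-2} - 1) U² + G T)`, `Γ = e ph κ λ D_2`, `D_2 (λ^{-2} - 1) = θ λ^{-2}`. -/
def ZgtotStmt : Prop :=
  ∀ k : ℕ, 3 ≤ k → ∀ t : ℝ, t = tau k → ∀ (e g : ℝ) (w : ℕ → ℝ) (X U T : ℂ),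
    X = Xf k t w → U = om t * X → T = 2 * U - ((th t * g : ℝ) : ℂ) →
    Complex.normSq (Zf k t w) - Complex.normSq (Zf k t (nx k (pp t) (th t * g) w))
      = th t * (-(del t * X.re + cs t * X.im) * g - th t * g ^ 2)
    ∧ (Gam t e * Zf k t w ^ 2).re - (Gam t e * Zf k t (nx k (pp t) (th t * g) w) ^ 2).re
      = th t * (e * (ph t * (kl t * U ^ 2).re
        + g * (ph t * (kap t * lam t * Dm t 2 * T).re)))

/-- PACKET PTOT (given CST). Decrement of the polynomial part.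

Proof. `U = ω X = λ Z`, `Z = ik X`. `Pf (Z) - Pf (U - G) = (Pf (Z) - Pf (U)) + (Pf (U) - Pf (U - G))`.
For a monomial `c Z^n Z̄^m`: `c Z^n Z̄^m - c U^n Ū^m = c (1 - λ^{n-m}) Z^n Z̄^m`, `1 - λ^j = θ dl j`
(`λ λ̄ = 1`). The second bracket by the binomial theorem, `G = θ g` real, collecting powers of `g`
(`Re (c Ū) = Re (c̄ U)` etc.). -/
def PtotStmt : Prop :=
  ∀ k : ℕ, 3 ≤ k → ∀ t : ℝ, t = tau k → ∀ (P : Pm) (g : ℝ) (X U : ℂ), U = om t * X →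
    Pf P t (ik t * X) - Pf P t (U - ((th t * g : ℝ) : ℂ))
      = th t * ((c30 P t * dl t 3 * (ik t * X) ^ 3).re
        + (c21 P t * dl t 1 * ((ik t * X) ^ 2 * cj (ik t * X))).re
        + (P.c40 * dl t 4 * (ik t * X) ^ 4).re
        + (P.c31 * dl t 2 * ((ik t * X) ^ 3 * cj (ik t * X))).re
        + (P.c50 * dl t 5 * (ik t * X) ^ 5).re
        + (P.c41 * dl t 3 * ((ik t * X) ^ 4 * cj (ik t * X))).re
        + (P.c32 * dl t 1 * ((ik t * X) ^ 3 * cj (ik t * X) ^ 2)).re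
        + g * (((3 * c30 P t + c21 P t) * U ^ 2).re + 2 * (c21 P t).re * Complex.normSq U
          + ((4 * P.c40 + P.c31) * U ^ 3).re
          + ((3 * P.c31 + (4 * P.c22 : ℝ)) * (U ^ 2 * cj U)).re
          + ((5 * P.c50 + P.c41) * U ^ 4).re
          + ((4 * P.c41 + 2 * P.c32) * (U ^ 3 * cj U)).re
          + 3 * P.c32.re * Complex.normSq U ^ 2)
        - th t * g ^ 2 * (((3 * c30 P t + 2 * c21 P t + cj (c21 P t)) * U).re
          + ((6 * P.c40 + 3 * P.c31 + (2 * P.c22 : ℝ)) * U ^ 2).re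
          + (3 * P.c31.re + 4 * P.c22) * Complex.normSq U
          + ((10 * P.c50 + 4 * P.c41 + P.c32) * U ^ 3).re
          + ((6 * P.c41 + 6 * P.c32 + 3 * cj P.c32) * (U ^ 2 * cj U)).re)
        + th t ^ 2 * g ^ 3 * ((c30 P t + c21 P t).re
          + ((4 * P.c40 + 3 * P.c31 + cj P.c31 + (4 * P.c22 : ℝ)) * U).re
          + ((10 * P.c50 + 6 * P.c41 + 3 * P.c32 + cj P.c32) * U ^ 2).re
          + (4 * P.c41.re + 6 * P.c32.re) * Complex.normSq U)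
        - th t ^ 3 * g ^ 4 * ((P.c40 + P.c31).re + P.c22
          + ((5 * P.c50 + 4 * P.c41 + cj P.c41 + 3 * P.c32 + 2 * cj P.c32) * U).re)
        + th t ^ 4 * g ^ 5 * (P.c50 + P.c41 + P.c32).re)

/-- PACKET CUB (given CST). Cancellation of the cubic terms; `U = ω X`.

Proof. Put `κ^{-1} = ik`, `ω = λ ik`, `g2 := g2h`. `dl t 3 * Dm t 3 = 1`, `dl t 1 * Dm t 1 = 1`.
`c30 dl3 ik³ X³ = -(g2/2) ik (λ + (A - ic) κ) X³ = -(g2/2) (ω + (A - ic)) X³` (as `ik λ = ω`), and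
`c21 dl1 ik² īk X² X̄ = -g2 (½ κ² ex(-2) + |κ|² (λ + ½ κ (3A - ic))) ik² īk X² X̄
= -g2 (½ λ̄ īk + ω + ½ (3A - ic)) X² X̄` with `λ̄ īk = ω̄`, `|κ|² ik² īk = ik`, `κ² ik² = 1`.
`Re (α chh U²) + β ph |U|² = g2 (Re ((A - ic) X²) + A |X|²)`: `α chh = hp ph (A - ic) κ² ex(-4)
(1 - 2ic)(1 + 2ic)/(1 + 4c²) = g2 (A - ic) κ² λ^{-2}`, `κ² λ^{-2} U² = X²`; `β ph |U|² = g2 A |X|²`
(`hp ph = g2h`, `kn |ω|² = 1`). So with `X = x + i y`:
LHS `= -(g2/2) Re ((ω + A - ic) X³) - g2 Re ((½ ω̄ + ω + ½ (3A - ic)) X² X̄)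
+ (x + z) g2 (Re ((A - ic) X²) + A |X|²)`. Compare with the right side; use
`ω = -δ/2 + i c/2`; the `A` part: `-(A/2) Re X³ - (3A/2) |X|² x + A x (Re X² + |X|²) = 0`, etc. -/
def CubStmt : Prop :=
  ∀ k : ℕ, 3 ≤ k → ∀ t : ℝ, t = tau k → ∀ (P : Pm) (X U : ℂ) (z : ℝ), U = om t * X →
    (c30 P t * dl t 3 * (ik t * X) ^ 3).re
      + (c21 P t * dl t 1 * ((ik t * X) ^ 2 * cj (ik t * X))).re
      + (X.re + z) * ((al P t * chh t * U ^ 2).re + be P t * ph t * Complex.normSq U)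
      = (del t * X.re + cs t * X.im) * (g2h t * X.re ^ 2)
        + z * (2 * g2h t * X.re * (P.A * X.re + cs t * X.im))

/-- PACKET MINQ. Minimisation of a quadratic form.

Proof. `E := D + B/(2 r1)`: `r1 S(D,D) + S(B,D) = r1 S(E,E) - S(B,B)/(4 r1)`,
`S(b,D) = S(b,E) - S(b,B)/(2 r1)`. Put `T = T0 - S(b,B)/(2 r1)`, `x = S(b,E)`. Cauchy-Schwarz:
`x² ≤ S(b,b) S(E,E)`. If `S(b,b) = 0` then `x = 0`. Else `r1 S(E,E) - c (T + x)² ≥
r1 x²/S(b,b) - c (T+x)² ≥ -c T²/(1 - c S(b,b)/r1)`, the last because with `ρ = r1/S(b,b) > c`,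
`ρ x² - c (T + x)² + c T² ρ/(ρ - c) = (ρ - c) (x - c T/(ρ - c))²`. -/
def MinqStmt : Prop :=
  ∀ (k : ℕ) (t r1 c T0 : ℝ) (b B D : ℕ → ℝ), 0 < t → 0 < r1 → 0 ≤ c → c * SS k t b b < r1 →
    -(1 / (4 * r1) * SS k t B B)
        - c * (1 - c / r1 * SS k t b b)⁻¹ * (T0 - 1 / (2 * r1) * SS k t B b) ^ 2
      ≤ r1 * SS k t D D + SS k t B D - c * (T0 + SS k t b D) ^ 2

/-- PACKET GRM (given CST, IPL, MINQ). The minimum over the `d_j` under the constraint, in terms of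
the Gram matrix.

Proof. `λ^k z + S(λ^j, D) = 0` (complex; `S` with complex values). Hence for every `ν`,
`S(Re (ν λ^j), D) = -z Re (ν λ^k)`. So with `B_q` (with multipliers) and `B_q^r` (raw), `B_0^r = 0`:
`S(v1 B1r + v2 B2r + v3 B3r, D) = S(B, D) + z ∑_q v_q Re (ν_q lk)`, `B = ∑ v_q B_q`, `v_0 = z`; and
`ζ_0 = z + S(1, D) = z (1 - Re (ξ lk)) + S(B4, D)`. MINQ with `b = B4`, `T0 = z (1 - Re (ξ lk))`.
Expand by bilinearity and IPL (all terms have `f ≤ 1`, `|m| ≤ 2`): `T0 - S(B, B4)/(2 r1) =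
∑ v_q tv_q`, `-(1/(4 r1)) S(B,B) - c1p (∑ v_q tv_q)² = ∑∑ v_u v_v Gm_{uv}`. -/
def GrmStmt : Prop :=
  ∀ k : ℕ, 3 ≤ k → ∀ t : ℝ, t = tau k → ∀ (P : Pm) (z v1 v2 v3 z0 : ℝ) (D : ℕ → ℝ),
    0 < P.r1 → 0 ≤ P.c1h → P.c1h * gg P t < P.r1 →
    lam t ^ k * (z : ℂ) + (th t : ℂ) * ∑ j ∈ range k, lam t ^ j * (D j : ℂ) = 0 →
    z0 = z + th t * ∑ j ∈ range k, D j →
    z ^ 2 * (mkG P t).g00 + v1 ^ 2 * (mkG P t).g11 + v2 ^ 2 * (mkG P t).g22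
      + v3 ^ 2 * (mkG P t).g33
      + 2 * (z * v1 * (mkG P t).g01 + z * v2 * (mkG P t).g02 + z * v3 * (mkG P t).g03
        + v1 * v2 * (mkG P t).g12 + v1 * v3 * (mkG P t).g13 + v2 * v3 * (mkG P t).g23)
      + z * (z * (P.nu0 * lk t).re + v1 * (P.nu1 * lk t).re + v2 * (P.nu2 * lk t).re
        + v3 * (P.nu3 * lk t).re)
      ≤ P.r1 * SS k t D D + v1 * SS k t (Bl k t (B1r P t)) D + v2 * SS k t (Bl k t (B2r P t)) D
        + v3 * SS k t (Bl k t (B3r P t)) D - P.c1h * z0 ^ 2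

/-- PACKET EVL. `Phi (mkCf P t)` in complex form; pure unfolding: `H_j.ev` of the extractors are
`Re (c X^n X̄^m)` with `X = x + i y`, `|X|² = x² + y²`, sums of structures evaluate to sums;
`T1 = t11 x + t12 y - θ g = Re (2 ω X) - θ g`, `T2 = -t12 x + t11 y = Im (2 ω X)`; write
`v1 = g, v2 = g T1, v3 = g T2` and expand the Gram form in `x, y, g`. Valid for all real `t`
(needs only `normSq (om t) = on t`, which holds by definition, and `U = om t * X`). -/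
def EvlStmt : Prop :=
  ∀ (P : Pm) (t e a z g : ℝ) (X U T : ℂ), U = om t * X → T = 2 * U - ((th t * g : ℝ) : ℂ) →
    Phi (mkCf P t) e a X.re X.im z g
      = -(del t * X.re + cs t * X.im) * (g - g2h t * X.re ^ 2)
        + z * (2 * g2h t * X.re * (P.A * X.re + cs t * X.im))
        -- quadratic form part
        + P.c1h * z ^ 2
        - 2 * P.c1h * g * z * (kap t * Sg t 1).re
        - P.c1h * g ^ 2 * (th t * ((kt t * kn t + (kap t ^ 2 * Sg t 2).re) / 2))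
        - P.r1 * g ^ 2 * (ph t ^ 2 * (th t * ((kn t * L0 t
            + (kap t ^ 2 * ex t (-8) * cj (Lg t 2)).re) / 2)))
        - P.r1 * kt t * (ph t * z + g * k0 t) ^ 2
        + (z ^ 2 * (mkG P t).g00 + g ^ 2 * (mkG P t).g11 + (g * T.re) ^ 2 * (mkG P t).g22
          + (g * T.im) ^ 2 * (mkG P t).g33
          + 2 * (z * g * (mkG P t).g01 + z * (g * T.re) * (mkG P t).g02
            + z * (g * T.im) * (mkG P t).g03
            + g * (g * T.re) * (mkG P t).g12 + g * (g * T.im) * (mkG P t).g13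
            + (g * T.re) * (g * T.im) * (mkG P t).g23)
          + z * (z * (P.nu0 * lk t).re + g * (P.nu1 * lk t).re + (g * T.re) * (P.nu2 * lk t).re
            + (g * T.im) * (P.nu3 * lk t).re))
        -- alpha, beta part
        - th t * a * g * ((al P t * chh t * T).re + be P t * ph t * T.re)
        + g * ((al P t * (U - ((th t * g : ℝ) : ℂ)) ^ 2).re
          + be P t * Complex.normSq (U - ((th t * g : ℝ) : ℂ)))
        + g * ((am P t * T * (w1 t * X + w2 t * cj X)).re + be P t * T.re * (lk t * X).re)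
        + g * z * ((am P t * muk t * T).re + be P t * T.re)
        -- polynomial part
        + ((P.c40 * dl t 4 * (ik t * X) ^ 4).re
          + (P.c31 * dl t 2 * ((ik t * X) ^ 3 * cj (ik t * X))).re
          + (P.c50 * dl t 5 * (ik t * X) ^ 5).re
          + (P.c41 * dl t 3 * ((ik t * X) ^ 4 * cj (ik t * X))).re
          + (P.c32 * dl t 1 * ((ik t * X) ^ 3 * cj (ik t * X) ^ 2)).re
          + g * (((3 * c30 P t + c21 P t) * U ^ 2).re + 2 * (c21 P t).re * Complex.normSq U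
            + ((4 * P.c40 + P.c31) * U ^ 3).re
            + ((3 * P.c31 + (4 * P.c22 : ℝ)) * (U ^ 2 * cj U)).re
            + ((5 * P.c50 + P.c41) * U ^ 4).re
            + ((4 * P.c41 + 2 * P.c32) * (U ^ 3 * cj U)).re
            + 3 * P.c32.re * Complex.normSq U ^ 2)
          - th t * g ^ 2 * (((3 * c30 P t + 2 * c21 P t + cj (c21 P t)) * U).re
            + ((6 * P.c40 + 3 * P.c31 + (2 * P.c22 : ℝ)) * U ^ 2).re
            + (3 * P.c31.re + 4 * P.c22) * Complex.normSq U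
            + ((10 * P.c50 + 4 * P.c41 + P.c32) * U ^ 3).re
            + ((6 * P.c41 + 6 * P.c32 + 3 * cj P.c32) * (U ^ 2 * cj U)).re)
          + th t ^ 2 * g ^ 3 * ((c30 P t + c21 P t).re
            + ((4 * P.c40 + 3 * P.c31 + cj P.c31 + (4 * P.c22 : ℝ)) * U).re
            + ((10 * P.c50 + 6 * P.c41 + 3 * P.c32 + cj P.c32) * U ^ 2).re
            + (4 * P.c41.re + 6 * P.c32.re) * Complex.normSq U)
          - th t ^ 3 * g ^ 4 * ((P.c40 + P.c31).re + P.c22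
            + ((5 * P.c50 + 4 * P.c41 + cj P.c41 + 3 * P.c32 + 2 * cj P.c32) * U).re)
          + th t ^ 4 * g ^ 5 * (P.c50 + P.c41 + P.c32).re)
        - th t * g ^ 2
        -- e part
        + e * (ph t * (kl t * U ^ 2).re + g * (ph t * (kap t * lam t * Dm t 2 * T).re))

/-- PACKET NLB (given CST, WND, QTOT, ABTOT, ZGTOT, PTOT, CUB, GRM, EVL). The decrement.

Proof. `Vf w - Vf w'` is the sum of the four decrements (`Zf w = ik X`, `Zf w' = λ Z - G = U - G`).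
The `d`-dependent terms are `th t *` the right side of GRM with `D = Dh`, `z0 = ζ_0`, `v1 = g`,
`v2 = g T1`, `v3 = g T2`; the cubic terms are replaced by CUB (`a = x + z`); the rest is `EVL`
literally. -/
def NlbStmt : Prop :=
  ∀ k : ℕ, 3 ≤ k → ∀ t : ℝ, t = tau k → ∀ (P : Pm) (e g : ℝ) (w : ℕ → ℝ),
    0 < P.r1 → 0 ≤ P.c1h → P.c1h * gg P t < P.r1 →
    th t * Phi (mkCf P t) e (w k) (Xf k t w).re (Xf k t w).im (zt k t w k) g
      ≤ Vf P k t e w - Vf P k t e (nx k (pp t) (th t * g) w)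

end Pool.Agent.Helper30.DL
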