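import Pool.Agent.Helper30.DL.Chk

/-!
MP_b4564f_an, all delays. Part C: soundness of the affine arithmetic, of the tables and of the trees.
-/

set_option autoImplicit false

open Complex (I)

namespace Pool.Agent.Helper30.DL

/-- PACKET AFS. Soundness of the affine arithmetic (definitions in `AF.lean`).

Proof. `S = 10^10`. Addition etc. are exact, radii add. `mul`: with `v S = c + x X + y Y + z Z + ε`,
`|ε| ≤ r`, the product `v w S² = c c' + (c x' + c' x) X + ... + (dev-products)`, where the remaining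
terms are bounded by `|c| r' + |c'| r + dev dev'`; divide by `S`; each of the four signed entries is
a difference of two floors, so has an error `≤ 1` (times `|X| ≤ 1`), and the floor in the radius costs
`1`: total `5`. `inv`: with `V0` the value of `inv0 A c` at `x, y, z` (radius `0`, so
`(inv0 A c).Enc x y z V0` for the exact value `V0`), `|v V0 - 1| ≤ mag/S`, `v ≥ lo/S > 0`,
`|v⁻¹ - V0| = |1 - v V0|/v ≤ mag/lo`, times `S`, floor plus one. -/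
def AfsStmt : Prop :=
  ∀ x y z : ℝ, |x| ≤ 1 → |y| ≤ 1 → |z| ≤ 1 → ∀ (A B : AF) (v w : ℝ),
    A.Enc x y z v → B.Enc x y z w →
    (A + B).Enc x y z (v + w) ∧ (A - B).Enc x y z (v - w) ∧ (A * B).Enc x y z (v * w)
    ∧ (-A).Enc x y z (-v) ∧ (∀ n : ℕ, (n • A).Enc x y z (n • v))
    ∧ (∀ (r : ℕ) (d : ℝ), |d| ≤ (r : ℝ) / 10000000000 → (A.addr r).Enc x y z (v + d))
    ∧ |10000000000 * v| ≤ (A.mag : ℝ)
    ∧ (A.pos = true → 0 < v ∧ A.inv.Enc x y z v⁻¹)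
    ∧ ((A.lo : ℤ) : ℝ) ≤ 10000000000 * v ∧ 10000000000 * v ≤ ((A.hi : ℤ) : ℝ)

/-- PACKET TRIG (given AFS). Enclosures of `cos t` and `sin t / t`.

Proof. `cosA u` evaluates `1 - u/2 (1 - u/12 (1 - u/30 (1 - u/56)))`, the Taylor polynomial of
`cos` of degree 8 in `t`, remainder `≤ t^10/10! ≤ (0.0505)^5/3628800 < 10^{-13}`, so within `addr 1`
(`10^{-10}`). `sincA u`: `1 - u/6 (1 - u/20 (1 - u/42 (1 - u/72)))`, remainder `≤ t^10/11!`. The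
constants `AF.cst c 0 1` enclose `1/12` etc. (radius `1`). Taylor bounds: alternating series, or
`Real.cos_bound`-type induction: repeated integration / monotonicity of the differences
(`Real.one_sub_sq_div_two_le_cos`, `Real.sin_lt`, ... or Mathlib's `taylor_mean_remainder`). -/
def TrigStmt : Prop :=
  ∀ x y z : ℝ, |x| ≤ 1 → |y| ≤ 1 → |z| ≤ 1 → ∀ (u : AF) (t : ℝ), 0 < t → t ≤ 449 / 2000 →
    u.Enc x y z (t ^ 2) →
    (cosA u).Enc x y z (Real.cos t) ∧ (sincA u).Enc x y z (Real.sin t / t)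

/-- enclosures of the base data -/
structure EncBs (b : BsA) (x y z t : ℝ) : Prop where
  tt : b.t.Enc x y z t
  Q : b.Q.Enc x y z (Real.pi / 2)
  c : b.c.Enc x y z (Real.cos t)
  f : b.f.Enc x y z (Real.sin t / t)

/-- PACKET MKA (given AFS). First part of the constants.

Proof. Each affine definition repeats the real one with `+, -, *, inv`. Facts: `ex t m` for `m ≥ 0` is
the corresponding product of `ex t 1 = cos t + i sin t`, `sin t = t * (sin t / t)`;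
`ex t (-m) = conj (ex t m)`; `sc t 2 = (sin t/t) cos t`, `sc t 3 = (sin t/t) (4 cos² - 1)/3`,
`sc t 4 = (sin t/t) cos t (2 cos² - 1)`, `sc t 5 = (sin t/t) (16 cos⁴ - 12 cos² + 1)/5`;
`js t m = (sc t m)⁻¹` (`inv_div`). `okA Q b = true` gives the positivity needed for `AF.inv`
(`b.sc 1` is `b.f` definitionally). -/
def MkaStmt : Prop :=
  ∀ x y z : ℝ, |x| ≤ 1 → |y| ≤ 1 → |z| ≤ 1 → ∀ (b : BsA) (t : ℝ) (Q : PmA) (P : Pm),
    0 < t → t ≤ 449 / 2000 → EncBs b x y z t → EncP Q P → okA Q b = true →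
    b.th.Enc x y z (th t) ∧ b.pp.Enc x y z (pp t) ∧ b.del.Enc x y z (del t)
    ∧ b.kt.Enc x y z (kt t) ∧ b.g2h.Enc x y z (g2h t)
    ∧ (∀ m : ℕ, m ≤ 5 ∨ m = 8 → (b.exn m).Enc x y z (ex t m))
    ∧ (∀ m : ℕ, m ≤ 5 ∨ m = 8 → (b.exn m).cj.Enc x y z (ex t (-m)))
    ∧ (∀ m : ℕ, 1 ≤ m → m ≤ 5 → (b.sc m).Enc x y z (sc t m))
    ∧ (∀ m : ℕ, 1 ≤ m → m ≤ 4 → (b.js m).Enc x y z (js t m))
    ∧ b.om.Enc x y z (om t) ∧ b.ik.Enc x y z (ik t) ∧ b.iE.Enc x y z (iE t)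
    ∧ b.kap.Enc x y z (kap t) ∧ b.kn.Enc x y z (kn t) ∧ b.mu.Enc x y z (mu t)
    ∧ b.muk.Enc x y z (muk t) ∧ b.lk.Enc x y z (lk t) ∧ b.lam.Enc x y z (lam t)
    ∧ (∀ m : ℕ, 1 ≤ m → m ≤ 4 → (b.Dm m).Enc x y z (Dm t m))
    ∧ (∀ m : ℕ, 1 ≤ m → m ≤ 5 → (b.dl m).Enc x y z (dl t m))
    ∧ b.chh.Enc x y z (chh t) ∧ b.kk.Enc x y z (kap t ^ 2)
    ∧ (b.al Q).Enc x y z (al P t) ∧ (b.be Q).Enc x y z (be P t)
    ∧ (b.c30 Q).Enc x y z (c30 P t) ∧ (b.c21 Q).Enc x y z (c21 P t)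
    ∧ (∀ m : ℕ, 1 ≤ m → m ≤ 4 → (b.Sg m).Enc x y z (Sg t m) ∧ (b.Lg m).Enc x y z (Lg t m)
        ∧ (b.Mg m).Enc x y z (Mg t m))
    ∧ b.L0.Enc x y z (L0 t) ∧ b.M0.Enc x y z (M0 t)
    ∧ (∀ f : ℕ, f ≤ 2 → ∀ m : ℤ, -4 ≤ m → m ≤ 4 → (b.Gg f m).Enc x y z (Gg t f m))
    ∧ b.kl.Enc x y z (kl t) ∧ b.k0.Enc x y z (k0 t) ∧ (b.am Q).Enc x y z (am P t)
    ∧ b.t11.Enc x y z (t11 t) ∧ b.t12.Enc x y z (t12 t) ∧ b.w1.Enc x y z (w1 t)
    ∧ b.w2.Enc x y z (w2 t) ∧ b.on.Enc x y z (on t)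
    ∧ b.o2.Enc x y z (om t ^ 2) ∧ b.o3.Enc x y z (om t ^ 3)
    ∧ b.k2.Enc x y z (ik t ^ 2) ∧ b.k3.Enc x y z (ik t ^ 3) ∧ b.k4.Enc x y z (ik t ^ 4)

/-- enclosure of the Gram matrix -/
structure EncG (G : G10 AF) (x y z : ℝ) (R : G10 ℝ) : Prop where
  g00 : G.g00.Enc x y z R.g00
  g01 : G.g01.Enc x y z R.g01
  g02 : G.g02.Enc x y z R.g02
  g03 : G.g03.Enc x y z R.g03
  g11 : G.g11.Enc x y z R.g11
  g12 : G.g12.Enc x y z R.g12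
  g13 : G.g13.Enc x y z R.g13
  g22 : G.g22.Enc x y z R.g22
  g23 : G.g23.Enc x y z R.g23
  g33 : G.g33.Enc x y z R.g33

/-- PACKET MKB (given AFS, MKA). The Gram matrix.

Proof. General lemma: if the terms of two lists enclose termwise (same `m`, `f`, `|m| ≤ 2`, `f ≤ 1`)
then `ipA b L L'` encloses `ip t B B'` (induction; `tipA` = affine version of `tip`). Then unfold
`mkG`. `1/(2 r1) = (2 r1)⁻¹`, `1/(4 r1) = (2 r1)⁻¹ / 2`, `c1h / r1 = c1h * (2 * (2 r1)⁻¹)`,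
`AF.pos` of `2 • r1` follows from `AF.pos r1`. Also `1 - c1h/r1 gg > 0`, i.e.
`c1h gg < r1`, and `0 < r1`. -/
def MkbStmt : Prop :=
  ∀ x y z : ℝ, |x| ≤ 1 → |y| ≤ 1 → |z| ≤ 1 → ∀ (b : BsA) (t : ℝ) (Q : PmA) (P : Pm),
    0 < t → t ≤ 449 / 2000 → EncBs b x y z t → EncP Q P → okA Q b = true →
    EncG (b.mkG Q) x y z (mkG P t) ∧ 0 < P.r1 ∧ P.c1h * gg P t < P.r1

/-- enclosure of tables -/
def EncTb (T : Tb AF) (x y z : ℝ) (R : Tb ℝ) : Prop :=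
  List.Forall₂ (fun (A : AF) (v : ℝ) => A.Enc x y z v) T.toL R.toL

/-- PACKET MKC (given AFS, MKA, MKB). The table.

Proof. Unfold `mkTbA`, `mkTb`, `mkCfA`, `mkCf`, `mkGsA`, `mkGs`; every entry by the corresponding
operations. (`CA` operations: `CA.Enc` is componentwise.) -/
def MkcStmt : Prop :=
  ∀ x y z : ℝ, |x| ≤ 1 → |y| ≤ 1 → |z| ≤ 1 → ∀ (b : BsA) (t : ℝ) (Q : PmA) (P : Pm),
    0 < t → t ≤ 449 / 2000 → EncBs b x y z t → EncP Q P → okA Q b = true →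
    ∀ (e e1 : AF) (em : ℝ), e.Enc x y z em → e1.Enc x y z (1 - em) →
    EncTb (mkTbA Q e e1 b) x y z (mkTb P em t)

/-- PACKET TBL (given AFS, TRIG, MKB, MKC). Soundness of the table check.

Proof. `t` lies in the `j`-th subcell `[t0 + (t1-t0) j/ns, t0 + (t1-t0) (j+1)/ns] / 10^10` for some
`j < ns`; let `ζ ∈ [-1,1]` be its relative position (`0` if `t0 = t1`) and
`z = (2j + 1 - ns + ζ)/ns`, which is the position of `t` in the whole cell (so it does not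
depend on the entries). `(tsub t0 t1 ns j).Enc x y ζ t` (the centre and the half width are rounded down,
error `≤ 1` each). `mkBs` gives `EncBs` (TRIG with `u = t * t`; `|10^10 π/2 - 15707963268| ≤ 1`). Then
MKC for the noise values `(x, y, ζ)`, and `chk1 ns j v w = true`, `w.cz = true` imply
`w.Enc x y z val` from `v.Enc x y ζ val`: `ns |10^10 val - (c_w + z_w z)| ≤
|ns (c_v - c_w) - z_w (2j + 1 - ns)| + |ns z_v - z_w| + ns (r_v + |x_v| + |y_v|) ≤ ns r_w`. -/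
def TblStmt : Prop :=
  ∀ (Q : PmA) (P : Pm) (e e1 : AF) (em : ℝ) (t0 t1 ns : ℕ) (T : Tb AF), EncP Q P →
    (∀ x y z : ℝ, e.Enc x y z em) → (∀ x y z : ℝ, e1.Enc x y z (1 - em)) →
    0 < ns → t0 ≤ t1 → tblOK Q e e1 t0 t1 ns T ns = true →
    ∀ t : ℝ, 0 < t → t ≤ 449 / 2000 → (t0 : ℝ) ≤ 10000000000 * t → 10000000000 * t ≤ t1 →
      (∃ z : ℝ, |z| ≤ 1 ∧ ∀ x y : ℝ, |x| ≤ 1 → |y| ≤ 1 → EncTb T x y z (mkTb P em t))
      ∧ 0 < P.r1 ∧ P.c1h * gg P t < P.r1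

/-- enclosure of a series -/
structure EncGs (K : Gs AF) (x y z : ℝ) (R : Gs ℝ) : Prop where
  c1 : K.c1.Enc x y z R.c1
  c2 : K.c2.Enc x y z R.c2
  c3 : K.c3.Enc x y z R.c3
  c4 : K.c4.Enc x y z R.c4
  c5 : K.c5.Enc x y z R.c5
  c6 : K.c6.Enc x y z R.c6
  c7 : K.c7.Enc x y z R.c7
  c8 : K.c8.Enc x y z R.c8

/-- chart: `ρ` -/
def chR (ch : ℕ) (X : ℝ) : ℝ :=
  match ch with
  | 2 => 1
  | _ => X
/-- chart: `α` -/
def chA (ch : ℕ) (X Y : ℝ) : ℝ :=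
  match ch with
  | 0 => 1
  | 1 => Y
  | _ => X
/-- chart: `y` -/
def chY (ch : ℕ) (Y : ℝ) : ℝ :=
  match ch with
  | 1 => 1
  | _ => Y

/-- the conclusion of the checks at a point -/
def PosAt (md ch : ℕ) (Cr : Cf ℝ) (Kr : Gs ℝ) (X Y ζ : ℝ) : Prop :=
  (md = 0 → chR ch X ^ 4 ≤ 10000000000 * Phi Cr 0 (chR ch X * chA ch X Y)
      (chR ch X * chA ch X Y - ζ) (chR ch X * chY ch Y) ζ (Kr.ev (chR ch X * chA ch X Y)))
  ∧ (md ≠ 0 → chR ch X ^ 2 ≤ 10000000000 * Phi Cr 1 (chR ch X * chA ch X Y)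
      (chR ch X * chA ch X Y - ζ) (chR ch X * chY ch Y) ζ (Kr.ev (chR ch X * chA ch X Y)))

/-- PACKET LEAF (given AFS). Soundness of `lfC`.

Proof. Let `ρ = chR ch X`, `α = chA ch X Y`, `y = chY ch Y`, `a = ρ α`. The forms `rhoA`, `alA`, `yA`
enclose them for suitable noise values `x, y'` in `[-1, 1]` (`x = (10^10 X - c)/h` with
`c = (X0+X1)/2` rounded down, `h = (X1-X0+1)/2` rounded down; if `h = 0` then `X` is the centre).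
With `s' = s/10^10`, `d = ζ - ρ² s'`, the identities `phi_split4` / `phi_split2` (with `e = 1`) write
`Phi` as `ρ^W T0 + ρ^(W/2) T1 d + q(d) d²`, `W = 4` resp. `2`, and by AFS the affine `T0`, `T1`,
`Q` of `lf4` / `lf2` enclose the real ones (same formulas; for `md = 0` use `Kr.c2 = Cr.g2h`,
`Kr.c1 = 0`: `γ = α² (c2 + a k)`, `G3 = α³ k + g2h s (2 u + ρ s)`; the term `b0 = b1 = b2 = 0`;
`Kr.ev a = ρ² γ` resp. `ρ γ`). By the region hypotheses `d ∈ [d0, d1]/10^10` (`om ≥ 0`), so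
`q(d) ≥ B/10^10` (`qlon`: the pieces cover `[d0, d1]`). Scaled charts: with `D = d/ρ^(W/2)`
(`ρ ≠ 0`) `Phi = ρ^W (T0 + T1 D + q D²) ≥ ρ^W/10^10` because `B > 0`, `T1² ≤ 4 B t0`,
`T0 ≥ (t0 + 1)/10^10`; if `ρ = 0`, `Phi = q(d) d² ≥ 0`. Chart 2: `half` for `d ≥ 0` and for
`-d ≥ 0`: `t0 + t1 d + B d² ≥ 0` (for `B < 0` concave, endpoints; for `B ≥ 0` three cases). -/
def LeafStmt : Prop :=
  ∀ (md ch : ℕ) (C : Cf AF) (K : Gs AF) (R : Rg) (s : ℤ) (n : ℕ) (X0 X1 Y0 Y1 z0 z1 : ℤ),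
    ch ≤ 2 → 0 ≤ R.om → lfC md ch C K R s n X0 X1 Y0 Y1 z0 z1 = true →
    ∀ (z : ℝ) (Cr : Cf ℝ) (Kr : Gs ℝ), |z| ≤ 1 →
    (∀ x y : ℝ, |x| ≤ 1 → |y| ≤ 1 → EncCf C x y z Cr) →
    (∀ x y : ℝ, |x| ≤ 1 → |y| ≤ 1 → EncGs K x y z Kr) →
    (md = 0 → Kr.c1 = 0 ∧ Kr.c2 = Cr.g2h) →
    ∀ X Y ζ : ℝ, (X0 : ℝ) ≤ 10000000000 * X → 10000000000 * X ≤ X1 →
      (Y0 : ℝ) ≤ 10000000000 * Y → 10000000000 * Y ≤ Y1 →
      (z0 : ℝ) ≤ 10000000000 * ζ → 10000000000 * ζ ≤ z1 →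
      (R.om : ℝ) * (chR ch X * chA ch X Y) - R.bl ≤ 10000000000 * ζ →
      10000000000 * ζ ≤ (R.om : ℝ) * (chR ch X * chA ch X Y) + R.bh →
      PosAt md ch Cr Kr X Y ζ

/-- PACKET TREE (given LEAF). Soundness of `Tr.run`, by induction on the tree. (`ou` nodes: chart 1:
`|X| |Y| > x0/10^10` on the box, excluded by hypothesis; chart 2: no admissible `ζ`.) -/
def TreeStmt : Prop :=
  ∀ (md ch : ℕ) (C : Cf AF) (K : Gs AF) (R : Rg) (x0 : ℤ) (T : Tr) (X0 X1 Y0 Y1 z0 z1 : ℤ),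
    ch ≤ 2 → 0 ≤ R.om → 0 ≤ x0 → Tr.run md ch C K R x0 T X0 X1 Y0 Y1 z0 z1 = true →
    ∀ (z : ℝ) (Cr : Cf ℝ) (Kr : Gs ℝ), |z| ≤ 1 →
    (∀ x y : ℝ, |x| ≤ 1 → |y| ≤ 1 → EncCf C x y z Cr) →
    (∀ x y : ℝ, |x| ≤ 1 → |y| ≤ 1 → EncGs K x y z Kr) →
    (md = 0 → Kr.c1 = 0 ∧ Kr.c2 = Cr.g2h) →
    ∀ X Y ζ : ℝ, (X0 : ℝ) ≤ 10000000000 * X → 10000000000 * X ≤ X1 →
      (Y0 : ℝ) ≤ 10000000000 * Y → 10000000000 * Y ≤ Y1 →
      (z0 : ℝ) ≤ 10000000000 * ζ → 10000000000 * ζ ≤ z1 →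
      (R.om : ℝ) * (chR ch X * chA ch X Y) - R.bl ≤ 10000000000 * ζ →
      10000000000 * ζ ≤ (R.om : ℝ) * (chR ch X * chA ch X Y) + R.bh →
      (ch = 1 → 10000000000 * |X * Y| ≤ x0) →
      PosAt md ch Cr Kr X Y ζ

end Pool.Agent.Helper30.DL
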