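import Pool.Agent.Helper30.DL.Chk2
import Pool.Agent.Helper30.DL.GoalsA
import Pool.Agent.Helper30.DL.GoalsB
import Pool.Agent.Helper30.DL.GoalsC

/-!
MP_b4564f_an, all delays. Part D: the series, the interpolation in `e`, the region, cells,
convergence.
-/

set_option autoImplicit false

open Complex (I)
open Filter Topology Finset

namespace Pool.Agent.Helper30.DL

/-- PACKET GSER. The Taylor expansion of order 8.

Proof. `PL.FF p t = log (1 - p + p e^t)`, derivative `s = PL.lg p t = p e^t/(1 - p + p e^t)`,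
`s' = s (1 - s)` (`PL.hasDeriv_FF`, `PL.hasDeriv_lg`). With `κ_1 = s`, `κ_{n+1} = s (1-s) κ_n'(s)`,
the `n`-th derivative of `FF p` is `κ_n (lg p t)`; `lg p 0 = p`; `κ_2 = s(1-s)`,
`κ_3 = s(1-s)(1-2s)`, `κ_4 = s(1-s)(1-6s+6s²)`, `κ_5 = s(1-s)(1-14s+36s²-24s³)`,
`κ_6 = s(1-s)(1-30s+150s²-240s³+120s⁴)`, `κ_7 = s(1-s)(1-62s+540s²-1560s³+1800s⁴-720s⁵)`,
`κ_8 = s-127s²+1932s³-10206s⁴+25200s⁵-31920s⁶+20160s⁷-5040s⁸`. Taylor with Lagrange remainder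
(`taylor_mean_remainder_lagrange`, or eight times monotonicity): `FF p a = ∑_{n≤7} κ_n(p) a^n/n! +
κ_8(s) a⁸/8!`, `s = lg p ξ`, `ξ` between `0` and `a ≤ 3/4`. For `p ≤ 0.4451` (`2 sin t ≤ 2 sin(π/14)
< 0.4451`): `s ≤ 0.63` and `s ≤ p e^{3/4} ≤ 2.118 p` (for `ξ ≤ 0`: `s ≤ p`), and
`|κ_8(s)| ≤ 2.65 s` on `[0, 0.66]` (the maximum of `|κ_8(s)/s|` there is `2.6387`, near `s = 0.2177`;
subdivide). So `|κ_8(s)| ≤ 5.62 p`, and with `p' = (1-e) pp t`, `θ = 2t`, `pp t/θ = ph t ≤ 1`: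
`|c8| = |κ_8|/(40320 θ) ≤ 5.62/40320 < 1.4e-4`. The coefficients of `mkGs` are `κ_n(p')/(n! θ)`,
except `c1 = (p' - p)/θ = -e ph t`. -/
def GserStmt : Prop :=
  ∀ t e a : ℝ, 0 < t → t ≤ Real.pi / 14 → 0 ≤ e → e ≤ 1 / 5 → -1 ≤ a → a ≤ 3 / 4 →
    ∃ c8 : ℝ, |c8| ≤ 145 / 1000000 ∧ gf t e a = (mkGs t e c8).ev a

/-- PACKET EINT. Interpolation between `e = 0` and `e = em`; pure algebra.

Proof. For fixed `a, x, y, z, g0, b` let `φ(ε) = Phi C ε a x y z (g0 - ε b)`, a polynomial in `ε`.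
`φ(e) = (1 - e/em) φ(0) + (e/em) φ(em) + e (e - em) [φ]`, where the second divided difference at
`0, e, em` is `[φ] = b² Br(g0, g0 - e b, g0 - em b) - b el - 2 b g0 ek + b² (e + em) ek`. And
`Phi (C.md em) 1 = Phi C em - em² (2 z² + (11/10)(x² + y²))`. As `e (e - em) ≤ 0`,
`|e (e - em)| ≤ (e/em) em²`. -/
def EintStmt : Prop :=
  ∀ (C : Cf ℝ) (e em a x y z g0 b : ℝ), 0 < e → e ≤ em →
    b ^ 2 * Br C a x y z g0 (g0 - e * b) (g0 - em * b) ≤ 0 →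
    -(b * C.el.ev x y) - 2 * b * g0 * C.ek + b ^ 2 * (e + em) * C.ek
      ≤ 2 * z ^ 2 + 11 / 10 * (x ^ 2 + y ^ 2) →
    (1 - e / em) * Phi C 0 a x y z g0 + e / em * Phi (C.md em) 1 a x y z (g0 - em * b)
      ≤ Phi C e a x y z (g0 - e * b)

/-- `b_e = (g_0 - g_e)/e` -/
noncomputable def bf (t e a : ℝ) : ℝ := (gf t 0 a - gf t e a) / e

/-- PACKET BEB. Dependence on `e`.

Proof. With `u = e^a - 1`, `p = pp t`, `h(q) = u/(1 + q u)`: `gf t 0 a - gf t ε a =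
(1/θ) ∫_{(1-ε)p}^p h(q) dq`, so `d/dε (gf t 0 a - gf t ε a) = (p/θ) h((1-ε)p) =: B(ε)`, nondecreasing
in `ε` (`B' = (p²/θ) h² ≥ 0`). Hence `bf t e a` (mean of `B` over `[0,e]`) is nondecreasing in `e`,
`B(0) ≤ bf t e a ≤ bf t em a ≤ B(0) + (em/2) sup B'`. `gf t 0 a - em bf t e a - gf t em a =
em (bf t em a - bf t e a) ∈ [0, (em²/2) p ph(t) sup h²]`, `p ≤ 2t`, `ph t ≤ 1`. For `0 ≤ a ≤ M`:
`0 ≤ h ≤ u ≤ a (e^M - 1)/M` (convexity), `h² ≤ cq a²`. For `a ≤ 0`: `|h| = |u|/(1 - q |u|) ≤ |a|`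
for `q ≤ 1/2` because `(1 - e^{-v})(1 + v/2) ≤ v` for `v = |a|` (`e^{-v} ≥ (2-v)/(2+v)`); so
`a ≤ ph(t) a ≤ B(0) ≤ bf`, `bf ≤ 0`. `gf t 0 a ≥ 0`: `FF p` is convex with derivative `p` at `0`.
(`pp t ≤ 2 sin (π/14) < 1/2`.) -/
def BebStmt : Prop :=
  ∀ t e em a M cq : ℝ, 0 < t → t ≤ Real.pi / 14 → 0 < e → e ≤ em → em ≤ 1 / 5 → -1 ≤ a → a ≤ M →
    0 < M → M ≤ 3 / 4 → 1 ≤ cq → (Real.exp M - 1) ^ 2 ≤ cq * M ^ 2 →
    (0 ≤ a → 0 ≤ bf t e a ∧ bf t e a ≤ bf t em a) ∧ (a ≤ 0 → a ≤ bf t e a ∧ bf t e a ≤ 0)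
    ∧ 0 ≤ gf t 0 a ∧ 0 ≤ gf t 0 a - em * bf t e a - gf t em a
    ∧ gf t 0 a - em * bf t e a - gf t em a ≤ em ^ 2 * t * cq * a ^ 2

/-- PACKET EKN. `ek ≤ 0`.

Proof. `ek = -θ ph Re (κ λ D_2)`, `λ D_2 = i (js t 2/2)` (as `D_2 = i (js/2) λ̄`), so
`Re (κ λ D_2) = -(js t 2/2) Im κ`, `Im κ = -2 iE (cos t cos 2t + δ sin 2t) < 0`, `js t 2 > 0`. -/
def EknStmt : Prop :=
  ∀ (P : Pm) (t : ℝ), 0 < t → t ≤ Real.pi / 14 → (mkCf P t).ek ≤ 0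

/-- PACKET RGN (given CST, WND). The region, by Cauchy-Schwarz.

Proof. `X = κ (λ^k w_k + ∑_{j<k} λ^j Δ_j)`, `Δ_j = w_j - w_{j+1}`, so `ζ_k = w_k (1 - Re (κ λ^k)) -
∑ Re (κ λ^j) Δ_j`. With `Δ_j = (D2 - D1)/2 + δ_j`, `|δ_j| ≤ (D2 + D1)/2`:
`(∑ Re (κ λ^j) δ_j)² ≤ ((D1+D2)/2)² k ∑ Re (κ λ^j)²`, `θ ∑_{j<k} Re (κ λ^j)² = (kt kn +
Re (κ² Sg 2))/2`, `θ ∑ λ^j = Sg 1`, `θ k = kt`. Second: summation by parts,
`Z = w_0 + (λ - 1) ∑_{i=1}^k λ^{i-1} w_i`, `w_i = (M - m)/2 + η_i`, `|η_i| ≤ (M + m)/2`,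
`(λ - 1) ∑_{i=1}^k λ^{i-1} = λ^k - 1`, `∑ Im (κ (λ-1) λ^{i-1})² = (k |κ|² |λ-1|² -
Re (κ² (λ-1)² ∑ λ^{2(i-1)}))/2`, `λ - 1 = -θ dl t 1`, `|λ - 1| = pp t = θ ph t`. -/
def RgnStmt : Prop :=
  ∀ k : ℕ, 3 ≤ k → ∀ t : ℝ, t = tau k → ∀ (w : ℕ → ℝ) (m M D1 D2 : ℝ),
    (∀ j ≤ k, -m ≤ w j ∧ w j ≤ M) → (∀ j < k, -D1 ≤ w j - w (j + 1) ∧ w j - w (j + 1) ≤ D2) →
    (zt k t w k - w k * (1 - (kap t * lk t).re)
        + (D2 - D1) / (2 * th t) * (kap t * Sg t 1).re) ^ 2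
      ≤ ((D2 + D1) / (2 * th t)) ^ 2 * (kt t * ((kt t * kn t + (kap t ^ 2 * Sg t 2).re) / 2))
    ∧ ((Xf k t w).im - (kap t).im * w 0 - (M - m) / 2 * (kap t * (lk t - 1)).im) ^ 2
      ≤ ((M + m) / 2) ^ 2
        * (kt t * ((kt t * kn t * ph t ^ 2 - (kap t ^ 2 * dl t 1 ^ 2 * Sg t 2).re) / 2))

/-- Facts on a table at `t`: the common noise value `z`. -/
def TabAt (T : Tb AF) (P : Pm) (em t z : ℝ) : Prop :=
  |z| ≤ 1 ∧ (∀ x y : ℝ, |x| ≤ 1 → |y| ≤ 1 → EncTb T x y z (mkTb P em t))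
    ∧ T.K0.c8 = AF.cst 0 0 1450000 ∧ T.K1.c8 = AF.cst 0 0 1450000

/-- PACKET RGS (given AFS, GSER, RGN, CST). Soundness of `rgC` (called with
`ph = T.C.del * AF.cst 6366197724 0 1`, which encloses `del t * (2/π) = ph t`).

Proof. With `p = pp t`, `FF p M/θ = ph t M + gf t 0 M`, `-FF p (-m)/θ = ph t m - gf t 0 (-m)`; by
GSER and the table (`mkTb.K0 = mkGs t 0 0`; `c8` has its own enclosure, radius `1450000`) the forms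
`F1`, `F2` enclose them (`c1 = 0` for `e = 0`, `ev a = a (a (c2 + a k3))`). `D1 = FF p M`,
`D2 = -FF p (-m)` in RGN; `cd, wd` enclose `(D2 ∓ D1)/(2θ)`. `(wd² q1)(10^10)² ≤ W1²`, so
`|ζ - a (1-rk) + cd s1| ≤ W1/10^10`, and `|1 - rk - om| |a| ≤ dv/10^10`. Similarly for `Im X`, with
`w_0 ∈ [-m, M]` (`im w_0` is between `im M` and `-im m`). -/
def RgsStmt : Prop :=
  ∀ k : ℕ, 3 ≤ k → ∀ t : ℝ, t = tau k → ∀ (T : Tb AF) (P : Pm) (em z : ℝ) (R : Rg) (D : Cd),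
    TabAt T P em t z → 0 ≤ em → em ≤ 1 / 5 →
    (D.m : ℝ) ≤ 10000000000 → 10000000000 * (4 / 3) * (D.M : ℝ) ≤ 10000000000 ^ 2 →
    rgC T (T.C.del * AF.cst 6366197724 0 1) R D = true →
    ∀ w : ℕ → ℝ,
    (∀ j ≤ k, -((D.m : ℝ) / 10000000000) ≤ w j ∧ w j ≤ (D.M : ℝ) / 10000000000) →
    (∀ j < k, -(PL.FF (pp t) ((D.M : ℝ) / 10000000000)) ≤ w j - w (j + 1)
      ∧ w j - w (j + 1) ≤ -(PL.FF (pp t) (-((D.m : ℝ) / 10000000000)))) →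
    (R.om : ℝ) * w k - R.bl ≤ 10000000000 * zt k t w k
    ∧ 10000000000 * zt k t w k ≤ (R.om : ℝ) * w k + R.bh
    ∧ (D.ylo : ℝ) ≤ 10000000000 * (Xf k t w).im ∧ 10000000000 * (Xf k t w).im ≤ (D.yhi : ℝ)

/-- PACKET S3S (given AFS, GSER, BEB, EKN). Soundness of `s3C` and `serC`; `E = 10^4 em`.

Proof. `serC` covers `[0, M]` by 8 intervals of length `h = M/8 + 1` (integers, scaled): for
`0 ≤ a ≤ M`, `(gf t 0 a - gf t em a)/a = (c1 - c1') + a (c2 - c2') + a² (k3 - k3') ≤ ebt/10^10`,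
`ebt = bt E/10000 ≤ bt em`, so `bf t em a ≤ bt a` (`a = 0`: both sides `0`), and
`gf t 0 a ≤ k2 a²`. By BEB `|bf t e a| ≤ bt |a|` (`bt ≥ 1`). Let `β = bt`, `P̂ ≥ |el.a|`,
`Q̂ ≥ |el.b|`, `Ê ≥ |ek|` (`mag`). The `ek` terms: `b² (e+em) ek ≤ 0`; `-2 b g0 ek ≤ 0` for `a ≤ 0`, and
`≤ 2 β a k2 a² Ê ≤ c3 a²`, `c3 = 2 β k2 M Ê` for `a ≥ 0`. Then
`2 (a-x)² + 1.1 (x² + y²) - β |a| (P̂ |x| + Q̂ |y|) - c3 a² ≥ 0` from
`136.4 (2 - c3) ≥ 11 (4 + β P̂)² + 31 β² Q̂²`: `1.1 y² - β |a| Q̂ |y| ≥ -β² Q̂² a²/4.4`,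
`2 (a-x)² + 1.1 x² - β P̂ |a| |x| ≥ 2 a² - (4 + β P̂)² a²/12.4`. (Scales: everything times `10^40`.) -/
def S3sStmt : Prop :=
  ∀ (T : Tb AF) (P : Pm) (t z : ℝ) (E : ℕ) (D : Cd) (M cq : ℝ),
    0 < t → t ≤ Real.pi / 14 → 0 < E → E ≤ 2000 → TabAt T P ((E : ℝ) / 10000) t z →
    M = (D.M : ℝ) / 10000000000 → 0 < M → M ≤ 3 / 4 → 1 ≤ cq →
    (Real.exp M - 1) ^ 2 ≤ cq * M ^ 2 →
    s3C T.C D = true → serC T.K0 T.K1 (D.bt * E / 10000) D.k2 (D.M / 8 + 1) 8 0 = true →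
    ∀ e a x y : ℝ, 0 < e → e ≤ (E : ℝ) / 10000 → -1 ≤ a → a ≤ M →
      |bf t e a| ≤ (D.bt : ℝ) / 10000000000 * |a| ∧ 0 ≤ a * bf t e a ∧
      -(bf t e a * (mkCf P t).el.ev x y) - 2 * bf t e a * gf t 0 a * (mkCf P t).ek
          + bf t e a ^ 2 * (e + (E : ℝ) / 10000) * (mkCf P t).ek
        ≤ 2 * (a - x) ^ 2 + 11 / 10 * (x ^ 2 + y ^ 2)

/-- PACKET BRS (given AFS, GSER). Soundness of `Tr.runB`, by induction on the tree; the leaf: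
`brA` encloses `Br` because all three `g_i` are of the form `gf t 0 a - a β'`, `0 ≤ β' ≤ eh/10^10`,
hence enclosed by the form `G` (with the same noise values); `3 • A3`, `6 • A4`, `10 • A5`: products of
`A3` with each `g_i`, etc. (distribute and use that each monomial `g_i g_j` is enclosed by `G * G`,
sums of six of them by `6 •`; note that the affine expression is
`A2 + G (3 A3 + G (6 A4 + 10 (A5 G)))`, so prove: if `A, B, C, D, G` enclose `α, β, γ, δ` and all `g_i`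
then the affine expression encloses `α + β (∑ g_i) + γ h_2 + δ h_3`. One way: it suffices to bound
the radius: `G` encloses `g_i`, all `g_i` have the same centre form; write `g_i = ĝ + ε_i` and use the
worst case; or simpler: the product form encloses `g (3 α + g' (6 β + 10 γ g''))` for all `g, g', g''`
in the convex hull of `g_0, g_1, g_2`, and `h_1/3, h_2/6, h_3/10` are averages of such products: the
set of triples; the target is an average of values `v(g, g', g'')` over all choices, since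
`h_3/10`, `h_2/6`, `h_1/3` are averages of monomials `g g' g''`, `g g'`, `g` over multisets; choose a
probability measure on triples with these three marginals, e.g. uniform on multisets of size 3, whose
`2`- and `1`-marginals are also uniform on multisets.) Enclosure is a convex condition. -/
def BrsStmt : Prop :=
  ∀ (T : Tb AF) (P : Pm) (em t z : ℝ) (eh om : ℤ) (tr : Tr) (X0 X1 Y0 Y1 d0 d1 : ℤ),
    0 < t → t ≤ Real.pi / 14 → 0 ≤ em → em ≤ 1 / 5 → TabAt T P em t z → 0 ≤ eh →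
    Tr.runB T.C T.K0 eh om tr X0 X1 Y0 Y1 d0 d1 = true →
    ∀ a y ζ b0 b1 b2 : ℝ, -1 ≤ a → a ≤ 3 / 4 →
      (X0 : ℝ) ≤ 10000000000 * a → 10000000000 * a ≤ X1 →
      (Y0 : ℝ) ≤ 10000000000 * y → 10000000000 * y ≤ Y1 →
      (om : ℝ) * a + d0 ≤ 10000000000 * ζ → 10000000000 * ζ ≤ (om : ℝ) * a + d1 →
      0 ≤ b0 → 10000000000 * b0 ≤ eh → 0 ≤ b1 → 10000000000 * b1 ≤ eh →
      0 ≤ b2 → 10000000000 * b2 ≤ eh →
      Br (mkCf P t) a (a - ζ) y ζ (gf t 0 a - a * b0) (gf t 0 a - a * b1) (gf t 0 a - a * b2) ≤ 0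

/-- existence of a tree -/
def RunOK (md ch : ℕ) (C : Cf AF) (K : Gs AF) (R : Rg) (x0 X0 X1 Y0 Y1 : ℤ) : Prop :=
  ∃ tr : Tr, Tr.run md ch C K R x0 tr X0 X1 Y0 Y1 (-100000000000) 100000000000 = true

/-- The six tree checks for the mode `md`. -/
structure Six (md : ℕ) (C : Cf AF) (K : Gs AF) (R : Rg) (D : Cd) (x0 : ℤ) : Prop where
  h0 : 0 ≤ x0 ∧ x0 ≤ 10000000000
  A : RunOK md 0 C K R x0 0 x0 (-10000000000) 10000000000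
  a : RunOK md 0 C K R x0 (-x0) 0 (-10000000000) 10000000000
  B : RunOK md 1 C K R x0 0 D.yhi (-10000000000) 10000000000
  b : RunOK md 1 C K R x0 D.ylo 0 (-10000000000) 10000000000
  P : RunOK md 2 C K R x0 x0 D.M D.ylo D.yhi
  N : RunOK md 2 C K R x0 (-D.m) (-x0) D.ylo D.yhi

/-- PACKET SIX (given TREE). The six checks give positivity on the region.

Proof. Let `|a| ≤ x0`. If `|y| ≤ |a|`, `a ≠ 0`: chart `0`, `X = a`, `Y = y/a ∈ [-1,1]`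
(`X ∈ [0,x0]` or `[-x0,0]`): `a^4` or `a²` `≤ 10^10 Phi` and `a² ≥ a⁴`. If `|a| ≤ |y|`, `y ≠ 0`: chart
`1`, `X = y`, `Y = a/y`, `|X Y| = |a| ≤ x0`: `y^4 ≥ a^4`, `y² ≥ a² ≥ a⁴`. If `a = y = 0`: chart `0` with
`X = 0`. If `|a| ≥ x0`: chart `2`, `1 ≥ a⁴` (`|a| ≤ 1`). The bounds `|ζ| ≤ 10` follow from the region
(`|om|, |bl|, |bh| ≤ 4·10^10`). -/
def SixStmt : Prop :=
  ∀ (md : ℕ) (C : Cf AF) (K : Gs AF) (R : Rg) (D : Cd) (x0 : ℤ), Six md C K R D x0 →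
    0 ≤ R.om → R.om ≤ 40000000000 → |R.bl| ≤ 40000000000 → |R.bh| ≤ 40000000000 →
    D.m ≤ 10000000000 → D.M ≤ 10000000000 →
    ∀ (z : ℝ) (Cr : Cf ℝ) (Kr : Gs ℝ), |z| ≤ 1 →
    (∀ x y : ℝ, |x| ≤ 1 → |y| ≤ 1 → EncCf C x y z Cr) →
    (∀ x y : ℝ, |x| ≤ 1 → |y| ≤ 1 → EncGs K x y z Kr) →
    (md = 0 → Kr.c1 = 0 ∧ Kr.c2 = Cr.g2h) →
    ∀ a y ζ : ℝ, -(D.m : ℝ) ≤ 10000000000 * a → 10000000000 * a ≤ D.M →
      (D.ylo : ℝ) ≤ 10000000000 * y → 10000000000 * y ≤ D.yhi →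
      (R.om : ℝ) * a - R.bl ≤ 10000000000 * ζ → 10000000000 * ζ ≤ (R.om : ℝ) * a + R.bh →
      (md = 0 → a ^ 4 ≤ 10000000000 * Phi Cr 0 a (a - ζ) y ζ (Kr.ev a))
      ∧ (md ≠ 0 → a ^ 4 ≤ 10000000000 * Phi Cr 1 a (a - ζ) y ζ (Kr.ev a))

/-- All checks of a cell. -/
structure CellRun (Q : PmA) (E t0 t1 ns cq : ℕ) (T : Tb AF) (R : Rg) (D : Cd) (x0 x1 : ℤ) :
    Prop where
  tbl : tblOK Q (AF.cst (E * 1000000) 0 0) (AF.cst ((10000 - E) * 1000000) 0 0) t0 t1 ns T ns = true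
  c80 : T.K0.c8 = AF.cst 0 0 1450000
  c81 : T.K1.c8 = AF.cst 0 0 1450000
  sc : scC T E R D = true
  six0 : Six 0 T.C T.K0 R D x0
  six1 : Six 1 (T.C.mdA E) (T.K1.shA (w2n E t1 cq)) R D x1
  br : ∃ tr : Tr, Tr.runB T.C T.K0 (D.bt * E / 10000 + 1) R.om tr (-D.m) D.M D.ylo D.yhi
    (-R.bl) R.bh = true
  ok : 0 < ns ∧ t0 ≤ t1 ∧ 0 < E ∧ E ≤ 2000 ∧ t1 ≤ 2245000000 ∧ 0 ≤ R.om ∧ R.om ≤ 40000000000
    ∧ |R.bl| ≤ 40000000000 ∧ |R.bh| ≤ 40000000000 ∧ D.m ≤ 10000000000 ∧ 0 < D.M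
    ∧ 4 * D.M ≤ 30000000000 ∧ 10000 ≤ cq

/-- The positivity of the decrement for all windows in the box, all `e ∈ [0, em]`. -/
def CellPos (k : ℕ) (P : Pm) (em m M : ℝ) : Prop :=
  0 < P.r1 ∧ 0 ≤ P.c1h ∧ P.c1h * gg P (tau k) < P.r1 ∧
  ∀ e : ℝ, 0 ≤ e → e ≤ em → ∀ w : ℕ → ℝ, (∀ j ≤ k, -m ≤ w j ∧ w j ≤ M) →
    (∀ j < k, -(PL.FF (pp (tau k)) M) ≤ w j - w (j + 1)
      ∧ w j - w (j + 1) ≤ -(PL.FF (pp (tau k)) (-m))) →
    w k ^ 4 ≤ 10000000000 * Phi (mkCf P (tau k)) e (w k) (Xf k (tau k) w).re (Xf k (tau k) w).im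
      (zt k (tau k) w k) (gf (tau k) e (w k))

/-- PACKET CELL (given AFS, TBL, CST, WND, GSER, EINT, BEB, RGS, S3S, BRS, SIX). A cell.

Proof. TBL gives `z` and `TabAt` at `t = tau k`. RGS: the region inequalities for `a = w k`,
`ζ = zt k t w k`, `y = Im X`, and `Re X = a - ζ` (WND). `e = 0`: SIX with md = 0, `Cr = mkCf P t`,
`Kr = mkGs t 0 c8` (GSER at `a`). `e > 0`: EINT with `g0 = gf t 0 a`, `b = bf t e a`
(`g0 - e b = gf t e a`): the bracket by BRS (`b_i a = 0, e b, em b` with `b = a β`, `β = b/a ∈ [0, bt]`,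
if `a = 0` then `b = 0` and `b² Br = 0`), the rest by S3S, `Phi (C.md em) 1 ... (g0 - em b)` by SIX with
md = 1: `Cr = (mkCf P t).md em`, `Kr = mkGs t em c8` with `c2` replaced by `c2 + r`,
`g0 - em b = gf t em a + r a²`, `0 ≤ r ≤ em² t cq ≤ w/10^10` (BEB; `w = w2n E t1 cq`), enclosed by
`mdA`, `shA` (AFS). The combination `(1 - e/em) u + (e/em) v ≥ a⁴/10^10`. -/
def CellStmt : Prop :=
  ∀ (Q : PmA) (P : Pm) (E t0 t1 ns cq : ℕ) (T : Tb AF) (R : Rg) (D : Cd) (x0 x1 : ℤ) (M : ℝ),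
    CellRun Q E t0 t1 ns cq T R D x0 x1 → EncP Q P → 0 ≤ P.c1h →
    M = (D.M : ℝ) / 10000000000 → (Real.exp M - 1) ^ 2 ≤ (cq : ℝ) / 10000 * M ^ 2 →
    ∀ k : ℕ, 3 ≤ k → (t0 : ℝ) ≤ 10000000000 * tau k → 10000000000 * tau k ≤ t1 →
      CellPos k P ((E : ℝ) / 10000) ((D.m : ℝ) / 10000000000) M

/-- PACKET CONV (given CST, NLB). Convergence in the box from `CellPos`.

Proof. `t = tau k`, `pc k = pp t`, `p = (1 - e) pp t`, `e ∈ [0, em]`. `y = log X`,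
`y_{n+k+1} = y_{n+k} - FF p (y_n)`. For `n ≥ N + k + 1` the window `w^n_j = y_{n+k-j}` (`j ≤ k`; put
`w^n_j = 0` for `j > k`, or any function which agrees) satisfies the hypotheses of `CellPos`
(`w_j - w_{j+1} = -FF p (y_{n-j-1})`, `FF` is monotone in both arguments in the sense
`FF p v ≤ FF (pp t) M` for `v ≤ M`, `0 ≤ M`, and `-FF p v ≤ -FF (pp t) (-m)` for `v ≥ -m`, `0 ≤ m`).
`w^{n+1}` agrees with `nx k (pp t) (θ g) (w^n)` on `j ≤ k`, `g = gf t e (y_n)`: indeed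
`p_c y + θ g = FF p y`. `Vf` depends only on `w_0..w_k`. NLB: `Vf (w^n) - Vf (w^{n+1}) ≥
θ Phi ≥ θ 10^{-10} y_n⁴`. `Vf (w^n)` is bounded below since all `w_j` are bounded. So `∑ y_n⁴ < ∞` and
`y_n → 0` (`PL.lyap` in `Pool/Agent/Helper30/PL/Two.lean` may help). -/
def ConvStmt : Prop :=
  ∀ (k : ℕ) (P : Pm) (em m M p : ℝ) (X : ℕ → ℝ), 3 ≤ k → 0 ≤ m → 0 ≤ M → em < 1 →
    CellPos k P em m M → (1 - em) * pc k ≤ p → p ≤ pc k → SolX k p X →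
    (∀ᶠ n in atTop, -m ≤ Real.log (X n) ∧ Real.log (X n) ≤ M) → Tendsto X atTop (𝓝 1)

/-- the centre of a form -/
noncomputable def AF.ctr (A : AF) : ℝ := ((A.cp : ℝ) - A.cn) / 10000000000

/-- no noise parts -/
def AF.isC (A : AF) : Bool :=
  Nat.beq A.xp 0 && Nat.beq A.xn 0 && Nat.beq A.yp 0 && Nat.beq A.yn 0 && Nat.beq A.zp 0
    && Nat.beq A.zn 0

/-- the parameters -/
noncomputable def PmA.toPm (Q : PmA) : Pm where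
  c1h := Q.c1h.ctr
  r1 := Q.r1.ctr
  A := Q.A.ctr
  c40 := ⟨Q.c40.re.ctr, Q.c40.im.ctr⟩
  c31 := ⟨Q.c31.re.ctr, Q.c31.im.ctr⟩
  c22 := Q.c22.ctr
  c50 := ⟨Q.c50.re.ctr, Q.c50.im.ctr⟩
  c41 := ⟨Q.c41.re.ctr, Q.c41.im.ctr⟩
  c32 := ⟨Q.c32.re.ctr, Q.c32.im.ctr⟩
  xi := ⟨Q.xi.re.ctr, Q.xi.im.ctr⟩
  nu0 := ⟨Q.nu0.re.ctr, Q.nu0.im.ctr⟩
  nu1 := ⟨Q.nu1.re.ctr, Q.nu1.im.ctr⟩
  nu2 := ⟨Q.nu2.re.ctr, Q.nu2.im.ctr⟩
  nu3 := ⟨Q.nu3.re.ctr, Q.nu3.im.ctr⟩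

/-- all entries are constants -/
def PmA.isC (Q : PmA) : Bool :=
  Q.c1h.isC && Q.r1.isC && Q.A.isC && Q.c40.re.isC && Q.c40.im.isC && Q.c31.re.isC && Q.c31.im.isC
    && Q.c22.isC && Q.c50.re.isC && Q.c50.im.isC && Q.c41.re.isC && Q.c41.im.isC && Q.c32.re.isC
    && Q.c32.im.isC && Q.xi.re.isC && Q.xi.im.isC && Q.nu0.re.isC && Q.nu0.im.isC && Q.nu1.re.isC
    && Q.nu1.im.isC && Q.nu2.re.isC && Q.nu2.im.isC && Q.nu3.re.isC && Q.nu3.im.isC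
    && Nat.ble Q.c1h.cn Q.c1h.cp

/-- PACKET MISC. Parameters; the exponential at the box ends; the range of `tau`.

Proof. (1) by definition. (2) `Real.exp` bounds, e.g. `Real.exp_one_lt_d9`, Taylor
(`Real.exp_bound'`), `e^{0.75} = 2.1170000166...`, etc. (values `((e^M - 1)/M)²·10^4`: 22181.6,
20973.4, 20060.6, 19839.2, 19405.9, 19192.1, 18774.5, 18366.6, 18067.5, 17773.3, 17390.1 rounded up).
(3) `Real.pi_gt_d20`, `Real.pi_lt_d20` (`tau k` decreasing in `k`). -/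
def MiscStmt : Prop :=
  (∀ Q : PmA, Q.isC = true → EncP Q Q.toPm ∧ 0 ≤ Q.toPm.c1h)
  ∧ (∀ q ∈ [((75 : ℝ) / 100, (22182 : ℝ)), (70 / 100, 20974), (66 / 100, 20061), (65 / 100, 19840),
      (63 / 100, 19406), (62 / 100, 19193), (60 / 100, 18775), (58 / 100, 18367),
      (565 / 1000, 18068), (55 / 100, 17774), (53 / 100, 17391)],
      (Real.exp q.1 - 1) ^ 2 ≤ q.2 / 10000 * q.1 ^ 2)
  ∧ (∀ q ∈ [((3 : ℕ), (3 : ℕ), (2243994751 : ℝ), (2243994754 : ℝ)),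
      (4, 4, 1745329250, 1745329253), (5, 5, 1427996659, 1427996662),
      (6, 6, 1208304865, 1208304868), (7, 7, 1047197550, 1047197553), (8, 8, 923997838, 923997841),
      (9, 10, 747998249, 826734910), (11, 13, 581776416, 682954926), (14, 18, 424539546, 541653907),
      (19, 30, 257507593, 402768290), (31, 60, 129817877, 249332752),
      (61, 120, 65178269, 127707020)],
      ∀ k : ℕ, q.1 ≤ k → k ≤ q.2.1 → q.2.2.1 ≤ 10000000000 * tau k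
        ∧ 10000000000 * tau k ≤ q.2.2.2)
  ∧ (∀ k : ℕ, 121 ≤ k → 0 ≤ 10000000000 * tau k ∧ 10000000000 * tau k ≤ 64641826)

end Pool.Agent.Helper30.DL
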