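import Pool.Agent.Helper30.DL.Chk2

/-!
MP_b4564f_an, all delays. Table checks in segments.
-/

set_option autoImplicit false

namespace Pool.Agent.Helper30.DL

/-- check of the subcells `lo ≤ j < lo + n` -/
def tblSeg (P : PmA) (e e1 : AF) (t0 t1 ns : Nat) (T : Tb AF) (lo : Nat) : Nat → Bool
  | 0 => true
  | n + 1 => tbl1 P e e1 t0 t1 ns (Nat.add lo n) T && tblSeg P e e1 t0 t1 ns T lo n

lemma tblOK_seg {P : PmA} {e e1 : AF} {t0 t1 ns : Nat} {T : Tb AF} (lo : Nat)
    (h0 : tblOK P e e1 t0 t1 ns T lo = true) :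
    ∀ n : Nat, tblSeg P e e1 t0 t1 ns T lo n = true → tblOK P e e1 t0 t1 ns T (lo + n) = true
  | 0, _ => h0
  | n + 1, h => by
      simp only [tblSeg, Bool.and_eq_true] at h
      have := tblOK_seg lo h0 n h.2
      rw [← Nat.add_assoc]
      simp only [tblOK, Bool.and_eq_true]
      exact ⟨h.1, this⟩

end Pool.Agent.Helper30.DL
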