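import Pool.Agent.Helper30.DL.All
import Pool.Agent.Helper30.DL.FinA
import Pool.Agent.Helper30.DL.Run.F
import Pool.Agent.Helper30.PL.Two
import Pool.Agent.Helper32.PL.HALF

/-!
MP_b4564f_an, all delays. From the packets to the theorem, part B: the cells.
-/

set_option autoImplicit false

open Filter Topology Finset

namespace Pool.Agent.Helper30.DL

lemma cp3 {k : ℕ} (h1 : 3 ≤ k) (h2 : k ≤ 3) : CellPos k P3.toPm (1 / 5) (1) (75 / 100) :=
  cellPos_of hCell hMisc cr3 (by decide +kernel) (by norm_num [D3]) (by norm_num [D3])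
    (by norm_num) (c := 22182) (by norm_num)
    (by have := hMisc.2.1 (75 / 100, 22182) (by simp); norm_num at this ⊢; exact this) (by omega)
    (u0 := 2243994751) (u1 := 2243994754) (by norm_num) (by norm_num)
    (hMisc.2.2.1 (3, 3, 2243994751, 2243994754) (by simp) k h1 h2)

lemma cp4 {k : ℕ} (h1 : 4 ≤ k) (h2 : k ≤ 4) : CellPos k P4.toPm (1 / 5) (97 / 100) (70 / 100) :=
  cellPos_of hCell hMisc cr4 (by decide +kernel) (by norm_num [D4]) (by norm_num [D4])
    (by norm_num) (c := 20974) (by norm_num)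
    (by have := hMisc.2.1 (70 / 100, 20974) (by simp); norm_num at this ⊢; exact this) (by omega)
    (u0 := 1745329250) (u1 := 1745329253) (by norm_num) (by norm_num)
    (hMisc.2.2.1 (4, 4, 1745329250, 1745329253) (by simp) k h1 h2)

lemma cp5 {k : ℕ} (h1 : 5 ≤ k) (h2 : k ≤ 5) : CellPos k P5.toPm (1 / 5) (93 / 100) (66 / 100) :=
  cellPos_of hCell hMisc cr5 (by decide +kernel) (by norm_num [D5]) (by norm_num [D5])
    (by norm_num) (c := 20061) (by norm_num)
    (by have := hMisc.2.1 (66 / 100, 20061) (by simp); norm_num at this ⊢; exact this) (by omega)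
    (u0 := 1427996659) (u1 := 1427996662) (by norm_num) (by norm_num)
    (hMisc.2.2.1 (5, 5, 1427996659, 1427996662) (by simp) k h1 h2)

lemma cp6 {k : ℕ} (h1 : 6 ≤ k) (h2 : k ≤ 6) : CellPos k P6.toPm (1 / 5) (92 / 100) (65 / 100) :=
  cellPos_of hCell hMisc cr6 (by decide +kernel) (by norm_num [D6]) (by norm_num [D6])
    (by norm_num) (c := 19840) (by norm_num)
    (by have := hMisc.2.1 (65 / 100, 19840) (by simp); norm_num at this ⊢; exact this) (by omega)
    (u0 := 1208304865) (u1 := 1208304868) (by norm_num) (by norm_num)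
    (hMisc.2.2.1 (6, 6, 1208304865, 1208304868) (by simp) k h1 h2)

lemma cp7 {k : ℕ} (h1 : 7 ≤ k) (h2 : k ≤ 7) : CellPos k P7.toPm (1 / 5) (90 / 100) (63 / 100) :=
  cellPos_of hCell hMisc cr7 (by decide +kernel) (by norm_num [D7]) (by norm_num [D7])
    (by norm_num) (c := 19406) (by norm_num)
    (by have := hMisc.2.1 (63 / 100, 19406) (by simp); norm_num at this ⊢; exact this) (by omega)
    (u0 := 1047197550) (u1 := 1047197553) (by norm_num) (by norm_num)
    (hMisc.2.2.1 (7, 7, 1047197550, 1047197553) (by simp) k h1 h2)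

lemma cp8 {k : ℕ} (h1 : 8 ≤ k) (h2 : k ≤ 8) : CellPos k P8.toPm (1 / 5) (89 / 100) (62 / 100) :=
  cellPos_of hCell hMisc cr8 (by decide +kernel) (by norm_num [D8]) (by norm_num [D8])
    (by norm_num) (c := 19193) (by norm_num)
    (by have := hMisc.2.1 (62 / 100, 19193) (by simp); norm_num at this ⊢; exact this) (by omega)
    (u0 := 923997838) (u1 := 923997841) (by norm_num) (by norm_num)
    (hMisc.2.2.1 (8, 8, 923997838, 923997841) (by simp) k h1 h2)

lemma cp9 {k : ℕ} (h1 : 9 ≤ k) (h2 : k ≤ 10) : CellPos k P9.toPm (1 / 5) (87 / 100) (60 / 100) :=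
  cellPos_of hCell hMisc cr9 (by decide +kernel) (by norm_num [D9]) (by norm_num [D9])
    (by norm_num) (c := 18775) (by norm_num)
    (by have := hMisc.2.1 (60 / 100, 18775) (by simp); norm_num at this ⊢; exact this) (by omega)
    (u0 := 747998249) (u1 := 826734910) (by norm_num) (by norm_num)
    (hMisc.2.2.1 (9, 10, 747998249, 826734910) (by simp) k h1 h2)

lemma cp11 {k : ℕ} (h1 : 11 ≤ k) (h2 : k ≤ 13) : CellPos k P11.toPm (1 / 5) (85 / 100) (58 / 100) :=
  cellPos_of hCell hMisc cr11 (by decide +kernel) (by norm_num [D11]) (by norm_num [D11])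
    (by norm_num) (c := 18367) (by norm_num)
    (by have := hMisc.2.1 (58 / 100, 18367) (by simp); norm_num at this ⊢; exact this) (by omega)
    (u0 := 581776416) (u1 := 682954926) (by norm_num) (by norm_num)
    (hMisc.2.2.1 (11, 13, 581776416, 682954926) (by simp) k h1 h2)

lemma cp14 {k : ℕ} (h1 : 14 ≤ k) (h2 : k ≤ 18) : CellPos k P14.toPm (1 / 5) (83 / 100) (565 / 1000) :=
  cellPos_of hCell hMisc cr14 (by decide +kernel) (by norm_num [D14]) (by norm_num [D14])
    (by norm_num) (c := 18068) (by norm_num)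
    (by have := hMisc.2.1 (565 / 1000, 18068) (by simp); norm_num at this ⊢; exact this) (by omega)
    (u0 := 424539546) (u1 := 541653907) (by norm_num) (by norm_num)
    (hMisc.2.2.1 (14, 18, 424539546, 541653907) (by simp) k h1 h2)

lemma cp19 {k : ℕ} (h1 : 19 ≤ k) (h2 : k ≤ 30) : CellPos k P19.toPm (3 / 20) (81 / 100) (55 / 100) :=
  cellPos_of hCell hMisc cr19 (by decide +kernel) (by norm_num [D19]) (by norm_num [D19])
    (by norm_num) (c := 17774) (by norm_num)
    (by have := hMisc.2.1 (55 / 100, 17774) (by simp); norm_num at this ⊢; exact this) (by omega)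
    (u0 := 257507593) (u1 := 402768290) (by norm_num) (by norm_num)
    (hMisc.2.2.1 (19, 30, 257507593, 402768290) (by simp) k h1 h2)

lemma cp31 {k : ℕ} (h1 : 31 ≤ k) (h2 : k ≤ 60) : CellPos k P31.toPm (3 / 20) (785 / 1000) (530 / 1000) :=
  cellPos_of hCell hMisc cr31 (by decide +kernel) (by norm_num [D31]) (by norm_num [D31])
    (by norm_num) (c := 17391) (by norm_num)
    (by have := hMisc.2.1 (53 / 100, 17391) (by simp); norm_num at this ⊢; exact this) (by omega)
    (u0 := 129817877) (u1 := 249332752) (by norm_num) (by norm_num)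
    (hMisc.2.2.1 (31, 60, 129817877, 249332752) (by simp) k h1 h2)

lemma cp61 {k : ℕ} (h1 : 61 ≤ k) (h2 : k ≤ 120) : CellPos k P61.toPm (3 / 20) (785 / 1000) (530 / 1000) :=
  cellPos_of hCell hMisc cr61 (by decide +kernel) (by norm_num [D61]) (by norm_num [D61])
    (by norm_num) (c := 17391) (by norm_num)
    (by have := hMisc.2.1 (53 / 100, 17391) (by simp); norm_num at this ⊢; exact this) (by omega)
    (u0 := 65178269) (u1 := 127707020) (by norm_num) (by norm_num)
    (hMisc.2.2.1 (61, 120, 65178269, 127707020) (by simp) k h1 h2)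

lemma cp121 {k : ℕ} (h1 : 121 ≤ k) : CellPos k P121.toPm (3 / 20) (785 / 1000) (530 / 1000) :=
  cellPos_of hCell hMisc cr121 (by decide +kernel) (by norm_num [D121]) (by norm_num [D121])
    (by norm_num) (c := 17391) (by norm_num)
    (by have := hMisc.2.1 (53 / 100, 17391) (by simp); norm_num at this ⊢; exact this) (by omega)
    (u0 := 0) (u1 := 64641826) (by norm_num) (by norm_num)
    (hMisc.2.2.2 k h1)

lemma ce3 {k : ℕ} (h1 : 3 ≤ k) (h2 : k ≤ 3) :
    ∃ P : Pm, CellPos k P (if k ≤ 18 then 1 / 5 else 3 / 20) (bm k) (bM k) := by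
  refine ⟨P3.toPm, ?_⟩
  have hb : bm k = 1 := by
    unfold bm
    rw [if_pos (by omega)]
  have hB : bM k = 75 / 100 := by
    unfold bM
    rw [if_pos (by omega)]
  rw [hb, hB, if_pos (by omega)]
  exact cp3 h1 h2

lemma ce4 {k : ℕ} (h1 : 4 ≤ k) (h2 : k ≤ 4) :
    ∃ P : Pm, CellPos k P (if k ≤ 18 then 1 / 5 else 3 / 20) (bm k) (bM k) := by
  refine ⟨P4.toPm, ?_⟩
  have hb : bm k = 97 / 100 := by
    unfold bm
    rw [if_neg (by omega), if_pos (by omega)]
  have hB : bM k = 70 / 100 := by
    unfold bM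
    rw [if_neg (by omega), if_pos (by omega)]
  rw [hb, hB, if_pos (by omega)]
  exact cp4 h1 h2

lemma ce5 {k : ℕ} (h1 : 5 ≤ k) (h2 : k ≤ 5) :
    ∃ P : Pm, CellPos k P (if k ≤ 18 then 1 / 5 else 3 / 20) (bm k) (bM k) := by
  refine ⟨P5.toPm, ?_⟩
  have hb : bm k = 93 / 100 := by
    unfold bm
    rw [if_neg (by omega), if_neg (by omega), if_pos (by omega)]
  have hB : bM k = 66 / 100 := by
    unfold bM
    rw [if_neg (by omega), if_neg (by omega), if_pos (by omega)]
  rw [hb, hB, if_pos (by omega)]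
  exact cp5 h1 h2

lemma ce6 {k : ℕ} (h1 : 6 ≤ k) (h2 : k ≤ 6) :
    ∃ P : Pm, CellPos k P (if k ≤ 18 then 1 / 5 else 3 / 20) (bm k) (bM k) := by
  refine ⟨P6.toPm, ?_⟩
  have hb : bm k = 92 / 100 := by
    unfold bm
    rw [if_neg (by omega), if_neg (by omega), if_neg (by omega), if_pos (by omega)]
  have hB : bM k = 65 / 100 := by
    unfold bM
    rw [if_neg (by omega), if_neg (by omega), if_neg (by omega), if_pos (by omega)]
  rw [hb, hB, if_pos (by omega)]
  exact cp6 h1 h2

lemma ce7 {k : ℕ} (h1 : 7 ≤ k) (h2 : k ≤ 7) :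
    ∃ P : Pm, CellPos k P (if k ≤ 18 then 1 / 5 else 3 / 20) (bm k) (bM k) := by
  refine ⟨P7.toPm, ?_⟩
  have hb : bm k = 90 / 100 := by
    unfold bm
    rw [if_neg (by omega), if_neg (by omega), if_neg (by omega), if_neg (by omega), if_pos (by omega)]
  have hB : bM k = 63 / 100 := by
    unfold bM
    rw [if_neg (by omega), if_neg (by omega), if_neg (by omega), if_neg (by omega), if_pos (by omega)]
  rw [hb, hB, if_pos (by omega)]
  exact cp7 h1 h2

lemma ce8 {k : ℕ} (h1 : 8 ≤ k) (h2 : k ≤ 8) :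
    ∃ P : Pm, CellPos k P (if k ≤ 18 then 1 / 5 else 3 / 20) (bm k) (bM k) := by
  refine ⟨P8.toPm, ?_⟩
  have hb : bm k = 89 / 100 := by
    unfold bm
    rw [if_neg (by omega), if_neg (by omega), if_neg (by omega), if_neg (by omega), if_neg (by omega), if_pos (by omega)]
  have hB : bM k = 62 / 100 := by
    unfold bM
    rw [if_neg (by omega), if_neg (by omega), if_neg (by omega), if_neg (by omega), if_neg (by omega), if_pos (by omega)]
  rw [hb, hB, if_pos (by omega)]
  exact cp8 h1 h2

lemma ce9 {k : ℕ} (h1 : 9 ≤ k) (h2 : k ≤ 10) :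
    ∃ P : Pm, CellPos k P (if k ≤ 18 then 1 / 5 else 3 / 20) (bm k) (bM k) := by
  refine ⟨P9.toPm, ?_⟩
  have hb : bm k = 87 / 100 := by
    unfold bm
    rw [if_neg (by omega), if_neg (by omega), if_neg (by omega), if_neg (by omega), if_neg (by omega), if_neg (by omega), if_pos (by omega)]
  have hB : bM k = 60 / 100 := by
    unfold bM
    rw [if_neg (by omega), if_neg (by omega), if_neg (by omega), if_neg (by omega), if_neg (by omega), if_neg (by omega), if_pos (by omega)]
  rw [hb, hB, if_pos (by omega)]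
  exact cp9 h1 h2

lemma ce11 {k : ℕ} (h1 : 11 ≤ k) (h2 : k ≤ 13) :
    ∃ P : Pm, CellPos k P (if k ≤ 18 then 1 / 5 else 3 / 20) (bm k) (bM k) := by
  refine ⟨P11.toPm, ?_⟩
  have hb : bm k = 85 / 100 := by
    unfold bm
    rw [if_neg (by omega), if_neg (by omega), if_neg (by omega), if_neg (by omega), if_neg (by omega), if_neg (by omega), if_neg (by omega), if_pos (by omega)]
  have hB : bM k = 58 / 100 := by
    unfold bM
    rw [if_neg (by omega), if_neg (by omega), if_neg (by omega), if_neg (by omega), if_neg (by omega), if_neg (by omega), if_neg (by omega), if_pos (by omega)]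
  rw [hb, hB, if_pos (by omega)]
  exact cp11 h1 h2

lemma ce14 {k : ℕ} (h1 : 14 ≤ k) (h2 : k ≤ 18) :
    ∃ P : Pm, CellPos k P (if k ≤ 18 then 1 / 5 else 3 / 20) (bm k) (bM k) := by
  refine ⟨P14.toPm, ?_⟩
  have hb : bm k = 83 / 100 := by
    unfold bm
    rw [if_neg (by omega), if_neg (by omega), if_neg (by omega), if_neg (by omega), if_neg (by omega), if_neg (by omega), if_neg (by omega), if_neg (by omega), if_pos (by omega)]
  have hB : bM k = 565 / 1000 := by
    unfold bM
    rw [if_neg (by omega), if_neg (by omega), if_neg (by omega), if_neg (by omega), if_neg (by omega), if_neg (by omega), if_neg (by omega), if_neg (by omega), if_pos (by omega)]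
  rw [hb, hB, if_pos (by omega)]
  exact cp14 h1 h2

lemma ce19 {k : ℕ} (h1 : 19 ≤ k) (h2 : k ≤ 30) :
    ∃ P : Pm, CellPos k P (if k ≤ 18 then 1 / 5 else 3 / 20) (bm k) (bM k) := by
  refine ⟨P19.toPm, ?_⟩
  have hb : bm k = 81 / 100 := by
    unfold bm
    rw [if_neg (by omega), if_neg (by omega), if_neg (by omega), if_neg (by omega), if_neg (by omega), if_neg (by omega), if_neg (by omega), if_neg (by omega), if_neg (by omega), if_pos (by omega)]
  have hB : bM k = 55 / 100 := by
    unfold bM
    rw [if_neg (by omega), if_neg (by omega), if_neg (by omega), if_neg (by omega), if_neg (by omega), if_neg (by omega), if_neg (by omega), if_neg (by omega), if_neg (by omega), if_pos (by omega)]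
  rw [hb, hB, if_neg (by omega)]
  exact cp19 h1 h2

lemma ce31 {k : ℕ} (h1 : 31 ≤ k) (h2 : k ≤ 60) :
    ∃ P : Pm, CellPos k P (if k ≤ 18 then 1 / 5 else 3 / 20) (bm k) (bM k) := by
  refine ⟨P31.toPm, ?_⟩
  have hb : bm k = 785 / 1000 := by
    unfold bm
    rw [if_neg (by omega), if_neg (by omega), if_neg (by omega), if_neg (by omega), if_neg (by omega), if_neg (by omega), if_neg (by omega), if_neg (by omega), if_neg (by omega), if_neg (by omega)]
  have hB : bM k = 530 / 1000 := by
    unfold bM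
    rw [if_neg (by omega), if_neg (by omega), if_neg (by omega), if_neg (by omega), if_neg (by omega), if_neg (by omega), if_neg (by omega), if_neg (by omega), if_neg (by omega), if_neg (by omega)]
  rw [hb, hB, if_neg (by omega)]
  exact cp31 h1 h2

lemma ce61 {k : ℕ} (h1 : 61 ≤ k) (h2 : k ≤ 120) :
    ∃ P : Pm, CellPos k P (if k ≤ 18 then 1 / 5 else 3 / 20) (bm k) (bM k) := by
  refine ⟨P61.toPm, ?_⟩
  have hb : bm k = 785 / 1000 := by
    unfold bm
    rw [if_neg (by omega), if_neg (by omega), if_neg (by omega), if_neg (by omega), if_neg (by omega), if_neg (by omega), if_neg (by omega), if_neg (by omega), if_neg (by omega), if_neg (by omega)]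
  have hB : bM k = 530 / 1000 := by
    unfold bM
    rw [if_neg (by omega), if_neg (by omega), if_neg (by omega), if_neg (by omega), if_neg (by omega), if_neg (by omega), if_neg (by omega), if_neg (by omega), if_neg (by omega), if_neg (by omega)]
  rw [hb, hB, if_neg (by omega)]
  exact cp61 h1 h2

lemma ce121 {k : ℕ} (h1 : 121 ≤ k) :
    ∃ P : Pm, CellPos k P (if k ≤ 18 then 1 / 5 else 3 / 20) (bm k) (bM k) := by
  refine ⟨P121.toPm, ?_⟩
  have hb : bm k = 785 / 1000 := by
    unfold bm
    rw [if_neg (by omega), if_neg (by omega), if_neg (by omega), if_neg (by omega), if_neg (by omega), if_neg (by omega), if_neg (by omega), if_neg (by omega), if_neg (by omega), if_neg (by omega)]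
  have hB : bM k = 530 / 1000 := by
    unfold bM
    rw [if_neg (by omega), if_neg (by omega), if_neg (by omega), if_neg (by omega), if_neg (by omega), if_neg (by omega), if_neg (by omega), if_neg (by omega), if_neg (by omega), if_neg (by omega)]
  rw [hb, hB, if_neg (by omega)]
  exact cp121 h1

theorem hCells : CellsStmt := by
  intro k hk
  by_cases c3 : k ≤ 3
  · exact ce3 (by omega) c3
  by_cases c4 : k ≤ 4
  · exact ce4 (by omega) c4
  by_cases c5 : k ≤ 5
  · exact ce5 (by omega) c5
  by_cases c6 : k ≤ 6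
  · exact ce6 (by omega) c6
  by_cases c7 : k ≤ 7
  · exact ce7 (by omega) c7
  by_cases c8 : k ≤ 8
  · exact ce8 (by omega) c8
  by_cases c9 : k ≤ 10
  · exact ce9 (by omega) c9
  by_cases c11 : k ≤ 13
  · exact ce11 (by omega) c11
  by_cases c14 : k ≤ 18
  · exact ce14 (by omega) c14
  by_cases c19 : k ≤ 30
  · exact ce19 (by omega) c19
  by_cases c31 : k ≤ 60
  · exact ce31 (by omega) c31
  by_cases c61 : k ≤ 120
  · exact ce61 (by omega) c61
  exact ce121 (by omega)

theorem all : AllStmt := by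
  intro k p X hp0 hp1 hp hX
  by_cases h1 : k ≤ 1
  · exact hKone k p X h1 hp0 hp1 hX
  by_cases h2 : k = 2
  · subst h2
    rcases le_total p (1 / 2) with h | h
    · exact Pool.Agent.Helper32.PL.half p X hp0 h hX.1 hX.2
    · exact Pool.Agent.Helper30.PL.conv_two h (by rw [← pc_two]; exact hp) hX.1 hX.2
  exact conv_ge3 hCells hConv hGas hBoxFin hBoxInf (by omega) hp0 hp hX

end Pool.Agent.Helper30.DL
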