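import Pool.Agent.Helper30.DL.FinA
import Pool.Agent.Helper90.PL.UNST
import Pool.Agent.Helper94.PL.ROOT
import Pool.Agent.Helper56.PL.GROWTH

/-!
MP_b4564f_an, all delays. From the packets to the theorem, part C: Pielou's equation.
-/

set_option autoImplicit false

open Filter Topology Finset

namespace Pool.Agent.Helper30.DL

lemma pos_all {α β : ℝ} {k : ℕ} (hα : 1 < α) (hβ : 0 < β) {x : ℕ → ℝ}
    (hx : ∀ n, x (n + k + 1) = α * x (n + k) / (1 + β * x n))
    (h0 : ∀ i ≤ k, 0 < x i) : ∀ n, 0 < x n := by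
  intro n
  induction n using Nat.strong_induction_on with
  | _ n ih =>
    by_cases hn : n ≤ k
    · exact h0 n hn
    · obtain ⟨m, rfl⟩ : ∃ m, n = m + k + 1 := ⟨n - k - 1, by omega⟩
      rw [hx m]
      have h1 := ih (m + k) (by omega)
      have h2 := ih m (by omega)
      positivity

lemma solX_of {α β : ℝ} {k : ℕ} (hα : 1 < α) (hβ : 0 < β) {x : ℕ → ℝ}
    (hx : ∀ n, x (n + k + 1) = α * x (n + k) / (1 + β * x n))
    (hpos : ∀ n, 0 < x n) : SolX k ((α - 1) / α) (fun n => β / (α - 1) * x n) := by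
  have hb : 0 < β / (α - 1) := div_pos hβ (by linarith)
  refine ⟨fun n => mul_pos hb (hpos n), fun n => ?_⟩
  have h := hx n
  have ha : α - 1 ≠ 0 := by linarith
  have ha' : α ≠ 0 := by linarith
  have hd : 1 + β * x n ≠ 0 := by have := hpos n; positivity
  have e : x (n + k + 1) * (1 + β * x n) = α * x (n + k) := by
    rw [h, div_mul_cancel₀ _ hd]
  simp only
  field_simp
  linear_combination e

/-- All positive solutions converge up to the critical value, all initial values positive. -/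
theorem conv_pos (hAll : AllStmt) {α β : ℝ} {k : ℕ} (hα : 1 < α) (hβ : 0 < β)
    (hc : (α - 1) / α ≤ 2 * Real.cos (k * Real.pi / (2 * k + 1))) {x : ℕ → ℝ}
    (hx : ∀ n, x (n + k + 1) = α * x (n + k) / (1 + β * x n))
    (h0 : ∀ i ≤ k, 0 < x i) : Tendsto x atTop (𝓝 ((α - 1) / β)) := by
  have hX := solX_of hα hβ hx (pos_all hα hβ hx h0)
  have hp0 : 0 < (α - 1) / α := div_pos (by linarith) (by linarith)
  have hp1 : (α - 1) / α < 1 := by rw [div_lt_one (by linarith)]; linarith
  rw [pc_cos] at hc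
  have hlim := hAll k _ _ hp0 hp1 hc hX
  have := hlim.const_mul ((α - 1) / β)
  rw [mul_one] at this
  refine this.congr fun n => ?_
  have ha : α - 1 ≠ 0 := by linarith
  field_simp

/-- The same for `x 0, …, x (k-1) ≥ 0`, `x k > 0`. -/
theorem conv_nonneg (hAll : AllStmt) {α β : ℝ} {k : ℕ} (hα : 1 < α) (hβ : 0 < β)
    (hc : (α - 1) / α ≤ 2 * Real.cos (k * Real.pi / (2 * k + 1))) {x : ℕ → ℝ}
    (hx : ∀ n, x (n + k + 1) = α * x (n + k) / (1 + β * x n))
    (h0 : ∀ i < k, 0 ≤ x i) (hk : 0 < x k) : Tendsto x atTop (𝓝 ((α - 1) / β)) := by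
  have hpos : ∀ i ≤ k, 0 < x (i + k) := by
    intro i
    induction i with
    | zero => intro _; simpa using hk
    | succ i ih =>
      intro hi
      have h1 := ih (by omega)
      have h2 := h0 i (by omega)
      rw [show i + 1 + k = i + k + 1 by ring, hx i]
      positivity
  have hx' : ∀ n, (fun n => x (n + k)) (n + k + 1)
      = α * (fun n => x (n + k)) (n + k) / (1 + β * (fun n => x (n + k)) n) := fun n => by
    have := hx (n + k)
    simp only
    rw [show n + k + 1 + k = n + k + k + 1 by ring]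
    exact this
  exact (tendsto_add_atTop_iff_nat k).mp (conv_pos hAll hα hβ hc hx' hpos)

/-- Beyond the critical value the equilibrium is not Lyapunov stable. -/
theorem unstable {α β : ℝ} {k : ℕ} (hα : 1 < α) (hβ : 0 < β)
    (hc : 2 * Real.cos (k * Real.pi / (2 * k + 1)) < (α - 1) / α) :
    ∃ ε : ℝ, 0 < ε ∧ ∀ δ : ℝ, 0 < δ → ∃ x : ℕ → ℝ,
      (∀ n, x (n + k + 1) = α * x (n + k) / (1 + β * x n)) ∧
      (∀ i ≤ k, 0 < x i) ∧
      (∀ i ≤ k, |x i - (α - 1) / β| < δ) ∧
      ∃ n, ε ≤ |x n - (α - 1) / β| :=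
  Pool.Agent.Helper90.PL.unstable Pool.Agent.Helper94.PL.root
    Pool.Agent.Helper56.PL.growth α β k hα hβ hc

end Pool.Agent.Helper30.DL
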