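import Mathlib

/-!
MP_b4564f_an, all delays. The polynomial lower bound `Phi` of the decrement of the functional and its
Taylor coefficients; polymorphic evaluation functions (real numbers / affine forms).
-/

set_option autoImplicit false

namespace Pool.Agent.Helper30.DL

/-- `a x + b y` -/
structure H1 (α : Type) where
  a : α
  b : α

/-- `a x^2 + b x y + c y^2` -/
structure H2 (α : Type) where
  a : α
  b : α
  c : α

/-- `a x^3 + b x^2 y + c x y^2 + d y^3` -/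
structure H3 (α : Type) where
  a : α
  b : α
  c : α
  d : α

/-- `a x^4 + b x^3 y + c x^2 y^2 + d x y^3 + e y^4` -/
structure H4 (α : Type) where
  a : α
  b : α
  c : α
  d : α
  e : α

/-- `a x^5 + b x^4 y + c x^3 y^2 + d x^2 y^3 + e x y^4 + f y^5` -/
structure H5 (α : Type) where
  a : α
  b : α
  c : α
  d : α
  e : α
  f : α

/-- All coefficients of the polynomial lower bound. -/
structure Cf (α : Type) where
  del : α
  cc : α
  g2h : α
  A : α
  H : α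
  h0 : α
  hx : H1 α
  h3 : α
  la : H1 α
  ca : α
  R4 : H4 α
  R5 : H5 α
  g1 : H2 α
  g1c : H3 α
  g1f : H4 α
  g2k : α
  g2l : H1 α
  g2q : H2 α
  g2c : H3 α
  g3k : α
  g3l : H1 α
  g3q : H2 α
  g4k : α
  g4l : H1 α
  g5k : α
  eq : H2 α
  el : H1 α
  ek : α

/-- Taylor coefficients of the nonlinearity,
`g = a (c1 + a (c2 + a (c3 + a (c4 + a (c5 + a (c6 + a (c7 + a c8)))))))`; `c8` is a remainder. -/
structure Gs (α : Type) where
  c1 : α
  c2 : α
  c3 : α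
  c4 : α
  c5 : α
  c6 : α
  c7 : α
  c8 : α

section ev
variable {α : Type} [Add α] [Mul α]

/-- evaluation -/
def H1.ev (h : H1 α) (x y : α) : α := h.a * x + h.b * y

end ev

/-- evaluation -/
def H2.ev (h : H2 ℝ) (x y : ℝ) : ℝ := h.a * x ^ 2 + h.b * (x * y) + h.c * y ^ 2

/-- evaluation -/
def H3.ev (h : H3 ℝ) (x y : ℝ) : ℝ :=
  h.a * x ^ 3 + h.b * (x ^ 2 * y) + h.c * (x * y ^ 2) + h.d * y ^ 3

/-- evaluation -/
def H4.ev (h : H4 ℝ) (x y : ℝ) : ℝ :=
  h.a * x ^ 4 + h.b * (x ^ 3 * y) + h.c * (x ^ 2 * y ^ 2) + h.d * (x * y ^ 3) + h.e * y ^ 4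

/-- evaluation -/
def H5.ev (h : H5 ℝ) (x y : ℝ) : ℝ :=
  h.a * x ^ 5 + h.b * (x ^ 4 * y) + h.c * (x ^ 3 * y ^ 2) + h.d * (x ^ 2 * y ^ 3)
    + h.e * (x * y ^ 4) + h.f * y ^ 5

/-- The polynomial lower bound of the (scaled) decrement. `a` oldest value, `x + i y = κ Z`,
`z = a - x`, `g = G/θ`, `e` the relative distance to the critical parameter. -/
def Phi (C : Cf ℝ) (e a x y z g : ℝ) : ℝ :=
  -(C.del * x + C.cc * y) * (g - C.g2h * x ^ 2)
    + z * (2 * C.g2h * x * (C.A * x + C.cc * y)) + C.H * z ^ 2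
    + z * g * (C.h0 + C.hx.ev x y + C.h3 * g)
    + a * g * C.la.ev x y + C.ca * a * g ^ 2
    + C.R4.ev x y + C.R5.ev x y
    + g * (C.g1.ev x y + C.g1c.ev x y + C.g1f.ev x y)
    + g ^ 2 * (C.g2k + C.g2l.ev x y + C.g2q.ev x y + C.g2c.ev x y)
    + g ^ 3 * (C.g3k + C.g3l.ev x y + C.g3q.ev x y)
    + g ^ 4 * (C.g4k + C.g4l.ev x y) + g ^ 5 * C.g5k
    + e * (C.eq.ev x y + g * C.el.ev x y + C.ek * g ^ 2)

/-- The nonlinearity from its coefficients. -/
def Gs.ev (K : Gs ℝ) (a : ℝ) : ℝ :=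
  a * (K.c1 + a * (K.c2 + a * (K.c3 + a * (K.c4 + a * (K.c5 + a * (K.c6
    + a * (K.c7 + a * K.c8)))))))

section leaf
variable {α : Type} [Add α] [Sub α] [Mul α] [Neg α] [SMul ℕ α]

/-- the tail `c3 + a (c4 + ...)` of the series -/
def k3 (K : Gs α) (a : α) : α :=
  K.c3 + a * (K.c4 + a * (K.c5 + a * (K.c6 + a * (K.c7 + a * K.c8))))

/-- Coefficients of the powers of `x` (in the scaled variables). -/
structure Dc (α : Type) where
  d0 : α
  d1 : α
  d2 : α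
  d3 : α
  d4 : α
  d5 : α

/-- The coefficients of the powers of `x`; `m0, m1, m2` are the scaled multipliers of the terms of
degree `0, 1, 2` in `g`; `G` is the absolute value of `g`; `b0, b1, b2` the contributions with `e`. -/
def dco (C : Cf α) (m0 m1 m2 G rho al y : α) (b0 : α) (b1 : H1 α) (b2 : H2 α) : Dc α :=
  let rm1 := rho * m1
  let rm2 := rho * m2
  let rm0 := rho * m0
  let am1 := al * m1
  let n1a := rm2 * (C.g2l.a + G * (C.g3l.a + G * C.g4l.a)) + am1 * C.la.a + b1.a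
  let n1b := rm2 * (C.g2l.b + G * (C.g3l.b + G * C.g4l.b)) + am1 * C.la.b + b1.b
  let n0 := m2 * (C.g2k + G * (C.g3k + G * (C.g4k + G * C.g5k))) + al * (rm2 * C.ca) + b0
  let n2a := m1 * (C.g1.a + G * (C.g2q.a + G * C.g3q.a)) + b2.a
  let n2b := m1 * (C.g1.b + G * (C.g2q.b + G * C.g3q.b)) + b2.b
  let n2c := m1 * (C.g1.c + G * (C.g2q.c + G * C.g3q.c)) + b2.c
  { d0 := n0 + y * (n1b + y * (n2c + y * (rm1 * (C.g1c.d + G * C.g2c.d)
      + y * (m0 * (C.R4.e + G * C.g1f.e) + y * (rm0 * C.R5.f)))))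
    d1 := n1a + y * (n2b + y * (rm1 * (C.g1c.c + G * C.g2c.c)
      + y * (m0 * (C.R4.d + G * C.g1f.d) + y * (rm0 * C.R5.e))))
    d2 := n2a + y * (rm1 * (C.g1c.b + G * C.g2c.b)
      + y * (m0 * (C.R4.c + G * C.g1f.c) + y * (rm0 * C.R5.d)))
    d3 := rm1 * (C.g1c.a + G * C.g2c.a)
      + y * (m0 * (C.R4.b + G * C.g1f.b) + y * (rm0 * C.R5.c))
    d4 := m0 * (C.R4.a + G * C.g1f.a) + y * (rm0 * C.R5.b)
    d5 := rm0 * C.R5.a }

/-- scaled value at the slice -/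
def T0f (C : Cf α) (D : Dc α) (m0 m1 G rho u y s G3 : α) : α :=
  D.d0 + u * (D.d1 + u * (D.d2 + u * (D.d3 + u * (D.d4 + u * D.d5))))
    + s * (m0 * (2 • (C.g2h * (u * (C.A * u + C.cc * y))))
      + m1 * (C.h0 + rho * C.hx.ev u y + G * C.h3))
    + m0 * (C.H * (s * s)) - (C.del * u + C.cc * y) * G3

/-- scaled derivative at the slice -/
def T1f (C : Cf α) (D : Dc α) (r1 e0 gam G rho u y s G3 : α) : α :=
  e0 * (2 • (C.g2h * (u * (C.A * u + C.cc * y)))) + gam * (C.h0 + rho * C.hx.ev u y + G * C.h3)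
    + e0 * (2 • (C.H * s)) + r1 * (C.del * G3) - e0 * (2 • (C.g2h * (u * (C.del * u + C.cc * y))))
    - (s * rho) * (e0 * (2 • (C.g2h * (2 • (C.A * u) + C.cc * y))) + gam * (rho * C.hx.a))
    - r1 * (D.d1 + u * (2 • D.d2 + u * (3 • D.d3 + u * (4 • D.d4 + u * (5 • D.d5)))))

/-- Coefficients of the curvature polynomial `q(Δ) = q0 + q1 Δ + q2 Δ² + q3 Δ³`. -/
structure Qc (α : Type) where
  q0 : α
  q1 : α
  q2 : α
  q3 : α

/-- absolute coefficients of the curvature; `b` is the contribution `e * eq.a` -/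
def qco (C : Cf α) (G y x zs b : α) : Qc α :=
  let D2 := C.g2h * (C.cc * y) + G * (C.g1.a + G * (C.g2q.a + G * C.g3q.a))
    + y * (G * (C.g1c.b + G * C.g2c.b) + y * (C.R4.c + G * C.g1f.c + y * C.R5.d)) + b
  let D3 := C.del * C.g2h + G * (C.g1c.a + G * C.g2c.a)
    + y * (C.R4.b + G * C.g1f.b + y * C.R5.c)
  let D4 := C.R4.a + G * C.g1f.a + y * C.R5.b
  let D5 := C.R5.a
  let E1 := 2 • (C.g2h * (C.cc * y)) + G * C.hx.a
  let E2 := 2 • (C.g2h * C.A)
  { q0 := D2 + x * (3 • D3 + x * (6 • D4 + x * (10 • D5))) + E2 * (zs - 2 • x) - E1 + C.H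
    q1 := E2 - D3 - x * (4 • D4 + x * (10 • D5))
    q2 := D4 + x * (5 • D5)
    q3 := -D5 }

end leaf

/-- the polynomial `q` -/
def Qc.ev (Q : Qc ℝ) (d : ℝ) : ℝ := Q.q0 + d * (Q.q1 + d * (Q.q2 + d * Q.q3))

/-- zero contributions -/
def z1 : H1 ℝ := ⟨0, 0⟩

/-- zero contributions -/
def z2 : H2 ℝ := ⟨0, 0, 0⟩

/-- Taylor expansion in `Δ` at the slice, scaling with `g = ρ² γ` (for `e = 0`). -/
theorem phi_split4 (C : Cf ℝ) (rho al y s gam G3 d : ℝ)
    (hG : rho ^ 2 * gam - C.g2h * (rho * (al - rho * s)) ^ 2 = rho ^ 3 * G3) :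
    Phi C 0 (rho * al) (rho * al - (rho ^ 2 * s + d)) (rho * y) (rho ^ 2 * s + d) (rho ^ 2 * gam)
      = rho ^ 4 * T0f C (dco C 1 gam (gam * gam) (rho * rho * gam) rho al y 0 z1 z2) 1 gam
          (rho * rho * gam) rho (al - rho * s) y s G3
        + rho ^ 2 * T1f C (dco C 1 gam (gam * gam) (rho * rho * gam) rho al y 0 z1 z2) rho 1 gam
          (rho * rho * gam) rho (al - rho * s) y s G3 * d
        + (qco C (rho * rho * gam) (rho * y) (rho * al - rho ^ 2 * s) (rho ^ 2 * s) 0).ev d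
          * d ^ 2 := by
  have h1 : G3 * rho ^ 3 = rho ^ 2 * gam - C.g2h * (rho * (al - rho * s)) ^ 2 := by rw [hG]; ring
  simp only [Phi, T0f, T1f, dco, qco, Qc.ev, H1.ev, H2.ev, H3.ev, H4.ev, H5.ev, z1, z2,
    nsmul_eq_mul]
  push_cast
  linear_combination (C.del * rho * (al - rho * s) + C.cc * (rho * y) - C.del * d) * h1

/-- Taylor expansion in `Δ` at the slice, scaling with `g = ρ γ`. -/
theorem phi_split2 (C : Cf ℝ) (e rho al y s gam d : ℝ) :
    Phi C e (rho * al) (rho * al - (rho ^ 2 * s + d)) (rho * y) (rho ^ 2 * s + d) (rho * gam)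
      = rho ^ 2 * T0f C (dco C (rho * rho) (rho * gam) (gam * gam) (rho * gam) rho al y
            (e * (C.ek * (gam * gam))) ⟨e * (gam * C.el.a), e * (gam * C.el.b)⟩
            ⟨e * C.eq.a, e * C.eq.b, e * C.eq.c⟩) (rho * rho) (rho * gam)
          (rho * gam) rho (al - rho * s) y s (gam - rho * (C.g2h * (al - rho * s) ^ 2))
        + rho * T1f C (dco C (rho * rho) (rho * gam) (gam * gam) (rho * gam) rho al y
            (e * (C.ek * (gam * gam))) ⟨e * (gam * C.el.a), e * (gam * C.el.b)⟩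
            ⟨e * C.eq.a, e * C.eq.b, e * C.eq.c⟩) 1 rho gam
          (rho * gam) rho (al - rho * s) y s (gam - rho * (C.g2h * (al - rho * s) ^ 2)) * d
        + (qco C (rho * gam) (rho * y) (rho * al - rho ^ 2 * s) (rho ^ 2 * s) (e * C.eq.a)).ev d
          * d ^ 2 := by
  simp only [Phi, T0f, T1f, dco, qco, Qc.ev, H1.ev, H2.ev, H3.ev, H4.ev, H5.ev, nsmul_eq_mul]
  push_cast
  ring

end Pool.Agent.Helper30.DL
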